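import Pool.Agent.H.MP_deb346_gt.J

set_option autoImplicit false

namespace Pool.Agent.H.MP_ec5bc9_gt

open Set Filter Topology Pool.Agent.H.MP_594704_gt Pool.Agent.H.MP_deb346_gt

abbrev QP := ℝ × V × ℝ × ℝ × ℝ

def ev (P : QP) (X : V) : ℝ := P.1 + dot P.2.1 X + bf P.2.2 X X

def gr (P : QP) (X : V) : V := (P.2.1.1 + 2 * (P.2.2.1 * X.1 + P.2.2.2.1 * X.2),
  P.2.1.2 + 2 * (P.2.2.2.1 * X.1 + P.2.2.2.2 * X.2))

theorem ev_add (P : QP) (X w : V) (t : ℝ) :
    ev P (X + t • w) = ev P X + t * dot (gr P X) w + t ^ 2 * bf P.2.2 w w := by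
  simp only [ev, gr, dot, bf, Prod.fst_add, Prod.snd_add, Prod.smul_fst, Prod.smul_snd, smul_eq_mul]
  ring

theorem ev_smul (a : ℝ) (P : QP) (X : V) : ev (a • P) X = a * ev P X := by
  simp only [ev, dot, bf, Prod.smul_fst, Prod.smul_snd, smul_eq_mul]; ring

theorem gr_smul (a : ℝ) (P : QP) (X w : V) : dot (gr (a • P) X) w = a * dot (gr P X) w := by
  simp only [gr, dot, Prod.smul_fst, Prod.smul_snd, smul_eq_mul]; ring

@[fun_prop] theorem c_ev {ι : Type*} [TopologicalSpace ι] {P : ι → QP} {X : ι → V}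
    (a : Continuous P) (b : Continuous X) : Continuous fun i => ev (P i) (X i) := by
  unfold ev dot bf; fun_prop

@[fun_prop] theorem c_dot {ι : Type*} [TopologicalSpace ι] {P : ι → V} {X : ι → V}
    (a : Continuous P) (b : Continuous X) : Continuous fun i => dot (P i) (X i) := by
  unfold dot; fun_prop

@[fun_prop] theorem c_bf {ι : Type*} [TopologicalSpace ι] {P : ι → ℝ × ℝ × ℝ} {X Y : ι → V}
    (a : Continuous P) (b : Continuous X) (c : Continuous Y) :
    Continuous fun i => bf (P i) (X i) (Y i) := by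
  unfold bf; fun_prop

@[fun_prop] theorem c_gr {ι : Type*} [TopologicalSpace ι] {P : ι → QP} {X : ι → V}
    (a : Continuous P) (b : Continuous X) : Continuous fun i => gr (P i) (X i) := by
  unfold gr; fun_prop

theorem t0 (x w : V) : Tendsto (fun t : ℝ => x + t • w) (𝓝[>] 0) (𝓝 x) := t_sm x w

theorem qz {D : ℝ × ℝ × ℝ} {u : V} (h : ∀ᶠ w in 𝓝 u, bf D w w = 0) : D = 0 := by
  have k : ∀ e : V, bf D e e = 0 := fun e => by
    obtain ⟨t, ⟨a, b⟩, c⟩ := ((((t0 u e).eventually h).and ((t0 u (-e)).eventually h)).and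
      self_mem_nhdsWithin).exists
    have z := h.self_of_nhds
    refine mul_left_cancel₀ (pow_ne_zero 2 (ne_of_gt c)) ?_
    simp only [bf, Prod.fst_add, Prod.snd_add, Prod.smul_fst, Prod.smul_snd, smul_eq_mul,
      Prod.fst_neg, Prod.snd_neg] at *
    linarith
  have a := k (1, 0)
  have b := k (0, 1)
  have c := k (1, 1)
  simp only [bf] at a b c
  ext <;> simp <;> linarith

noncomputable def fl (M : Set V) (d : V → V → ℝ) (l p X : V) : ℝ :=
  sInf (d X '' {Y | Y ∈ M ∧ dot l Y = dot l p})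

structure WW (M : Set V) (d : V → V → ℝ) (B K : Set V) : Prop extends QM M d where
  str : ∀ x ∈ M, ∀ y ∈ M, ∀ z ∈ M, d x y + d y z = d x z → y ∈ segment ℝ x z
  oB : IsOpen B
  cB : Convex ℝ B
  BM : B ⊆ M
  cK : IsCompact K
  KM : K ⊆ M
  ft : ∀ l, ∀ p ∈ B, ∀ X ∈ B, ∃ Y ∈ K, dot l Y = dot l p ∧ fl M d l p X = d X Y
  con : ∀ l, ∀ p ∈ B, ∀ F ∈ B, dot l F ≠ dot l p → ∃ P : QP, (∃ Z, 0 < ev P Z) ∧
    (∃ Z, ev P Z < 0) ∧ ∀ X ∈ B, d X F = fl M d l p X ↔ ev P X = 0

variable {M B K : Set V} {d : V → V → ℝ}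

theorem fl_le (h : QM M d) {l p X Y : V} (hX : X ∈ M) (hY : Y ∈ M) (e : dot l Y = dot l p) :
    fl M d l p X ≤ d X Y :=
  csInf_le ⟨0, by rintro _ ⟨Z, hZ, rfl⟩; exact h.nonneg hX hZ.1⟩ ⟨Y, ⟨hY, e⟩, rfl⟩

theorem WW.ray (h : WW M d B K) {X F Y : V} {t : ℝ} (hX : X ∈ M) (hF : F ∈ M) (hY : Y ∈ M)
    (t0 : 0 < t) (t1 : t ≤ 1) (e : d X (X + t • (F - X)) + d (X + t • (F - X)) Y = d X Y)
    (e' : d X Y = d X F) : Y = F := by
  by_cases n : F - X = 0
  · rw [sub_eq_zero] at n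
    rw [n, h.refl X hX] at e'
    rw [n, h.sep X hX Y hY e']
  have := h.str X hX _ (h.cv.add_smul_sub_mem hX hF ⟨t0.le, t1⟩) Y hY e
  rw [segment_eq_image'] at this
  obtain ⟨a, ha, e2⟩ := this
  have e3 : a • (Y - X) = t • (F - X) := add_left_cancel e2
  have a0 : a ≠ 0 := by
    rintro rfl
    rw [zero_smul] at e3
    exact smul_ne_zero t0.ne' n e3.symm
  have e4 : Y = X + (t / a) • (F - X) := by
    rw [div_eq_inv_mul, mul_smul, ← e3, smul_smul, inv_mul_cancel₀ a0]; simp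
  have e5 : F = X + (1:ℝ) • (F - X) := by simp
  have p : 0 ≤ t / a := div_nonneg t0.le ha.1
  rcases lt_trichotomy (t / a) 1 with q | q | q
  · have := h.toQM.lt0 hX n (e5 ▸ hF) p q
    rw [← e4, ← e5] at this
    exact absurd e' this.ne
  · rw [e4, q, ← e5]
  · have := h.toQM.lt0 hX n (e4 ▸ hY) zero_le_one q
    rw [← e4, ← e5] at this
    exact absurd e' this.ne'

theorem WW.star (h : WW M d B K) {l p F X : V} (hp : p ∈ B) (hF : F ∈ B) (hX : X ∈ B)
    (n : dot l F ≠ dot l p) (g : d X F ≤ fl M d l p X) {t : ℝ} (t0 : 0 < t) (t1 : t ≤ 1) :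
    d (X + t • (F - X)) F < fl M d l p (X + t • (F - X)) := by
  have m := h.cB.add_smul_sub_mem hX hF ⟨t0.le, t1⟩
  obtain ⟨Y, hY, e, f⟩ := h.ft l p hp _ m
  have a := h.toQM.add0 (v := F - X) (r := 1) (h.BM hX) (by simpa using h.BM hF) t0.le t1
  rw [one_smul, add_sub_cancel] at a
  have b := fl_le h.toQM (h.BM hX) (h.KM hY) e
  have c := h.tri X (h.BM hX) _ (h.BM m) Y (h.KM hY)
  by_contra hn
  exact n (h.ray (h.BM hX) (h.BM hF) (h.KM hY) t0 t1 (by linarith) (by linarith) ▸ e)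

theorem WW.gc (h : WW M d B K) {l p F : V} (hp : p ∈ B) (hF : F ∈ B) :
    ContinuousOn (fun X => d X F - fl M d l p X) B := fun X hX => by
  have k : ∀ X ∈ B, ∀ Z ∈ B, fl M d l p X - fl M d l p Z ≤ d X Z := fun X hX Z hZ => by
    obtain ⟨Y, hY, e, f⟩ := h.ft l p hp _ hZ
    linarith [fl_le h.toQM (h.BM hX) (h.KM hY) e, h.tri X (h.BM hX) Z (h.BM hZ) Y (h.KM hY)]
  have T : Tendsto id (𝓝[B] X) (𝓝 X) := nhdsWithin_le_nhds
  refine (h.toQM.tendsto (h.BM hX) (h.BM hF) T tendsto_const_nhds).sub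
    (tendsto_iff_dist_tendsto_zero.2 (squeeze_zero' (Eventually.of_forall fun _ => dist_nonneg) ?_
      (h.refl X (h.BM hX) ▸ h.toQM.tendsto (h.BM hX) (h.BM hX) tendsto_const_nhds T)))
  filter_upwards [self_mem_nhdsWithin] with Z hZ
  rw [Real.dist_eq, abs_le]
  have := k Z hZ X hX
  rw [h.symm Z (h.BM hZ) X (h.BM hX)] at this
  exact ⟨by have := k X hX Z hZ; simp only [id]; linarith, this⟩

def Cq (M : Set V) (d : V → V → ℝ) (B : Set V) (l p F : V) (P : QP) : Prop :=
  ∀ X ∈ B, (d X F < fl M d l p X → ev P X < 0) ∧ (fl M d l p X < d X F → 0 < ev P X) ∧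
    (d X F = fl M d l p X → ev P X = 0 ∧ 0 < dot (gr P X) (X - F))

theorem WW.cq (h : WW M d B K) {l p F : V} (hp : p ∈ B) (hF : F ∈ B) (n : dot l F ≠ dot l p) :
    ∃ P, P ≠ 0 ∧ Cq M d B l p F P := by
  have gF : d F F < fl M d l p F := by
    obtain ⟨Y, hY, e, f⟩ := h.ft l p hp _ hF
    rw [f, h.refl F (h.BM hF)]
    exact h.toQM.pos (h.BM hF) (h.KM hY) (by rintro rfl; exact n e)
  obtain ⟨P, ⟨Z, hZ⟩, hF0, hP⟩ : ∃ P : QP, (∃ Z, 0 < ev P Z) ∧ ev P F < 0 ∧
      ∀ X ∈ B, d X F = fl M d l p X ↔ ev P X = 0 := by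
    obtain ⟨P, a, ⟨Z, b⟩, c⟩ := h.con l p hp F hF n
    rcases lt_trichotomy (ev P F) 0 with q | q | q
    · exact ⟨P, a, q, c⟩
    · exact absurd ((c F hF).2 q) gF.ne
    · exact ⟨(-1 : ℝ) • P, ⟨Z, by rw [ev_smul]; linarith⟩, by rw [ev_smul]; linarith,
        fun X hX => by rw [c X hX, ev_smul]; simp⟩
  have m : ∀ X ∈ B, ∀ t ∈ Icc (0:ℝ) 1, F + t • (X - F) ∈ B := fun X hX t ht =>
    h.cB.add_smul_sub_mem hF hX ht
  have st : ∀ X ∈ B, ∀ s ∈ Icc (0:ℝ) 1, ∀ t, 0 ≤ t → t < s →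
      d (F + s • (X - F)) F ≤ fl M d l p (F + s • (X - F)) →
      d (F + t • (X - F)) F < fl M d l p (F + t • (X - F)) := fun X hX s hs t t0 ts g => by
    have s0 : 0 < s := by linarith
    have := h.star hp hF (m X hX s hs) n g (t := 1 - t / s) (by rw [sub_pos, div_lt_one s0]; exact ts)
      (by linarith [div_nonneg t0 s0.le])
    rwa [show F + s • (X - F) + (1 - t / s) • (F - (F + s • (X - F))) = F + t • (X - F) by
      match_scalars <;> field_simp <;> ring] at this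
  have ng : ∀ X ∈ B, d X F < fl M d l p X → ev P X < 0 := fun X hX g => by
    by_contra hn
    obtain ⟨t, ht, e⟩ := intermediate_value_Icc zero_le_one (f := fun t : ℝ => ev P (F + t • (X - F)))
      (by fun_prop) (show 0 ∈ _ from ⟨by simpa using hF0.le, by simpa using hn⟩)
    have e' := (hP _ (m X hX t ht)).2 e
    rcases ht.2.eq_or_lt with rfl | q
    · exact g.ne (by simpa using e')
    · exact (st X hX 1 ⟨zero_le_one, le_rfl⟩ t ht.1 q (by simpa using g.le)).ne e'
  have ps : ∀ X ∈ B, fl M d l p X < d X F → 0 < ev P X := fun X hX g => by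
    by_contra hn
    have lt : ev P X < 0 := lt_of_le_of_ne (not_lt.1 hn) fun e => g.ne' ((hP X hX).2 e)
    set n := gr P F
    have := qz (D := (n.1 ^ 2 - 4 * ev P F * P.2.2.1, n.1 * n.2 - 4 * ev P F * P.2.2.2.1,
      n.2 ^ 2 - 4 * ev P F * P.2.2.2.2)) (u := X - F) (by
      have T : Tendsto (fun u => F + u) (𝓝 (X - F)) (𝓝 X) := by
        simpa using (continuous_const_add F).tendsto (X - F)
      filter_upwards [T.eventually (h.oB.mem_nhds hX), T.eventually
        (((h.gc (l := l) hp hF).continuousAt (h.oB.mem_nhds hX)).eventually (lt_mem_nhds (sub_pos.2 g))),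
        T.eventually ((by fun_prop : Continuous (ev P)).continuousAt.eventually (gt_mem_nhds lt))]
        with u a b c
      obtain ⟨t, ht, e⟩ := intermediate_value_Ioo zero_le_one
        (f := fun t : ℝ => d (F + t • (F + u - F)) F - fl M d l p (F + t • (F + u - F)))
        ((h.gc hp hF).comp (by fun_prop) (m _ a))
        (show 0 ∈ _ from ⟨by simpa using gF, by simpa using b⟩)
      have e1 := (hP _ (m _ a t (Ioo_subset_Icc_self ht))).1 (sub_eq_zero.1 e)
      have e2 := ev_add P F u 1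
      rw [one_smul] at e2
      have key : ∀ s ∈ Ioo (0:ℝ) 1, ev P (F + s • (F + u - F)) = 0 → s = t := fun s hs es => by
        have es' := (hP _ (m _ a s (Ioo_subset_Icc_self hs))).2 es
        rcases lt_trichotomy s t with q | q | q
        · exact absurd es' (st _ a t (Ioo_subset_Icc_self ht) s hs.1.le q (sub_eq_zero.1 e).le).ne
        · exact q
        · exact absurd (sub_eq_zero.1 e) (st _ a s (Ioo_subset_Icc_self hs) t ht.1.le q es'.le).ne
      simp only [add_sub_cancel_left, ev_add] at key e1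
      have eD : bf (n.1 ^ 2 - 4 * ev P F * P.2.2.1, n.1 * n.2 - 4 * ev P F * P.2.2.2.1,
          n.2 ^ 2 - 4 * ev P F * P.2.2.2.2) u u = dot n u ^ 2 - 4 * ev P F * bf P.2.2 u u := by
        simp only [bf, dot]; ring
      rw [eD]
      change _ + t * dot n u + _ = 0 at e1
      change ∀ s ∈ _, _ + s * dot n u + _ = 0 → _ at key
      change _ = _ + 1 * dot n u + _ at e2
      generalize dot n u = b1 at *
      generalize bf P.2.2 u u = q at *
      generalize ev P F = c0 at *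
      obtain ⟨t0, t1⟩ := ht
      have q0 : q < 0 := by nlinarith [mul_pos t0 (sub_pos.2 t1)]
      have tq : t * q < 0 := mul_neg_of_pos_of_neg t0 q0
      have := key (c0 / (t * q)) ⟨div_pos_of_neg_of_neg hF0 tq, by
        rw [div_lt_one_of_neg tq]; nlinarith⟩ (by
          have := q0.ne
          field_simp
          linear_combination c0 * e1)
      rw [div_eq_iff tq.ne] at this
      have b2 : b1 = -2 * t * q := mul_left_cancel₀ t0.ne' (by linear_combination e1 - this)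
      rw [b2, this]; ring)
    have e := ev_add P F (Z - F) 1
    rw [one_smul, add_sub_cancel] at e
    simp only [Prod.mk_eq_zero] at this
    have e2 : 4 * ev P F * bf P.2.2 (Z - F) (Z - F) = dot n (Z - F) ^ 2 := by
      simp only [bf, dot]
      linear_combination (-(Z - F).1 ^ 2) * this.1 - 2 * (Z - F).1 * (Z - F).2 * this.2.1 -
        (Z - F).2 ^ 2 * this.2.2
    change _ = _ + 1 * dot n (Z - F) + _ at e
    nlinarith [sq_nonneg (2 * ev P F + dot n (Z - F))]
  refine ⟨P, by rintro rfl; simp [ev, dot, bf] at hF0, fun X hX => ⟨ng X hX, ps X hX, fun e => ?_⟩⟩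
  have z := (hP X hX).1 e
  refine ⟨z, ?_⟩
  obtain ⟨t, a, b⟩ := (((t0 X (X - F)).eventually (h.oB.mem_nhds hX)).and self_mem_nhdsWithin).exists
  have b : 0 < t := b
  have c := ps _ a (by
    by_contra hn
    have := h.star hp hF a n (not_lt.1 hn) (t := t / (1 + t)) (by positivity)
      ((div_le_one (by positivity)).2 (by linarith))
    rw [show X + t • (X - F) + (t / (1 + t)) • (F - (X + t • (X - F))) = X by
      match_scalars <;> field_simp <;> ring] at this
    exact this.ne e)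
  have e1 := ev_add P X (X - F) (-1)
  rw [show X + (-1:ℝ) • (X - F) = F by module] at e1
  rw [ev_add] at c
  by_contra hn
  nlinarith [mul_pos b b]

end Pool.Agent.H.MP_ec5bc9_gt
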