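import Pool.Agent.H.MP_ec5bc9_gt.A

set_option autoImplicit false

namespace Pool.Agent.H.MP_ec5bc9_gt

open Set Filter Topology Pool.Agent.H.MP_594704_gt Pool.Agent.H.MP_deb346_gt

variable {M B K : Set V} {d : V → V → ℝ}

theorem dot_add (l a b : V) : dot l (a + b) = dot l a + dot l b := by
  simp only [dot, Prod.fst_add, Prod.snd_add]; ring

theorem dot_sub (l a b : V) : dot l (a - b) = dot l a - dot l b := by
  simp only [dot, Prod.fst_sub, Prod.snd_sub]; ring

theorem dot_neg (l a : V) : dot l (-a) = -dot l a := by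
  simp only [dot, Prod.fst_neg, Prod.snd_neg]; ring

theorem neg_dot (l a : V) : dot (-l) a = -dot l a := by
  simp only [dot, Prod.fst_neg, Prod.snd_neg]; ring

theorem dot_self {a : V} (h : a ≠ 0) : 0 < dot a a := by
  have := sq_pos' h; simp only [dot]; linarith

theorem WW.rs (h : WW M d B K) {X F Y : V} {t : ℝ} (hX : X ∈ M) (hF : F ∈ M) (hY : Y ∈ M)
    (t0 : 0 < t) (t1 : t ≤ 1) (e : d X Y = d X F) (n : Y ≠ F) :
    d (X + t • (F - X)) F < d (X + t • (F - X)) Y := by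
  have m := h.cv.add_smul_sub_mem hX hF ⟨t0.le, t1⟩
  have a := h.toQM.add0 (v := F - X) (r := 1) hX (by simpa using hF) t0.le t1
  rw [one_smul, add_sub_cancel] at a
  by_contra hn
  exact n (h.ray hX hF hY t0 t1 (by linarith [h.tri X hX _ m Y hY]) e)

theorem gnn {P : QP} {X w : V} (z : ev P X = 0) (h : ∀ᶠ t in 𝓝[>] (0:ℝ), 0 ≤ ev P (X + t • w)) :
    0 ≤ dot (gr P X) w := by
  have T : Tendsto (fun t : ℝ => dot (gr P X) w + t * bf P.2.2 w w) (𝓝[>] 0) (𝓝 (dot (gr P X) w)) := by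
    simpa using (t_id.mul_const (bf P.2.2 w w)).const_add (dot (gr P X) w)
  refine ge_of_tendsto T ?_
  filter_upwards [h, self_mem_nhdsWithin] with t a b
  rw [ev_add, z] at a
  exact (mul_nonneg_iff_of_pos_left b).1 (by linarith)

theorem WW.qc0 (h : WW M d B K) {l v Y e b m0 : V} (hY : Y ∈ B) (he : e ∈ B) (hb : b ∈ B)
    (hv : ∀ Z, dot l Z = dot l e → ∃ s : ℝ, Z = e + s • v) (b1 : dot l b = dot l e)
    (b2 : dot v e ≤ dot v b) (k0 : m0 ∈ K) (m1 : dot l m0 = dot l e) (m2 : dot v m0 ≤ dot v e)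
    (m3 : fl M d l e Y = d Y m0) : d Y e ≤ d Y b := by
  by_contra lt
  rw [not_le] at lt
  set Z := fun t : ℝ => Y + t • (b - Y)
  have mZ : ∀ t ∈ Icc (0:ℝ) 1, Z t ∈ B := fun t ht => h.cB.add_smul_sub_mem hY hb ht
  have KM : insert b K ⊆ M := insert_subset (h.BM hb) h.KM
  have cl : ∀ S : Set V, IsClosed S → IsClosed (Prod.fst '' ((Icc (0:ℝ) 1 ×ˢ (insert b K ∩ S)) ∩
      (fun q : ℝ × V => d (Z q.1) e - fl M d l e (Z q.1) - d (Z q.1) e + d (Z q.1) q.2) ⁻¹' {0})) :=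
    fun S hS => by
      have c := isCompact_Icc.prod ((h.cK.insert b).inter_right hS) (s := Icc (0:ℝ) 1)
      refine ((c.of_isClosed_subset (ContinuousOn.preimage_isClosed_of_isClosed ?_ c.isClosed
        isClosed_singleton) inter_subset_left).image continuous_fst).isClosed
      refine (((h.gc he he).comp (f := fun q : ℝ × V => Z q.1) (by fun_prop)
        fun q hq => mZ _ hq.1).sub (h.cont.comp (f := fun q : ℝ × V => (Z q.1, e)) (by fun_prop)
        fun q hq => ⟨h.BM (mZ _ hq.1), h.BM he⟩)).add (h.cont.comp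
          (f := fun q : ℝ × V => (Z q.1, q.2)) (by fun_prop) fun q hq => ⟨h.BM (mZ _ hq.1), KM hq.2.1⟩)
  have cd : ∀ a : V, Continuous (dot a) := fun a => by fun_prop
  obtain ⟨t, ht, ⟨⟨t1, x1⟩, ⟨⟨-, a1, a2, a3⟩, a4⟩, u1⟩, ⟨t2, x2⟩, ⟨⟨-, c1, c2, c3⟩, c4⟩, u2⟩ :=
    isPreconnected_closed_iff.1 (isPreconnected_Icc (a := (0:ℝ)) (b := 1)) _ _
    (cl _ ((isClosed_eq (cd l) continuous_const (g := fun _ => dot l e)).inter
      (isClosed_le (cd v) continuous_const (g := fun _ => dot v e))))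
    (cl _ ((isClosed_eq (cd l) continuous_const (g := fun _ => dot l e)).inter
      (isClosed_le continuous_const (cd v) (f := fun _ => dot v e))))
    (fun t ht => by
      obtain ⟨m, a, b, c⟩ := h.ft l e he _ (mZ t ht)
      rcases le_total (dot v m) (dot v e) with q | q
      · exact Or.inl ⟨(t, m), ⟨⟨ht, Or.inr a, b, q⟩, by simp [c]⟩, rfl⟩
      · exact Or.inr ⟨(t, m), ⟨⟨ht, Or.inr a, b, q⟩, by simp [c]⟩, rfl⟩)
    ⟨0, by simp, (0, m0), ⟨⟨by simp, Or.inr k0, m1, m2⟩, by simp [Z, m3]⟩, rfl⟩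
    ⟨1, by simp, (1, b), ⟨⟨by simp, Or.inl rfl, b1, b2⟩, by
      obtain ⟨m, a, -, c⟩ := h.ft l e he _ hb
      have := fl_le h.toQM (h.BM hb) (h.BM hb) b1
      have := h.toQM.nonneg (h.BM hb) (h.KM a)
      simp [Z]; linarith [h.refl b (h.BM hb)]⟩, rfl⟩
  simp only [mem_preimage, mem_singleton_iff, mem_setOf_eq] at *
  rw [u1] at a4
  rw [u2] at c4
  have hX := mZ _ ht
  have lt2 : fl M d l e (Z t) < d (Z t) e := by
    have a := h.toQM.add0 (v := b - Y) (r := 1) (h.BM hY) (by simpa using h.BM hb) ht.1 ht.2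
    rw [one_smul, add_sub_cancel] at a
    linarith [fl_le h.toQM (h.BM hX) (h.BM hb) b1, h.tri Y (h.BM hY) _ (h.BM hX) e (h.BM he)]
  generalize Z t = X at *
  obtain ⟨s1, rfl⟩ := hv _ a2
  obtain ⟨s2, rfl⟩ := hv _ c2
  have n1 : s1 • v ≠ 0 := fun z => by rw [z, add_zero] at a4; linarith
  have n2 : s2 • v ≠ 0 := fun z => by rw [z, add_zero] at c4; linarith
  have vp := dot_self (right_ne_zero_of_smul n1)
  rw [dot_add, dot_smul] at a3 c3
  have p1 : s1 < 0 := lt_of_le_of_ne (by nlinarith) (left_ne_zero_of_smul n1)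
  have p2 : 0 < s2 := lt_of_le_of_ne (by nlinarith) (left_ne_zero_of_smul n2).symm
  have r0 : 0 < fl M d l e X := by
    refine lt_of_le_of_ne (by linarith [h.toQM.nonneg (h.BM hX) (KM a1)]) fun z => ?_
    have u1 := h.sep _ (h.BM hX) _ (KM a1) (by linarith)
    have u2 := h.sep _ (h.BM hX) _ (KM c1) (by linarith)
    rw [u1] at u2
    linarith [smul_left_injective ℝ (right_ne_zero_of_smul n1) (add_left_cancel u2)]
  obtain ⟨τ, hτ, e1⟩ := intermediate_value_Ioo zero_le_one (h.toQM.arc_cont (v := e - X) (T := 1)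
    (h.BM hX) (h.BM hX) (by simpa using h.BM he))
    (show fl M d l e X ∈ _ from ⟨by simpa [h.refl X (h.BM hX)] using r0, by simpa using lt2⟩)
  have hF := h.cB.add_smul_sub_mem hX he (Ioo_subset_Icc_self hτ)
  have nF : dot l (X + τ • (e - X)) ≠ dot l e := fun z => by
    rw [dot_add, dot_smul, dot_sub] at z
    have : dot l X = dot l e := mul_left_cancel₀ (sub_pos.2 hτ.2).ne' (by linarith)
    linarith [fl_le h.toQM (h.BM hX) (h.BM hX) this, h.refl X (h.BM hX)]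
  obtain ⟨P, -, hP⟩ := h.cq he hF nF
  obtain ⟨z, g⟩ := (hP X hX).2.2 e1
  have k : ∀ m ∈ M, dot l m = dot l e → d X m = fl M d l e X → 0 ≤ dot (gr P X) (m - X) :=
    fun m hm a b => gnn z (by
      filter_upwards [(t0 X (m - X)).eventually (h.oB.mem_nhds hX), Ioo_mem_nhdsGT one_pos] with t c ht
      exact ((hP _ c).2.1 ((fl_le h.toQM (h.BM c) hm a).trans_lt (h.rs (h.BM hX) hm (h.BM hF) ht.1
        ht.2.le (by rw [b]; exact e1) (fun q => nF (q ▸ a))))).le)
  have k1 := k _ (KM a1) a2 (by linarith)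
  have k2 := k _ (KM c1) c2 (by linarith)
  simp only [dot_sub, dot_add, dot_smul] at k1 k2 g
  have : 0 ≤ (s2 - s1) * (dot (gr P X) e - dot (gr P X) X) := by nlinarith
  nlinarith [hτ.1, (mul_nonneg_iff_of_pos_left (sub_pos.2 (p1.trans p2))).1 this]

theorem line_par {v e : V} (n : v ≠ 0) (Z : V) (a : dot (-v.2, v.1) Z = dot (-v.2, v.1) e) :
    ∃ s : ℝ, Z = e + s • v := by
  have := sq_pos' n
  refine ⟨dot v (Z - e) / (v.1 ^ 2 + v.2 ^ 2), ?_⟩
  simp only [dot] at a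
  ext <;> simp [dot] <;> field_simp
  · linear_combination (-v.2) * a
  · linear_combination v.1 * a

theorem WW.qc (h : WW M d B K) {Y b1 b2 e : V} (hY : Y ∈ B) (h1 : b1 ∈ B) (h2 : b2 ∈ B)
    (he : e ∈ segment ℝ b1 b2) : d Y e ≤ max (d Y b1) (d Y b2) := by
  have m := h.cB.segment_subset h1 h2 he
  rw [segment_eq_image'] at he
  obtain ⟨t, ht, rfl⟩ := he
  by_cases n : b2 - b1 = 0
  · simp [n]
  set v := b2 - b1 with hv
  have e2 : b2 = b1 + v := by simp [hv]
  have vp := dot_self n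
  obtain ⟨m0, a, b, c⟩ := h.ft (-v.2, v.1) _ m _ hY
  have z : dot (-v.2, v.1) v = 0 := by simp only [dot]; ring
  rcases le_total (dot v m0) (dot v (b1 + t • v)) with q | q
  · refine le_max_of_le_right (h.qc0 hY m h2 (line_par n) ?_ ?_ a b q c) <;>
      rw [e2, dot_add, dot_add, dot_smul]
    · rw [z]; ring
    · nlinarith [ht.2]
  · refine le_max_of_le_left (h.qc0 (v := -v) hY m h1 (fun Z k => ?_) ?_ ?_ a b ?_ c)
    · obtain ⟨s, e⟩ := line_par n Z k
      exact ⟨-s, by simpa using e⟩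
    · rw [dot_add, dot_smul, z]; ring
    · rw [neg_dot, neg_dot, dot_add, dot_smul]; nlinarith [ht.1]
    · rw [neg_dot, neg_dot]; linarith

structure W2 (M : Set V) (d : V → V → ℝ) (B K B' : Set V) : Prop extends WW M d B K where
  oB' : IsOpen B'
  cB' : Convex ℝ B'
  sub : B' ⊆ B
  sm : ∀ Y ∈ B', ∀ p ∈ B', ∀ z ∈ M, d Y z ≤ d Y p → z ∈ B

variable {B' : Set V}

def Sup (d : V → V → ℝ) (B : Set V) (Y p l : V) : Prop :=
  l ≠ 0 ∧ ∀ z ∈ B, d Y z < d Y p → dot l z ≤ dot l p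

theorem WW.sup (h : WW M d B K) {Y p : V} (hY : Y ∈ B) (hp : p ∈ B) (n : Y ≠ p) :
    ∃ l, ‖l‖ = 1 ∧ Sup d B Y p l := by
  have o : IsOpen {z | z ∈ B ∧ d Y z < d Y p} :=
    (h.cont.comp (f := fun z => (Y, z)) (by fun_prop) fun z hz => ⟨h.BM hY, h.BM hz⟩).isOpen_inter_preimage
      h.oB isOpen_Iio
  obtain ⟨f, hf⟩ := geometric_hahn_banach_open_point (s := {z | z ∈ B ∧ d Y z < d Y p}) (x := p)
    (convex_iff_segment_subset.2 fun a ha b hb e he => ⟨h.cB.segment_subset ha.1 hb.1 he,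
      (h.qc hY ha.1 hb.1 he).trans_lt (max_lt ha.2 hb.2)⟩) o (fun a => lt_irrefl _ a.2)
  have e : ∀ z, f z = dot (f (1, 0), f (0, 1)) z := fun z => by
    rw [show z = z.1 • ((1, 0) : V) + z.2 • (0, 1) by ext <;> simp, map_add, map_smul, map_smul]
    simp [dot]; ring
  set l : V := (f (1, 0), f (0, 1))
  have l0 : l ≠ 0 := fun z => by
    have := hf Y ⟨hY, by rw [h.refl Y (h.BM hY)]; exact h.toQM.pos (h.BM hY) (h.BM hp) n⟩
    rw [e, e p, z] at this
    simp [dot] at this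
  have np := norm_pos_iff.2 l0
  refine ⟨‖l‖⁻¹ • l, norm_smul_inv_norm l0, smul_ne_zero (inv_pos.2 np).ne' l0, fun z hz q => ?_⟩
  have := mul_le_mul_of_nonneg_left (hf z ⟨hz, q⟩).le (inv_pos.2 np).le
  rw [e, e p] at this
  simp only [dot, Prod.smul_fst, Prod.smul_snd, smul_eq_mul] at this ⊢
  linarith

theorem W2.foot (h : W2 M d B K B') {Y p l : V} (hY : Y ∈ B') (hp : p ∈ B') (s : Sup d B Y p l) :
    fl M d l p Y = d Y p := by
  have mY := h.BM (h.sub hY)
  have mp := h.BM (h.sub hp)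
  refine le_antisymm (fl_le h.toQM mY mp rfl) ?_
  obtain ⟨z, a, b, c⟩ := h.ft l p (h.sub hp) Y (h.sub hY)
  rw [c]
  by_contra hn
  rw [not_le] at hn
  have m := h.sm Y hY p hp z (h.KM a) hn.le
  obtain ⟨t, ⟨e1, e2⟩, t1⟩ := ((((t0 z l).eventually (h.oB.mem_nhds m)).and
    ((h.toQM.tendsto mY (h.KM a) tendsto_const_nhds (t0 z l)).eventually (gt_mem_nhds hn))).and
    self_mem_nhdsWithin).exists
  have := s.2 _ e1 e2
  rw [dot_add, dot_smul] at this
  nlinarith [mul_pos t1 (dot_self s.1)]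

theorem W2.off (h : W2 M d B K B') {X F p l : V} (hX : X ∈ B') (hF : F ∈ B') (hp : p ∈ B')
    (e : d X F = d X p) (n : F ≠ p) (s : Sup d B X p l) : dot l F ≠ dot l p := fun z => by
  have f := h.foot hX hp s
  have X1 := h.sub hX
  have F1 := h.sub hF
  have p1 := h.sub hp
  have sg : F + (1 / 2 : ℝ) • (p - F) ∈ segment ℝ F p := by
    rw [segment_eq_image']; exact ⟨1 / 2, by norm_num, rfl⟩
  have nF : F ≠ F + (1 / 2 : ℝ) • (p - F) := by simpa [sub_eq_zero] using n.symm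
  have np : p ≠ F + (1 / 2 : ℝ) • (p - F) := fun q => n (by
    have : (1 / 2 : ℝ) • (F - p) = 0 := by
      rw [show (1 / 2 : ℝ) • (F - p) = F + (1 / 2 : ℝ) • (p - F) - p by module, ← q, sub_self]
    simpa [sub_eq_zero] using this)
  have le : dot l (F + (1 / 2 : ℝ) • (p - F)) = dot l p := by
    rw [dot_add, dot_smul, dot_sub, z]; ring
  generalize F + (1 / 2 : ℝ) • (p - F) = c at *
  have c1 := h.cB.segment_subset F1 p1 sg
  have ec : d X c = d X p := le_antisymm (by simpa [e] using h.qc X1 F1 p1 sg)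
    (f ▸ fl_le h.toQM (h.BM X1) (h.BM c1) le)
  obtain ⟨t, a, b⟩ := (((t0 X (X - c)).eventually (h.oB.mem_nhds X1)).and self_mem_nhdsWithin).exists
  have b : 0 < t := b
  have e2 : X + t • (X - c) + (t / (1 + t)) • (c - (X + t • (X - c))) = X := by
    match_scalars <;> field_simp <;> ring
  have t1 : 0 < t / (1 + t) := by positivity
  have t2 : t / (1 + t) ≤ 1 := (div_le_one (by positivity)).2 (by linarith)
  generalize X + t • (X - c) = Z at *
  have ad := h.toQM.add0 (v := c - Z) (r := 1) (h.BM a) (by simpa using h.BM c1) t1.le t2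
  rw [e2, one_smul, add_sub_cancel] at ad
  have k : ∀ G ∈ B, d X G = d X p → G ≠ c → d Z G < d Z c := fun G hG q m => by
    have tr := h.tri Z (h.BM a) X (h.BM X1) G (h.BM hG)
    by_contra hn
    exact m (h.ray (h.BM a) (h.BM c1) (h.BM hG) t1 t2 (by rw [e2]; linarith) (by linarith))
  exact (h.qc a F1 p1 sg).not_gt (max_lt (k F F1 e nF) (k p p1 rfl np))

end Pool.Agent.H.MP_ec5bc9_gt
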