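import Pool.Agent.H.MP_ec5bc9_gt.B

set_option autoImplicit false

namespace Pool.Agent.H.MP_ec5bc9_gt

open Set Filter Topology Pool.Agent.H.MP_594704_gt Pool.Agent.H.MP_deb346_gt

variable {M B K B' : Set V} {d : V → V → ℝ}

theorem lin {m n : V} (m0 : m ≠ 0) (h : ∀ w, dot n w < 0 → dot m w ≤ 0) {w : V} (hw : dot n w < 0) :
    dot m w < 0 := by
  obtain ⟨t, a, b⟩ := (((((by fun_prop : Continuous (dot n)).tendsto w).comp (t0 w m)).eventually
    (gt_mem_nhds hw)).and self_mem_nhdsWithin).exists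
  have := h _ a
  rw [dot_add, dot_smul] at this
  nlinarith [mul_pos b (dot_self m0)]

theorem Cq.lt {l p F X : V} {P : QP} (c : Cq M d B l p F P) (hX : X ∈ B) (e : ev P X < 0) :
    d X F < fl M d l p X := by
  rcases lt_trichotomy (d X F) (fl M d l p X) with q | q | q
  · exact q
  · exact absurd ((c X hX).2.2 q).1 e.ne
  · exact absurd ((c X hX).2.1 q) e.not_gt

theorem Cq.gt {l p F X : V} {P : QP} (c : Cq M d B l p F P) (hX : X ∈ B) (e : 0 < ev P X) :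
    fl M d l p X < d X F := by
  rcases lt_trichotomy (d X F) (fl M d l p X) with q | q | q
  · exact absurd ((c X hX).1 q) e.not_gt
  · exact absurd ((c X hX).2.2 q).1 e.ne'
  · exact q

theorem Cq.nrm {l p F : V} {P : QP} (c : Cq M d B l p F P) (n : P ≠ 0) :
    ∃ P', ‖P'‖ = 1 ∧ Cq M d B l p F P' := by
  have np := inv_pos.2 (norm_pos_iff.2 n)
  refine ⟨‖P‖⁻¹ • P, norm_smul_inv_norm n, fun X hX => ?_⟩
  simp only [ev_smul, gr_smul]
  exact ⟨fun q => mul_neg_of_pos_of_neg np ((c X hX).1 q), fun q => mul_pos np ((c X hX).2.1 q),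
    fun q => ⟨by rw [((c X hX).2.2 q).1, mul_zero], mul_pos np ((c X hX).2.2 q).2⟩⟩

theorem W2.one (h : W2 M d B K B') {X F p : V} (hX : X ∈ B') (hF : F ∈ B') (hp : p ∈ B')
    (e : d X F = d X p) (n : F ≠ p) : ∃ l P, ‖l‖ = 1 ∧ ‖P‖ = 1 ∧ Sup d B X p l ∧ Cq M d B l p F P ∧
      ev P X = 0 ∧ 0 < dot (gr P X) (X - F) := by
  obtain ⟨l, a, s⟩ := h.sup (h.sub hX) (h.sub hp) (by
    rintro rfl
    rw [h.refl X (h.BM (h.sub hX))] at e
    exact n (h.sep X (h.BM (h.sub hX)) F (h.BM (h.sub hF)) e).symm)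
  obtain ⟨P, P0, c⟩ := h.cq (h.sub hp) (h.sub hF) (h.off hX hF hp e n s)
  obtain ⟨P, b, c⟩ := c.nrm P0
  exact ⟨l, P, a, b, s, c, (c X (h.sub hX)).2.2 (by rw [e, h.foot hX hp s])⟩

theorem W2.one' (h : W2 M d B K B') {X F p : V} (hX : X ∈ B') (hF : F ∈ B') (hp : p ∈ B')
    (e : d X F = d X p) (n : F ≠ p) : ∃ n, 0 < dot n (X - F) ∧ ∀ w, dot n w < 0 →
      ∀ᶠ t in 𝓝[>] (0:ℝ), d (X + t • w) F < d (X + t • w) p := by
  obtain ⟨l, P, -, -, s, c, z, g⟩ := h.one hX hF hp e n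
  refine ⟨_, g, fun w hw => ?_⟩
  have T : Tendsto (fun t : ℝ => dot (gr P X) w + t * bf P.2.2 w w) (𝓝[>] 0) (𝓝 (dot (gr P X) w)) := by
    simpa using (t_id.mul_const (bf P.2.2 w w)).const_add (dot (gr P X) w)
  filter_upwards [T.eventually (gt_mem_nhds hw), (t0 X w).eventually (h.oB.mem_nhds (h.sub hX)),
    self_mem_nhdsWithin] with t a b t1
  refine (c.lt b ?_).trans_le (fl_le h.toQM (h.BM b) (h.BM (h.sub hp)) rfl)
  rw [ev_add, z]
  nlinarith [mul_neg_of_pos_of_neg t1 a]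

theorem WW.fl_lsc (h : WW M d B K) {ι : Type*} {U : Ultrafilter ι} {l p Z : ι → V} {l0 p0 Z0 : V}
    (hl : Tendsto l U (𝓝 l0)) (hp : Tendsto p U (𝓝 p0)) (hZ : Tendsto Z U (𝓝 Z0)) (p1 : p0 ∈ B)
    (Z1 : Z0 ∈ B) {a : ℝ} (ha : a < fl M d l0 p0 Z0) : ∀ᶠ i in U, a < fl M d (l i) (p i) (Z i) := by
  have : ∀ᶠ i in U, ∃ m, m ∈ K ∧ dot (l i) m = dot (l i) (p i) ∧
      fl M d (l i) (p i) (Z i) = d (Z i) m := by
    filter_upwards [hp.eventually (h.oB.mem_nhds p1), hZ.eventually (h.oB.mem_nhds Z1)] with i a b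
    exact h.ft _ _ a _ b
  obtain ⟨m, hm⟩ := this.choice
  obtain ⟨m0, k, T⟩ := h.cK.ultrafilter_le_nhds' (U.map m) (hm.mono fun i a => a.1)
  have T : Tendsto m U (𝓝 m0) := T
  have e := tendsto_nhds_unique_of_eventuallyEq (dot_tendsto hl T) (dot_tendsto hl hp)
    (hm.mono fun i a => a.2.1)
  filter_upwards [hm, (h.toQM.tendsto (h.BM Z1) (h.KM k) hZ T).eventually
    (lt_mem_nhds (ha.trans_le (fl_le h.toQM (h.BM Z1) (h.KM k) e)))] with i a b
  rwa [a.2.2]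

def Cone (d : V → V → ℝ) (X F p n : V) : Prop := ∀ w0, dot n w0 < 0 →
  ∀ᶠ q : V × V × V × V × ℝ in 𝓝 X ×ˢ 𝓝 F ×ˢ 𝓝 p ×ˢ 𝓝 w0 ×ˢ 𝓝[>] 0, d q.1 q.2.1 = d q.1 q.2.2.1 →
    d (q.1 + q.2.2.2.2 • q.2.2.2.1) q.2.1 < d (q.1 + q.2.2.2.2 • q.2.2.2.1) q.2.2.1

theorem ul_sph {E ι : Type*} [NormedAddCommGroup E] [ProperSpace E] {U : Ultrafilter ι} {f : ι → E}
    (h : ∀ᶠ i in U, ‖f i‖ = 1) : ∃ a, a ≠ 0 ∧ Tendsto f U (𝓝 a) := by
  obtain ⟨a, s, T⟩ := (isCompact_sphere (0:E) 1).ultrafilter_le_nhds' (U.map f)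
    (h.mono fun i a => mem_sphere_zero_iff_norm.2 a)
  exact ⟨a, by rintro rfl; simp at s, T⟩

theorem ev_t {ι : Type*} {l : Filter ι} {P : ι → QP} {X : ι → V} {P0 : QP} {X0 : V}
    (a : Tendsto P l (𝓝 P0)) (b : Tendsto X l (𝓝 X0)) :
    Tendsto (fun i => ev (P i) (X i)) l (𝓝 (ev P0 X0)) :=
  ((c_ev continuous_fst continuous_snd).tendsto (P0, X0)).comp (a.prodMk_nhds b)

theorem W2.cone (h : W2 M d B K B') {X F p : V} (hX : X ∈ B') (hF : F ∈ B') (hp : p ∈ B')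
    (e : d X F = d X p) (n : F ≠ p) :
    ∃ n, 0 < dot n (X - F) ∧ dot n (X - p) < 0 ∧ Cone d X F p n := by
  obtain ⟨n1, a1, a2⟩ := h.one' hX hF hp e n
  obtain ⟨n2, b1, b2⟩ := h.one' hX hp hF e.symm n.symm
  have op : ∀ w, dot n1 w < 0 → dot n2 w < 0 → False := fun w a b => by
    obtain ⟨t, a, b⟩ := ((a2 w a).and (b2 w b)).exists
    linarith
  have o1 : ∀ w, dot n1 w < 0 → dot (-n2) w < 0 := fun w =>
    lin (by rintro z; rw [neg_eq_zero.1 z] at b1; simp [dot] at b1) fun w a => by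
      rw [neg_dot]; linarith [not_lt.1 (op w a)]
  have o2 : ∀ w, dot n2 w < 0 → dot (-n1) w < 0 := fun w =>
    lin (by rintro z; rw [neg_eq_zero.1 z] at a1; simp [dot] at a1) fun w a => by
      rw [neg_dot]; linarith [not_lt.1 fun b => op w b a]
  refine ⟨n1, a1, by
    have := o2 (-(X - p)) (by rw [dot_neg]; linarith)
    rw [neg_dot, dot_neg] at this; linarith, fun w0 hw => mem_iff_ultrafilter.2 fun U hU => ?_⟩
  by_contra hn
  have hn := Ultrafilter.compl_mem_iff_notMem.2 hn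
  have f1 : Tendsto (fun q : V × V × V × V × ℝ => q.1) U (𝓝 X) := tendsto_fst.mono_left hU
  have f2 : Tendsto (fun q : V × V × V × V × ℝ => q.2.1) U (𝓝 F) :=
    (tendsto_fst.comp tendsto_snd).mono_left hU
  have f3 : Tendsto (fun q : V × V × V × V × ℝ => q.2.2.1) U (𝓝 p) :=
    (tendsto_fst.comp (tendsto_snd.comp tendsto_snd)).mono_left hU
  have f4 : Tendsto (fun q : V × V × V × V × ℝ => q.2.2.2.1) U (𝓝 w0) :=
    (tendsto_fst.comp (tendsto_snd.comp (tendsto_snd.comp tendsto_snd))).mono_left hU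
  have f5 : Tendsto (fun q : V × V × V × V × ℝ => q.2.2.2.2) U (𝓝[>] 0) :=
    (tendsto_snd.comp (tendsto_snd.comp (tendsto_snd.comp tendsto_snd))).mono_left hU
  have f6 := f5.mono_right nhdsWithin_le_nhds
  have : ∀ᶠ q : V × V × V × V × ℝ in U, ∃ r : V × QP, ‖r.1‖ = 1 ∧ ‖r.2‖ = 1 ∧
      Sup d B q.1 q.2.2.1 r.1 ∧ Cq M d B r.1 q.2.2.1 q.2.1 r.2 ∧ ev r.2 q.1 = 0 := by
    filter_upwards [hn, f1.eventually (h.oB'.mem_nhds hX), f2.eventually (h.oB'.mem_nhds hF),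
      f3.eventually (h.oB'.mem_nhds hp), (f2.prodMk_nhds f3).eventually
      (isOpen_ne_fun continuous_fst continuous_snd |>.mem_nhds n)] with q a b c e f
    obtain ⟨l, P, g1, g2, g3, g4, g5, -⟩ := h.one b c e (Classical.not_imp.1 a).1 f
    exact ⟨(l, P), g1, g2, g3, g4, g5⟩
  obtain ⟨r, hr⟩ := this.choice
  obtain ⟨l0, l1, Tl⟩ := ul_sph (hr.mono fun _ a => a.1)
  obtain ⟨P0, P1, TP⟩ := ul_sph (hr.mono fun _ a => a.2.1)
  have X1 := h.sub hX
  have F1 := h.sub hF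
  have p1 := h.sub hp
  have T : ∀ Z ∈ B, ∀ {G : V} {g : V × V × V × V × ℝ → V}, G ∈ B → Tendsto g U (𝓝 G) →
      Tendsto (fun q => d Z (g q)) U (𝓝 (d Z G)) := fun Z hZ G g hG hg =>
    h.toQM.tendsto (h.BM hZ) (h.BM hG) tendsto_const_nhds hg
  have s0 : Sup d B X p l0 := ⟨l1, fun z hz q =>
    le_of_tendsto_of_tendsto (dot_tendsto Tl tendsto_const_nhds) (dot_tendsto Tl f3) (by
      filter_upwards [hr, (h.toQM.tendsto (h.BM X1) (h.BM hz) f1 tendsto_const_nhds).eventually_lt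
        (h.toQM.tendsto (h.BM X1) (h.BM p1) f1 f3) q] with i a b using a.2.2.1.2 z hz b)⟩
  have z0 : ev P0 X = 0 := tendsto_nhds_unique_of_eventuallyEq (ev_t TP f1) tendsto_const_nhds
    (hr.mono fun _ a => a.2.2.2.2)
  have ps : ∀ w, dot n1 w < 0 → ∀ᶠ t in 𝓝[>] (0:ℝ), 0 ≤ ev P0 (X + t • -w) := fun w hw => by
    filter_upwards [b2 (-w) (by rw [dot_neg, ← neg_dot]; exact o1 w hw),
      (t0 X (-w)).eventually (h.oB.mem_nhds X1)] with t a m
    refine ge_of_tendsto (ev_t TP tendsto_const_nhds) ?_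
    filter_upwards [hr, (T _ m p1 f3).eventually_lt (T _ m F1 f2) a,
      f3.eventually (h.oB.mem_nhds p1)] with i a b c
    exact ((a.2.2.2.1 _ m).2.1 ((fl_le h.toQM (h.BM m) (h.BM c) rfl).trans_lt b)).le
  have ng : ∀ Z ∈ B, d Z F < fl M d l0 p Z → ev P0 Z ≤ 0 := fun Z m q => by
    obtain ⟨a, q1, q2⟩ := exists_between q
    refine le_of_tendsto (ev_t TP tendsto_const_nhds) ?_
    filter_upwards [hr, (T _ m F1 f2).eventually (gt_mem_nhds q1),
      h.fl_lsc Tl f3 tendsto_const_nhds p1 m q2] with i a b c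
    exact ((a.2.2.2.1 _ m).1 (b.trans c)).le
  have n0 : gr P0 X ≠ 0 := fun z => by
    have gF : d F F - fl M d l0 p F < 0 := by
      obtain ⟨Y, hY, e1, f⟩ := h.ft l0 p p1 _ F1
      rw [f, h.refl F (h.BM F1)]
      linarith [h.toQM.pos (h.BM F1) (h.KM hY) (by rintro rfl; exact h.off hX hF hp e n s0 e1)]
    have := qz (D := P0.2.2) (u := F - X) (by
      have T : Tendsto (fun u => X + u) (𝓝 (F - X)) (𝓝 F) := by
        simpa using (continuous_const_add X).tendsto (F - X)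
      filter_upwards [T.eventually (h.oB.mem_nhds F1), T.eventually
        (((h.gc (l := l0) p1 F1).continuousAt (h.oB.mem_nhds F1)).eventually (gt_mem_nhds gF)),
        (by fun_prop : Continuous (dot n1)).continuousAt.eventually (gt_mem_nhds (a := 0)
          (by rw [← neg_sub, dot_neg]; linarith))] with u a b c
      have k := ng _ a (by linarith)
      obtain ⟨t, k2, t1⟩ := ((ps u c).and self_mem_nhdsWithin).exists
      have e1 := ev_add P0 X u 1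
      rw [one_smul] at e1
      rw [← neg_one_smul ℝ u, smul_smul, ev_add] at k2
      rw [e1] at k
      simp only [z, z0, dot, Prod.fst_zero, Prod.snd_zero] at k k2
      nlinarith [mul_pos t1 t1])
    obtain ⟨c, l, q⟩ := P0
    simp only at this
    subst this
    simp only [gr, ev, dot, bf, Prod.ext_iff] at z z0
    simp at z z0
    exact P1 (by simp [Prod.ext_iff, z.1, z.2] at z0 ⊢; exact z0)
  have g0 := lin n0 (fun w hw => by
    have := gnn z0 (ps w hw)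
    rw [dot_neg] at this; linarith) hw
  have Tg := (dot_tendsto (((c_gr continuous_fst continuous_snd).tendsto (P0, X)).comp
    (TP.prodMk_nhds f1)) f4).add (f6.mul (bf_tendsto
      ((continuous_snd.snd.tendsto P0).comp TP) f4 f4))
  have f7 : Tendsto (fun q : V × V × V × V × ℝ => q.1 + q.2.2.2.2 • q.2.2.2.1) U (𝓝 X) := by
    simpa using f1.add (f6.smul f4)
  obtain ⟨q, ⟨⟨⟨⟨⟨a, b⟩, c⟩, f⟩, g⟩, k⟩⟩ := (((((hr.and hn).and (Tg.eventually (gt_mem_nhds (a := 0)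
    (by simpa using g0)))).and (f7.eventually (h.oB.mem_nhds X1))).and
    (f3.eventually (h.oB.mem_nhds p1))).and (f5.eventually self_mem_nhdsWithin)).exists
  refine b fun _ => (a.2.2.2.1.lt f ?_).trans_le (fl_le h.toQM (h.BM f) (h.BM g) rfl)
  rw [ev_add, a.2.2.2.2]
  simp only [Function.comp] at c
  nlinarith [mul_neg_of_pos_of_neg k c]

end Pool.Agent.H.MP_ec5bc9_gt
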