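import Pool.Agent.H.MP_ec5bc9_gt.C

set_option autoImplicit false

namespace Pool.Agent.H.MP_ec5bc9_gt

open Set Filter Topology Pool.Agent.H.MP_594704_gt Pool.Agent.H.MP_deb346_gt

section
variable {ι : Type} {l : Filter ι} {A B : ι → V → ℝ} {a b : V}

def Mo (l : Filter ι) (A : ι → V → ℝ) (a : V) : Prop := ∀ ⦃z z' : ι → V⦄ ⦃z0 z0' : V⦄,
  Tendsto z l (𝓝 z0) → Tendsto z' l (𝓝 z0') → dot a z0 < dot a z0' → ∀ᶠ i in l, A i (z i) < A i (z' i)

def Cm (l : Filter ι) (A B : ι → V → ℝ) (a b : V) : Prop := ∀ ⦃z1 z2 z3 z4 : ι → V⦄ ⦃y1 y2 y3 y4 : V⦄,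
  Tendsto z1 l (𝓝 y1) → Tendsto z2 l (𝓝 y2) → Tendsto z3 l (𝓝 y3) → Tendsto z4 l (𝓝 y4) →
  dot a y1 - dot a y2 < dot b y3 - dot b y4 →
    ∀ᶠ i in l, A i (z1 i) - A i (z2 i) < B i (z3 i) - B i (z4 i)

theorem web (hA : Mo l A a) (hB : Mo l B b) (hC : Mo l (fun i z => A i z + B i z) (a + b))
    (ex : ∀ s t, ∃ z, dot a z = s ∧ dot b z = t) : Cm l A B a b := by
  intro z1 z2 z3 z4 y1 y2 y3 y4 t1 t2 t3 t4 lt
  set η := (dot b y3 - dot b y4 - (dot a y1 - dot a y2)) / 5 with hη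
  obtain ⟨p, p1, p2⟩ := ex (dot a y1 + η) (dot b y4 + η)
  obtain ⟨q, q1, q2⟩ := ex (dot a y2 - η) (dot b y3 - η)
  have c : ∀ y : V, Tendsto (fun _ : ι => y) l (𝓝 y) := fun _ => tendsto_const_nhds
  filter_upwards [hA t1 (c p) (by linarith), hB t4 (c p) (by linarith), hA (c q) t2 (by linarith),
    hB (c q) t3 (by linarith), hC (c p) (c q) (by
      simp only [dot, Prod.fst_add, Prod.snd_add] at *; linarith)] with i k1 k2 k3 k4 k5
  linarith

theorem web2 (hA : Mo l A a) (hB : Mo l B b) (hC : Mo l (fun i z => A i z + B i z) (a + b))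
    (ex : ∀ s t, ∃ z, dot a z = s ∧ dot b z = t) : Cm l A A a a := by
  intro z1 z2 z3 z4 y1 y2 y3 y4 t1 t2 t3 t4 lt
  obtain ⟨m, m1, m2⟩ := exists_between lt
  obtain ⟨s, -, s2⟩ := ex 0 m
  have c : ∀ y : V, Tendsto (fun _ : ι => y) l (𝓝 y) := fun _ => tendsto_const_nhds
  have z : dot b 0 = 0 := by simp [dot]
  filter_upwards [web hA hB hC ex t1 t2 (c s) (c 0) (by linarith),
    web hB hA (by simpa only [add_comm] using hC) (fun s t => (ex t s).imp fun _ a => a.symm)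
      (c s) (c 0) t3 t4 (by linarith)] with i k1 k2
  linarith

theorem Cm.lin (h : Cm l A A a a) (ex : ∀ s, ∃ z, dot a z = s) {z1 z2 z3 z4 : ι → V}
    {y1 y2 y3 y4 : V} (t1 : Tendsto z1 l (𝓝 y1)) (t2 : Tendsto z2 l (𝓝 y2))
    (t3 : Tendsto z3 l (𝓝 y3)) (t4 : Tendsto z4 l (𝓝 y4)) {θ : ℝ} (θ0 : 0 < θ)
    (p : 0 < dot a y3 - dot a y4) (lt : θ * (dot a y3 - dot a y4) < dot a y1 - dot a y2) :
    ∀ᶠ i in l, θ * (A i (z3 i) - A i (z4 i)) ≤ A i (z1 i) - A i (z2 i) := by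
  have c : ∀ y : V, Tendsto (fun _ : ι => y) l (𝓝 y) := fun _ => tendsto_const_nhds
  obtain ⟨r, r1, r2⟩ := exists_rat_btwn ((lt_div_iff₀ p).2 lt)
  have r0 : 0 ≤ r.num := Rat.num_nonneg.2 (by exact_mod_cast (θ0.trans r1).le)
  obtain ⟨k, hk⟩ := Int.eq_ofNat_of_zero_le r0
  have n0 : (0:ℝ) < r.den := by exact_mod_cast r.den_pos
  rw [Rat.cast_def, hk, Int.cast_natCast] at r1 r2
  generalize r.den = n at *
  rw [lt_div_iff₀ n0] at r1
  rw [div_lt_div_iff₀ n0 p] at r2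
  set η := ((dot a y1 - dot a y2) * n - k * (dot a y3 - dot a y4)) / (n + k + 1) with hη
  have η0 : 0 < η := div_pos (by linarith) (by positivity)
  have eη : η * (n + k + 1) = (dot a y1 - dot a y2) * n - k * (dot a y3 - dot a y4) := by
    rw [hη]; field_simp
  obtain ⟨s, hs⟩ := ex (dot a y1 - dot a y2 - η)
  obtain ⟨s', hs'⟩ := ex (dot a y3 - dot a y4 + η)
  have T1 : ∀ m : ℕ, ∀ᶠ i in l, A i ((m:ℝ) • s) - A i 0 ≤ m * (A i (z1 i) - A i (z2 i)) := fun m => by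
    induction m with
    | zero => simp
    | succ m ih =>
      filter_upwards [ih, h (c (((m + 1 : ℕ):ℝ) • s)) (c ((m:ℝ) • s)) t1 t2 (by
        simp only [dot_smul]; push_cast; linarith)] with i k1 k2
      push_cast at k2 ⊢; linarith
  have T2 : ∀ m : ℕ, ∀ᶠ i in l, m * (A i (z3 i) - A i (z4 i)) ≤ A i ((m:ℝ) • s') - A i 0 := fun m => by
    induction m with
    | zero => simp
    | succ m ih =>
      filter_upwards [ih, h t3 t4 (c (((m + 1 : ℕ):ℝ) • s')) (c ((m:ℝ) • s')) (by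
        simp only [dot_smul]; push_cast; linarith)] with i k1 k2
      push_cast at k2 ⊢; linarith
  filter_upwards [T1 n, T2 k, h (c ((k:ℝ) • s')) (c 0) (c ((n:ℝ) • s)) (c 0) (by
    simp only [dot_smul, hs, hs']; nlinarith), h (c 0) (c 0) t3 t4 (by linarith)] with i k1 k2 k3 k4
  refine le_of_mul_le_mul_left ?_ n0
  nlinarith [mul_lt_mul_of_pos_right r1 (show 0 < A i (z3 i) - A i (z4 i) by linarith)]

theorem Mo.smul (h : Mo l A a) {t : ℝ} (t0 : 0 < t) : Mo l A (t • a) := fun _ _ _ _ a b c => h a b (by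
  simp only [dot, Prod.smul_fst, Prod.smul_snd, smul_eq_mul] at c ⊢
  exact lt_of_mul_lt_mul_left (by linarith) t0.le)

theorem Mo.neg (h : Mo l A a) : Mo l (fun i z => -A i z) (-a) := fun _ _ _ _ a b c =>
  (h b a (by rw [neg_dot, neg_dot] at c; linarith)).mono fun _ q => neg_lt_neg q

end

variable {M B K B' : Set V} {d : V → V → ℝ}

theorem W2.mon (h : W2 M d B K B') {X F G : V} (hX : X ∈ B') (hF : F ∈ B') (hG : G ∈ B')
    (g0 : 0 < d X G) (lt : d X G < d X F) (n : ∀ τ : ℝ, 0 < τ → X + τ • (F - X) ≠ G) :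
    ∃ n, 0 < dot n (X - F) ∧ dot n (X - G) < 0 ∧ ∀ {ι : Type} {l : Filter ι} {Y F' G' : ι → V}
      {ε : ι → ℝ}, Tendsto Y l (𝓝 X) → Tendsto F' l (𝓝 F) → Tendsto G' l (𝓝 G) →
      Tendsto ε l (𝓝[>] 0) →
        Mo l (fun i z => d (Y i + ε i • z) (F' i) - d (Y i + ε i • z) (G' i)) n := by
  have iv : ∀ X ∈ M, ∀ F ∈ M, ∀ r, 0 < r → r < d X F → ∃ τ ∈ Ioo (0:ℝ) 1,
      d X (X + τ • (F - X)) = r := fun X a F b r r0 r1 =>
    intermediate_value_Ioo zero_le_one (h.toQM.arc_cont (v := F - X) (T := 1) a a (by simpa using b))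
      (show r ∈ _ from ⟨by simpa [h.refl X a] using r0, by simpa using r1⟩)
  have X1 := h.BM (h.sub hX)
  have F1 := h.BM (h.sub hF)
  have G1 := h.BM (h.sub hG)
  obtain ⟨τ0, hτ, e0⟩ := iv X X1 F F1 _ g0 lt
  obtain ⟨m, m1, m2, m3⟩ := h.cone hX (h.cB'.add_smul_sub_mem hX hF (Ioo_subset_Icc_self hτ)) hG e0
    (n τ0 hτ.1)
  refine ⟨m, ?_, m2, fun {ι l Y F' G' ε} tY tF tG tε z z' z0 z0' tz tz' q => ?_⟩
  · rw [show X - (X + τ0 • (F - X)) = τ0 • (X - F) by module, dot_smul] at m1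
    exact (pos_iff_pos_of_mul_pos m1).1 hτ.1
  have e' := tε.mono_right nhdsWithin_le_nhds
  have t1 : Tendsto (fun i => Y i + ε i • z' i) l (𝓝 X) := by simpa using tY.add (e'.smul tz')
  have t2 : Tendsto (fun i => Y i + ε i • z i) l (𝓝 X) := by simpa using tY.add (e'.smul tz)
  set Z := fun i => Y i + ε i • z' i with hZ
  have tg := h.toQM.tendsto X1 G1 t1 tG
  have : ∀ᶠ i in l, ∃ τ, τ ∈ Ioo (0:ℝ) 1 ∧ d (Z i) (Z i + τ • (F' i - Z i)) = d (Z i) (G' i) := by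
    filter_upwards [h.toQM.ev X1 t1, h.toQM.ev F1 tF, tg.eventually (lt_mem_nhds g0),
      tg.eventually_lt (h.toQM.tendsto X1 F1 t1 tF) lt] with i a b c e using iv _ a _ b _ c e
  obtain ⟨τ, hτ'⟩ := Filter.skolem.1 this
  have v0 : F - X ≠ 0 := fun z => by
    rw [sub_eq_zero.1 z, h.refl X X1] at lt; linarith
  have ts : ∀ s ∈ Icc (0:ℝ) 1, Tendsto (fun i => d (Z i) (Z i + s • (F' i - Z i))) l
      (𝓝 (d X (X + s • (F - X)))) := fun s hs =>
    h.toQM.tendsto X1 (h.cv.add_smul_sub_mem X1 F1 hs) t1 (t1.add ((tF.sub t1).const_smul s))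
  have mo : ∀ X ∈ M, ∀ F ∈ M, ∀ s t : ℝ, 0 ≤ s → s ≤ t → t ≤ 1 →
      d X (X + s • (F - X)) ≤ d X (X + t • (F - X)) := fun X a F b s t s0 st t1 => by
    have mt := h.cv.add_smul_sub_mem a b ⟨s0.trans st, t1⟩
    linarith [h.toQM.add0 a mt s0 st, h.toQM.nonneg (h.toQM.mem0 a mt s0 st) mt]
  have tτ : Tendsto τ l (𝓝 τ0) := by
    refine tendsto_order.2 ⟨fun s hs => ?_, fun s hs => ?_⟩
    · obtain ⟨s', a, b⟩ := exists_between (max_lt hs hτ.1)
      have s0 := (le_max_right _ _).trans a.le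
      filter_upwards [hτ', h.toQM.ev X1 t1, h.toQM.ev F1 tF, (ts s' ⟨s0, by linarith [hτ.2]⟩).eventually_lt
        tg (e0 ▸ h.toQM.lt0 X1 v0 (h.cv.add_smul_sub_mem X1 F1 (Ioo_subset_Icc_self hτ)) s0 b)]
        with i k1 k2 k3 k4
      by_contra hn
      linarith [mo _ k2 _ k3 (τ i) s' k1.1.1.le (by linarith [le_max_left s 0]) (by linarith [hτ.2]), k1.2]
    · obtain ⟨s', a, b⟩ := exists_between (lt_min hs hτ.2)
      have s0 := b.le.trans (min_le_right _ _)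
      filter_upwards [hτ', h.toQM.ev X1 t1, h.toQM.ev F1 tF, tg.eventually_lt
        (ts s' ⟨by linarith [hτ.1], s0⟩) (e0 ▸ h.toQM.lt0 X1 v0
          (h.cv.add_smul_sub_mem X1 F1 ⟨by linarith [hτ.1], s0⟩) hτ.1.le a)] with i k1 k2 k3 k4
      by_contra hn
      linarith [mo _ k2 _ k3 s' (τ i) (by linarith [hτ.1]) (by linarith [min_le_left s 1]) k1.1.2.le,
        k1.2]
  filter_upwards [hτ', h.toQM.ev X1 t1, h.toQM.ev X1 t2, h.toQM.ev F1 tF,
    (t1.prodMk ((t1.add (tτ.smul (tF.sub t1))).prodMk (tG.prodMk ((tz.sub tz').prodMk tε)))).eventually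
      (m3 (z0 - z0') (by rw [dot_sub]; linarith))] with i k1 k2 k3 k4 k5
  have k6 := k5 k1.2
  rw [show Z i + ε i • (z i - z' i) = Y i + ε i • z i by simp only [hZ]; module] at k6
  have a := h.toQM.add0 (v := F' i - Z i) (r := 1) k2 (by simpa using k4) k1.1.1.le k1.1.2.le
  rw [one_smul, add_sub_cancel] at a
  linarith [h.tri _ k3 _ (h.cv.add_smul_sub_mem k2 k4 (Ioo_subset_Icc_self k1.1)) _ k4, k1.2]

theorem QM.mono (h : QM M d) {S : Set V} (o : IsOpen S) (c : Convex ℝ S) (s : S ⊆ M) : QM S d where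
  op := o
  cv := c
  refl := fun x a => h.refl x (s a)
  symm := fun x a y b => h.symm x (s a) y (s b)
  sep := fun x a y b => h.sep x (s a) y (s b)
  tri := fun x a y b z e => h.tri x (s a) y (s b) z (s e)
  cont := h.cont.mono (prod_mono s s)
  seg := fun x a y b => h.seg x (s a) y (s b)

theorem W2.q (h : W2 M d B K B') : QM B' d :=
  QM.mono h.toQM h.oB' h.cB' (h.sub.trans h.BM)

def LB (d : V → V → ℝ) (X u c : V) : Prop := ∀ ⦃ι : Type⦄ ⦃l : Filter ι⦄ ⦃Y u' z1 z2 : ι → V⦄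
  ⦃ε : ι → ℝ⦄ ⦃y1 y2 : V⦄ ⦃θ : ℝ⦄, Tendsto Y l (𝓝 X) → Tendsto ε l (𝓝[>] 0) → Tendsto u' l (𝓝 u) →
    Tendsto z1 l (𝓝 y1) → Tendsto z2 l (𝓝 y2) → θ < dot c y1 - dot c y2 →
      ∀ᶠ i in l, θ * d (Y i) (Y i + ε i • u' i) ≤ d (Y i + ε i • z1 i) (Y i + ε i • z2 i)

theorem W2.lb (h : W2 M d B K B') {X u : V} (hX : X ∈ B') (hu : u ≠ 0) :
    ∃ c b, dot c u = 1 ∧ dot b (-c.2, c.1) ≠ 0 ∧ LB d X u c ∧ LB d X u b := by
  have q := h.q
  obtain ⟨ρ, r0, g⟩ := q.region hX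
  have g := g.self_of_nhds
  obtain ⟨t1, a1, a2, a3⟩ := g.2.2 (-u) (neg_ne_zero.2 hu)
  obtain ⟨t3, c1, c2, c3⟩ := (q.gd_mono g (r' := ρ / 3) (by linarith) (by linarith)).2.2 u hu
  have nn : ∀ {x y : V} {s t : ℝ}, 0 < s → 0 < t → (∃ m, dot m x ≤ 0 ∧ 0 < dot m y) →
      ∀ τ : ℝ, 0 < τ → X + τ • (X + s • x - X) ≠ X + t • y := by
    intro x y s t s0 t0 ⟨m, m1, m2⟩ τ τ0 e
    have := congrArg (dot m) (add_left_cancel e)
    rw [add_sub_cancel_left, dot_smul, dot_smul, dot_smul] at this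
    nlinarith [mul_pos t0 m2, mul_nonneg (mul_pos τ0 s0).le (neg_nonneg.2 m1)]
  have up := dot_self hu
  obtain ⟨c, k1, -, k3⟩ := h.mon hX a2 c2 (by linarith) (by linarith)
    (nn a1 c1 ⟨u, by rw [dot_neg]; linarith, up⟩)
  have e1 : ∀ (m x : V) (s : ℝ), dot m (X - (X + s • x)) = -(s * dot m x) := fun m x s => by
    rw [sub_add_cancel_left, dot_neg, dot_smul]
  rw [e1, dot_neg] at k1
  have cu : 0 < dot c u := by nlinarith
  set v : V := (-c.2, c.1) with hv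
  have cv : dot c v = 0 := by simp only [dot, hv]; ring
  have c0 : c ≠ 0 := by rintro rfl; simp [dot] at cu
  have v0 : v ≠ 0 := fun z => c0 (by simpa [hv, Prod.ext_iff, and_comm] using z)
  obtain ⟨t2, b1, b2, b3⟩ := (q.gd_mono g (r' := 2 * ρ / 3) (by linarith) (by linarith)).2.2 (-v)
    (neg_ne_zero.2 v0)
  obtain ⟨a, j1, j2, j3⟩ := h.mon hX a2 b2 (by linarith) (by linarith)
    (nn a1 b1 ⟨(u.2, -u.1), by simp only [dot, Prod.fst_neg, Prod.snd_neg]; linarith, by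
      simp only [dot, hv, Prod.fst_neg, Prod.snd_neg] at cu ⊢; linarith⟩)
  obtain ⟨b, i1, i2, i3⟩ := h.mon hX b2 c2 (by linarith) (by linarith)
    (nn b1 c1 ⟨c, by rw [dot_neg, cv]; simp, cu⟩)
  rw [e1] at j1 j2 i1 i2
  rw [dot_neg] at j1 j2 i1
  have au : 0 < dot a u := by nlinarith
  have av : dot a v < 0 := by nlinarith
  have bu : 0 < dot b u := by nlinarith
  have bv : 0 < dot b v := by nlinarith
  have D0 : 0 < dot a u * dot b v - dot a v * dot b u := by nlinarith [mul_pos au bv]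
  set α := dot c u * dot b v / (dot a u * dot b v - dot a v * dot b u) with hα
  set β := dot c u * -dot a v / (dot a u * dot b v - dot a v * dot b u) with hβ
  have α0 : 0 < α := by positivity
  have β0 : 0 < β := div_pos (mul_pos cu (neg_pos.2 av)) D0
  have w1 : α * dot a u + β * dot b u = dot c u := by
    rw [hα, hβ, div_mul_eq_mul_div, div_mul_eq_mul_div, ← add_div, div_eq_iff D0.ne']; ring
  have w2 : α * dot a v + β * dot b v = 0 := by rw [hα, hβ]; field_simp; ring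
  have ea : α • a = c + -(β • b) := by
    clear_value α β
    simp only [dot, hv] at w1 w2 cu
    ext <;> simp <;> refine mul_left_cancel₀ cu.ne' ?_
    · linear_combination c.1 * w1 - u.2 * w2
    · linear_combination c.2 * w1 + u.1 * w2
  have sd : ∀ (t : ℝ) (m x : V), dot (t • m) x = t * dot m x := fun t m x => by
    simp only [dot, Prod.smul_fst, Prod.smul_snd, smul_eq_mul]; ring
  have ex : ∀ s t, ∃ z, dot c z = s ∧ dot (-(β • b)) z = t := fun s t =>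
    ⟨(s / dot c u) • u + ((-t - s / dot c u * (β * dot b u)) / (β * dot b v)) • v, by
      rw [dot_add, dot_smul, dot_smul, cv]; field_simp; ring, by
      rw [neg_dot, sd, dot_add, dot_smul, dot_smul]; field_simp; ring⟩
  have X1 := h.BM (h.sub hX)
  have key : ∀ {ι : Type} {l : Filter ι} {Y u' z1 z2 : ι → V} {ε : ι → ℝ} {y1 y2 : V} {θ : ℝ},
      Tendsto Y l (𝓝 X) → Tendsto ε l (𝓝[>] 0) → Tendsto u' l (𝓝 u) → Tendsto z1 l (𝓝 y1) →
      Tendsto z2 l (𝓝 y2) → θ * dot c u < dot c y1 - dot c y2 ∨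
        θ * dot c u < dot (-(β • b)) y1 - dot (-(β • b)) y2 →
      ∀ᶠ i in l, θ * d (Y i) (Y i + ε i • u' i) ≤ d (Y i + ε i • z1 i) (Y i + ε i • z2 i) := by
    intro ι l Y u' z1 z2 ε y1 y2 θ tY tε tu t1' t2' lt
    have e' := tε.mono_right nhdsWithin_le_nhds
    have tz : ∀ {z : ι → V} {y : V}, Tendsto z l (𝓝 y) → ∀ᶠ i in l, Y i + ε i • z i ∈ B' :=
      fun t => q.ev hX (by simpa using tY.add (e'.smul t))
    rcases le_or_gt θ 0 with θ0 | θ0
    · filter_upwards [q.ev hX tY, tz tu, tz t1', tz t2'] with i a b c e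
      exact (mul_nonpos_of_nonpos_of_nonneg θ0 (q.nonneg a b)).trans (q.nonneg c e)
    have f1 := tY.add (tu.neg.const_smul t1)
    have f3 := tY.add (tu.const_smul t3)
    have f2 : Tendsto (fun _ : ι => X + t2 • -v) l (𝓝 _) := tendsto_const_nhds
    have hC := k3 tY f1 f3 tε
    have hB := Mo.neg (Mo.smul (i3 tY f2 f3 tε) β0)
    have hA := Mo.smul (j3 tY f1 f2 tε) α0
    rw [ea] at hA
    have hA' : Mo l (fun i z => (d (Y i + ε i • z) (Y i + t1 • -u' i) - d (Y i + ε i • z)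
        (Y i + t3 • u' i)) + -(d (Y i + ε i • z) (X + t2 • -v) - d (Y i + ε i • z) (Y i + t3 • u' i)))
        (c + -(β • b)) := fun _ _ _ _ a b c => (hA a b c).mono fun _ _ => by linarith
    have z0 : dot c 0 = 0 := by simp [dot]
    have L := fun {z1 z2 : ι → V} {y1 y2 : V} (t1 : Tendsto z1 l (𝓝 y1)) (t2 : Tendsto z2 l (𝓝 y2))
      (lt : θ * dot c u < dot c y1 - dot c y2) => Cm.lin (web2 hC hB hA' ex)
        (fun s => (ex s 0).imp fun _ a => a.1) t1 t2 tu (tendsto_const_nhds (x := (0:V))) θ0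
        (by linarith) (by rwa [z0, sub_zero])
    have E : ∀ᶠ i in l, d (Y i + ε i • u' i) (Y i + t1 • -u' i) - d (Y i + ε i • u' i) (Y i + t3 • u' i)
        - (d (Y i + ε i • 0) (Y i + t1 • -u' i) - d (Y i + ε i • 0) (Y i + t3 • u' i)) =
        2 * d (Y i) (Y i + ε i • u' i) := by
      filter_upwards [q.ev hX tY, q.ev a2 f1, q.ev c2 f3, tz tu, tε.eventually (Ioo_mem_nhdsGT c1)]
        with i m0 m1 m3 m4 e
      rw [smul_zero, add_zero, q.symm _ m4 _ m1, q.symm _ m0 _ m1]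
      rw [smul_neg, ← neg_smul] at m1 ⊢
      have := q.add_line (q := 0) m1 m4 (by linarith) e.1.le
      rw [zero_smul, add_zero] at this
      linarith [q.add0 m0 m3 e.1.le e.2.le]
    have lip : ∀ P ∈ B', ∀ Q ∈ B', ∀ F ∈ B', d P F - d Q F ≤ d P Q ∧ d Q F - d P F ≤ d P Q :=
      fun P a Q b F c => ⟨by linarith [q.tri P a Q b F c], by
        linarith [q.tri Q b P a F c, q.symm P a Q b]⟩
    rcases lt with lt | lt
    · filter_upwards [L t1' t2' lt, E, tz t1', tz t2', q.ev a2 f1, q.ev c2 f3] with i k e m1 m2 m3 m4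
      rw [e] at k
      linarith [(lip _ m1 _ m2 _ m3).1, (lip _ m1 _ m2 _ m4).2]
    obtain ⟨η, η1, η2⟩ := exists_between lt
    obtain ⟨s, s1, -⟩ := ex η 0
    have cs : Tendsto (fun _ : ι => s) l (𝓝 s) := tendsto_const_nhds
    have c0 : Tendsto (fun _ : ι => (0:V)) l (𝓝 0) := tendsto_const_nhds
    filter_upwards [L cs c0 (by linarith), web hC hB hA' ex cs c0 t1' t2' (by linarith), E, tz t1',
      tz t2', q.ev c2 f3] with i k k' e m1 m2 m4
    rw [e] at k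
    linarith [(lip _ m1 _ m2 _ b2).2, (lip _ m1 _ m2 _ m4).1]
  have ci := inv_pos.2 cu
  refine ⟨(dot c u)⁻¹ • c, (dot c u)⁻¹ • -(β • b), by rw [sd]; field_simp, ?_,
    fun _ _ _ _ _ _ _ _ _ _ a b c e f lt => key a b c e f (Or.inl ?_),
    fun _ _ _ _ _ _ _ _ _ _ a b c e f lt => key a b c e f (Or.inr ?_)⟩
  · rw [show (-((dot c u)⁻¹ • c).2, ((dot c u)⁻¹ • c).1) = (dot c u)⁻¹ • v by simp [hv], sd, dot_smul,
      neg_dot, sd]
    exact mul_ne_zero ci.ne' (mul_ne_zero ci.ne' (neg_ne_zero.2 (mul_pos β0 bv).ne'))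
  · rwa [sd, sd, ← mul_sub, ← div_eq_inv_mul, lt_div_iff₀ cu] at lt
  · rwa [sd, sd, ← mul_sub, ← div_eq_inv_mul, lt_div_iff₀ cu] at lt

end Pool.Agent.H.MP_ec5bc9_gt
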