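import Pool.Agent.H.MP_ec5bc9_gt.D

set_option autoImplicit false

namespace Pool.Agent.H.MP_ec5bc9_gt

open Set Filter Topology Pool.Agent.H.MP_594704_gt Pool.Agent.H.MP_deb346_gt

variable {M B K B' : Set V} {d : V → V → ℝ} {ι : Type} {l : Filter ι} {Y z1 z2 u' : ι → V} {ε : ι → ℝ}
  {X u c y1 y2 : V}

theorem tz (tY : Tendsto Y l (𝓝 X)) (tε : Tendsto ε l (𝓝[>] 0)) (t : Tendsto z1 l (𝓝 y1)) :
    Tendsto (fun i => Y i + ε i • z1 i) l (𝓝 X) := by
  simpa using tY.add ((tε.mono_right nhdsWithin_le_nhds).smul t)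

theorem LB.abs (L : LB d X u c) (q : QM M d) (hX : X ∈ M) {θ : ℝ} (tY : Tendsto Y l (𝓝 X))
    (tε : Tendsto ε l (𝓝[>] 0)) (tu : Tendsto u' l (𝓝 u)) (t1 : Tendsto z1 l (𝓝 y1))
    (t2 : Tendsto z2 l (𝓝 y2)) (lt : θ < |dot c (y1 - y2)|) :
    ∀ᶠ i in l, θ * d (Y i) (Y i + ε i • u' i) ≤ d (Y i + ε i • z1 i) (Y i + ε i • z2 i) := by
  rw [dot_sub] at lt
  rcases lt_abs.1 lt with lt | lt
  · exact L tY tε tu t1 t2 lt
  · filter_upwards [L tY tε tu t2 t1 (show θ < _ by linarith), q.ev hX (tz tY tε t1), q.ev hX (tz tY tε t2)]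
      with i a b e
    rwa [q.symm _ b _ e]

theorem dpos (q : QM M d) (hX : X ∈ M) (tY : Tendsto Y l (𝓝 X)) (tε : Tendsto ε l (𝓝[>] 0))
    (tu : Tendsto u' l (𝓝 u)) (hu : u ≠ 0) : ∀ᶠ i in l, 0 < d (Y i) (Y i + ε i • u' i) := by
  filter_upwards [q.ev hX tY, q.ev hX (tz tY tε tu), tε.eventually self_mem_nhdsWithin,
    tu.eventually_ne hu] with i a b e n
  exact q.pos a b (by simp [n, ne_of_gt e])

theorem W2.rat0 (h : W2 M d B K B') (hX : X ∈ B') (tY : Tendsto Y l (𝓝 X))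
    (tε : Tendsto ε l (𝓝[>] 0)) (hu : u ≠ 0) (t1 : Tendsto z1 l (𝓝 y1)) (t2 : Tendsto z2 l (𝓝 y2))
    {s : ℝ} (s0 : s ≠ 0) (e : y1 - y2 = s • u) : Tendsto (fun i =>
      d (Y i + ε i • z1 i) (Y i + ε i • z2 i) / d (Y i) (Y i + ε i • u)) l (𝓝 |s|) := by
  have q := h.q
  have p := dpos q hX tY tε (tendsto_const_nhds (x := u)) hu
  refine tendsto_order.2 ⟨fun θ lt => ?_, fun θ lt => ?_⟩
  · obtain ⟨c, -, c1, -, L, -⟩ := h.lb hX hu
    obtain ⟨θ', a, b⟩ := exists_between lt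
    filter_upwards [L.abs q hX tY tε tendsto_const_nhds t1 t2 (θ := θ')
      (by rwa [e, dot_smul, c1, mul_one]), p] with i k p
    exact a.trans_le ((le_div_iff₀ p).2 k)
  obtain ⟨c, -, c1, -, L, -⟩ := h.lb hX (smul_ne_zero s0 hu)
  obtain ⟨θ', a, b⟩ := exists_between lt
  have sp := abs_pos.2 s0
  have θ0 : 0 < θ' := sp.trans a
  filter_upwards [L.abs q hX (tz tY tε t2) tε (e ▸ t1.sub t2) (t2.const_sub u) t2.neg (θ := θ'⁻¹) (by
    rw [dot_smul] at c1
    rw [show u - y2 - -y2 = u by abel, eq_inv_of_mul_eq_one_right c1, abs_inv]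
    exact inv_strictAnti₀ sp a), p, q.ev hX (tz tY tε t1), q.ev hX (tz tY tε t2), q.ev hX tY,
    q.ev hX (tz tY tε (tendsto_const_nhds (x := u)))] with i k p m1 m2 m3 m4
  rw [show Y i + ε i • z2 i + ε i • (z1 i - z2 i) = Y i + ε i • z1 i by module,
    show Y i + ε i • z2 i + ε i • (u - z2 i) = Y i + ε i • u by module,
    show Y i + ε i • z2 i + ε i • -z2 i = Y i by module, q.symm _ m2 _ m1, q.symm _ m4 _ m3,
    inv_mul_le_iff₀ θ0] at k
  exact ((div_le_iff₀ p).2 k).trans_lt b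

theorem W2.rat (h : W2 M d B K B') (hX : X ∈ B') (tY : Tendsto Y l (𝓝 X))
    (tε : Tendsto ε l (𝓝[>] 0)) (hu : u ≠ 0) (t1 : Tendsto z1 l (𝓝 y1)) (t2 : Tendsto z2 l (𝓝 y2))
    {s : ℝ} (e : y1 - y2 = s • u) : Tendsto (fun i =>
      d (Y i + ε i • z1 i) (Y i + ε i • z2 i) / d (Y i) (Y i + ε i • u)) l (𝓝 |s|) := by
  by_cases s0 : s = 0
  swap
  · exact h.rat0 hX tY tε hu t1 t2 s0 e
  have q := h.q
  have p := dpos q hX tY tε (tendsto_const_nhds (x := u)) hu
  rw [s0, zero_smul, sub_eq_zero] at e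
  rw [s0, abs_zero]
  refine tendsto_order.2 ⟨fun θ lt => ?_, fun θ lt => ?_⟩
  · filter_upwards [p, q.ev hX (tz tY tε t1), q.ev hX (tz tY tε t2)] with i p a b
    exact lt.trans_le (div_nonneg (q.nonneg a b) p.le)
  have t3 := t1.add_const ((θ / 3) • u)
  have T := (h.rat0 hX tY tε hu t1 t3 (s := -(θ / 3)) (by linarith) (by simp)).add
    (h.rat0 hX tY tε hu t3 t2 (s := θ / 3) (by linarith) (by simp [e]))
  filter_upwards [p, q.ev hX (tz tY tε t1), q.ev hX (tz tY tε t2), q.ev hX (tz tY tε t3),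
    T.eventually (gt_mem_nhds (a := θ) (by rw [abs_neg, abs_of_pos] <;> linarith))] with i p a b c k
  rw [← add_div] at k
  exact (div_le_div_of_nonneg_right (q.tri _ a _ c _ b) p.le).trans_lt k

theorem W2.l0 (h : W2 M d B K B') (hX : X ∈ B') (tY : Tendsto Y l (𝓝 X))
    (tε : Tendsto ε l (𝓝[>] 0)) (hu : u ≠ 0) {w : V} (hw : w ≠ 0) :
    ∃ δ > 0, ∀ᶠ i in l, δ * d (Y i) (Y i + ε i • u) ≤ d (Y i) (Y i + ε i • w) := by
  obtain ⟨c, b, c1, c2, L, L'⟩ := h.lb hX hu
  obtain ⟨m, m0, L⟩ : ∃ m, dot m w ≠ 0 ∧ LB d X u m := by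
    by_cases e : dot c w = 0
    · refine ⟨b, fun e' => hw ?_, L'⟩
      simp only [dot] at e e' c2
      ext <;> refine mul_left_cancel₀ c2 ?_ <;> simp only [Prod.fst_zero, Prod.snd_zero]
      · linear_combination b.2 * e - c.2 * e'
      · linear_combination c.1 * e' - b.1 * e
    · exact ⟨c, e, L⟩
  have p := abs_pos.2 m0
  refine ⟨|dot m w| / 2, by linarith, ?_⟩
  simpa using L.abs h.q hX tY tε tendsto_const_nhds (tendsto_const_nhds (x := (0:V)))
    (tendsto_const_nhds (x := w)) (θ := |dot m w| / 2) (by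
      rw [zero_sub, dot_neg, abs_neg]; linarith)

theorem alg {N : V → ℝ} {P : QP} (P0 : P ≠ 0) (c1 : dot c (1, 0) = 1)
    (sm : ∀ s w, N (s • w) = |s| * N w) (tr : ∀ a b, N (a + b) ≤ N a + N b) (one : N (1, 0) = 1)
    (ps : ∀ w, w ≠ 0 → 0 < N w) (sb : ∀ w, |dot c w| ≤ N w)
    (ha : ∀ w, |1 - dot c w| < N w → 0 ≤ ev P w) (hb : ∀ w, N w < |1 - dot c w| → ev P w ≤ 0) :
    ∃ Q : ℝ × ℝ × ℝ, ∀ w, N w ^ 2 = bf Q w w := by
  have k : ∀ u, 0 < N u + dot c u → P.1 * (N u + dot c u) ^ 2 + (N u + dot c u) * dot P.2.1 u +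
      bf P.2.2 u u = 0 := fun u p => by
    set s := (N u + dot c u)⁻¹ with hs
    have s0 : 0 < s := inv_pos.2 p
    have s1 : s * (N u + dot c u) = 1 := inv_mul_cancel₀ p.ne'
    have ct : Continuous fun t : ℝ => ev P (t • u) := by fun_prop
    have a : 0 ≤ ev P (s • u) := ge_of_tendsto ((ct.tendsto s).mono_left
      (nhdsWithin_le_nhds (s := Ioi s))) (by
        filter_upwards [self_mem_nhdsWithin] with t ht
        have ht : s < t := ht
        refine ha _ ?_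
        rw [sm, dot_smul, abs_of_pos (s0.trans ht), abs_lt]
        constructor <;> nlinarith [le_abs_self (dot c u), sb u, mul_lt_mul_of_pos_right ht p])
    have b : ev P (s • u) ≤ 0 := le_of_tendsto ((ct.tendsto s).mono_left
      (nhdsWithin_le_nhds (s := Iio s))) (by
        filter_upwards [Ioo_mem_nhdsLT s0] with t ht
        refine hb _ (lt_of_lt_of_le ?_ (le_abs_self _))
        rw [sm, dot_smul, abs_of_pos ht.1]
        nlinarith [mul_lt_mul_of_pos_right ht.2 p])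
    have e := le_antisymm b a
    rw [ev, dot_smul, bf_smul] at e
    generalize N u + dot c u = τ at *
    linear_combination τ ^ 2 * e - (τ * dot P.2.1 u + (s * τ + 1) * bf P.2.2 u u) * s1
  have ng : ∀ u, N (-u) = N u := fun u => by simpa using sm (-1) u
  have bn : ∀ u, bf P.2.2 (-u) (-u) = bf P.2.2 u u := fun u => by simp [bf]
  have k2 : ∀ u, |dot c u| < N u → 2 * P.1 * dot c u + dot P.2.1 u = 0 := fun u p => by
    rw [abs_lt] at p
    have a := k u (by linarith)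
    have b := k (-u) (by rw [ng, dot_neg]; linarith)
    rw [ng, dot_neg, dot_neg, bn] at b
    exact mul_left_cancel₀ (show 2 * N u ≠ 0 by linarith) (by linear_combination a - b)
  set v : V := (-c.2, c.1) with hv
  have cv : dot c v = 0 := by simp only [dot, hv]; ring
  have c2 : c.1 = 1 := by simpa [dot] using c1
  have vp := ps v (by simp [hv, c2])
  have a := k2 v (by rwa [cv, abs_zero])
  have b := k2 (v + (N v / 3) • (1, 0)) (by
    have := tr (v + (N v / 3) • (1, 0)) ((-(N v / 3)) • (1, 0))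
    rw [sm, one, abs_neg, abs_of_pos (by linarith), neg_smul, add_neg_cancel_right] at this
    rw [dot_add, dot_smul, cv, c1, abs_of_pos] <;> linarith)
  rw [dot_add, dot_add, dot_smul, dot_smul, c1, cv] at b
  rw [cv] at a
  have e1 : 2 * P.1 + dot P.2.1 (1, 0) = 0 :=
    mul_left_cancel₀ (show N v / 3 ≠ 0 by linarith) (by linear_combination b - a)
  have m : ∀ u, dot P.2.1 u = -2 * P.1 * dot c u := fun u => by
    simp only [dot, hv, c2] at a e1 ⊢
    linear_combination u.2 * a + (u.1 + c.2 * u.2) * e1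
  have k3 : ∀ u, P.1 * (N u ^ 2 - dot c u ^ 2) + bf P.2.2 u u = 0 := fun u => by
    by_cases u0 : u = 0
    · have := sm 0 u
      simp only [u0, smul_zero, abs_zero, zero_mul] at this
      simp [u0, this, dot, bf]
    have := ps u u0
    rcases le_total 0 (dot c u) with p | p
    · have := k u (by linarith)
      rw [m] at this; linear_combination this
    · have := k (-u) (by rw [ng, dot_neg]; linarith)
      rw [m, ng, dot_neg, bn] at this; linear_combination this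
  have n0 : P.1 ≠ 0 := fun z => P0 (by
    have q := qz (D := P.2.2) (u := 0) (Eventually.of_forall fun w => by simpa [z] using k3 w)
    have m1 := m (1, 0)
    have m2 := m (0, 1)
    simp [dot, z] at m1 m2
    exact Prod.ext z (Prod.ext (Prod.ext m1 m2) q))
  refine ⟨(c.1 ^ 2 - P.2.2.1 / P.1, c.1 * c.2 - P.2.2.2.1 / P.1, c.2 ^ 2 - P.2.2.2.2 / P.1),
    fun w => ?_⟩
  have := k3 w
  simp only [dot, bf] at this ⊢
  field_simp
  linear_combination this

theorem W2.shU (h : W2 M d B K B') (hX : X ∈ B') {U : Ultrafilter ι} (tY : Tendsto Y U (𝓝 X))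
    (tε : Tendsto ε U (𝓝[>] 0)) {g : V → V} (hg : ∀ u, u ≠ 0 → dot (g u) u = 1 ∧ LB d X u (g u)) :
    ∃ Q : ℝ × ℝ × ℝ, Q.1 = 1 ∧ (∀ w, w ≠ 0 → 0 < bf Q w w) ∧
      (∀ u, u ≠ 0 → ∀ v, bf Q u v * dot (g u) u = bf Q u u * dot (g u) v) ∧
      ∀ ⦃z1 z2 : ι → V⦄ ⦃y1 y2 : V⦄, Tendsto z1 U (𝓝 y1) → Tendsto z2 U (𝓝 y2) → Tendsto (fun i =>
        d (Y i + ε i • z1 i) (Y i + ε i • z2 i) / d (Y i) (Y i + ε i • (1, 0))) U
          (𝓝 √(bf Q (y1 - y2) (y1 - y2))) := by
  have q := h.q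
  have ct : ∀ y : V, Tendsto (fun _ : ι => y) U (𝓝 y) := fun _ => tendsto_const_nhds
  have p := fun u => dpos q hX tY tε (ct u)
  have mm := fun u => q.ev hX (tz tY tε (ct u))
  have p1 := p _ e10
  have : ∀ w : V, ∃ n, Tendsto (fun i => d (Y i) (Y i + ε i • w) / d (Y i) (Y i + ε i • (1, 0))) U
      (𝓝 n) := fun w => by
    by_cases hw : w = 0
    · refine ⟨0, tendsto_const_nhds.congr' ?_⟩
      filter_upwards [q.ev hX tY] with i a
      simp [hw, q.refl _ a]
    obtain ⟨δ, d0, k⟩ := h.l0 hX tY tε hw e10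
    refine ul_lim (a := 0) (b := δ⁻¹) ?_
    filter_upwards [k, p1, p w hw] with i a b c
    exact ⟨by positivity, by rwa [div_le_iff₀ b, le_inv_mul_iff₀ d0]⟩
  choose N hN using this
  have sc : ∀ ⦃z1 z2 : ι → V⦄ ⦃y1 y2 : V⦄, Tendsto z1 U (𝓝 y1) → Tendsto z2 U (𝓝 y2) → ∀ {w : V} {s : ℝ},
      w ≠ 0 → y1 - y2 = s • w → Tendsto (fun i => d (Y i + ε i • z1 i) (Y i + ε i • z2 i) /
        d (Y i) (Y i + ε i • (1, 0))) U (𝓝 (|s| * N w)) := fun z1 z2 y1 y2 t1 t2 w s hw e => by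
    refine ((h.rat hX tY tε hw t1 t2 e).mul (hN w)).congr' ?_
    filter_upwards [p w hw] with i a
    field_simp
  have sm0 : ∀ (s : ℝ) w, w ≠ 0 → N (s • w) = |s| * N w := fun s w hw =>
    tendsto_nhds_unique (hN _) (by
      simpa using sc (ct 0) (ct (s • w)) (s := -s) hw (by simp))
  have N0 : N 0 = 0 := by simpa using sm0 0 _ e10
  have sm : ∀ (s : ℝ) w, N (s • w) = |s| * N w := fun s w => by
    by_cases hw : w = 0
    · simp [hw, N0]
    · exact sm0 s w hw
  have two : ∀ ⦃z1 z2 : ι → V⦄ ⦃y1 y2 : V⦄, Tendsto z1 U (𝓝 y1) → Tendsto z2 U (𝓝 y2) →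
      Tendsto (fun i => d (Y i + ε i • z1 i) (Y i + ε i • z2 i) /
        d (Y i) (Y i + ε i • (1, 0))) U (𝓝 (N (y1 - y2))) := fun z1 z2 y1 y2 t1 t2 => by
    by_cases e : y1 - y2 = 0
    · simpa [e, N0] using sc t1 t2 (s := 0) e10 (by simp [e])
    · simpa using sc t1 t2 (s := 1) e (by simp)
  have tr : ∀ a b, N (a + b) ≤ N a + N b := fun a b => by
    have := le_of_tendsto_of_tendsto (two (ct (a + b)) (ct 0))
      ((two (ct (a + b)) (ct b)).add (two (ct b) (ct 0))) (by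
        filter_upwards [p1, mm (a + b), mm b, mm 0] with i p m1 m2 m3
        rw [← add_div]
        exact div_le_div_of_nonneg_right (q.tri _ m1 _ m2 _ m3) p.le)
    simpa using this
  have one : N (1, 0) = 1 := tendsto_nhds_unique (hN _) (tendsto_const_nhds.congr' (by
    filter_upwards [p1] with i p using (div_self p.ne').symm))
  have ps : ∀ w, w ≠ 0 → 0 < N w := fun w hw => by
    obtain ⟨δ, d0, k⟩ := h.l0 hX tY tε e10 hw
    refine d0.trans_le (ge_of_tendsto (hN w) ?_)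
    filter_upwards [k, p1] with i a b using (le_div_iff₀ b).2 a
  have sb : ∀ u, u ≠ 0 → ∀ w, |dot (g u) w| * N u ≤ N w := fun u hu w => by
    refine (le_div_iff₀ (ps u hu)).1 (le_of_forall_lt_imp_le_of_dense fun θ lt =>
      (le_div_iff₀ (ps u hu)).2 ?_)
    have := le_of_tendsto_of_tendsto ((hN u).const_mul θ) (two (ct w) (ct 0)) (by
      filter_upwards [(hg u hu).2.abs q hX tY tε (ct u) (ct w) (ct 0) (by rwa [sub_zero]), p1]
        with i a p
      rw [← mul_div_assoc]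
      exact div_le_div_of_nonneg_right a p.le)
    rwa [sub_zero] at this
  obtain ⟨c1, -⟩ := hg _ e10
  have sb1 := sb _ e10
  simp only [one, mul_one] at sb1
  set c := g (1, 0)
  have ep : ∀ᶠ i in U, 0 < ε i := tε.eventually self_mem_nhdsWithin
  have : ∀ᶠ i in U, ∃ P : QP, ‖P‖ = 1 ∧ ∀ w, Y i + ε i • w ∈ B →
      (d (Y i + ε i • w) (Y i) < fl M d c (Y i + ε i • (1, 0)) (Y i + ε i • w) → ev P w < 0) ∧
      (fl M d c (Y i + ε i • (1, 0)) (Y i + ε i • w) < d (Y i + ε i • w) (Y i) → 0 < ev P w) := by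
    filter_upwards [q.ev hX tY, mm (1, 0), ep, p1] with i a b e p
    obtain ⟨P, -, hP⟩ := h.cq (l := c) (h.sub b) (h.sub a) (by
      rw [dot_add, dot_smul, c1]; linarith)
    set P' : QP := (ev P (Y i), ε i • gr P (Y i), ε i ^ 2 • P.2.2)
    have e1 : ∀ w, ev P (Y i + ε i • w) = ev P' w := fun w => by
      rw [ev_add]
      simp only [P', ev, dot, bf, Prod.smul_fst, Prod.smul_snd, smul_eq_mul]; ring
    have n : P' ≠ 0 := fun z => by
      have := (hP _ (h.sub b)).2.1 (by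
        linarith [fl_le h.toQM (l := c) (h.BM (h.sub b)) (h.BM (h.sub b)) rfl, q.refl _ b,
          q.symm _ a _ b])
      rw [e1, z] at this
      simp [ev, dot, bf] at this
    have np := inv_pos.2 (norm_pos_iff.2 n)
    refine ⟨‖P'‖⁻¹ • P', norm_smul_inv_norm n, fun w m => ?_⟩
    rw [ev_smul, ← e1]
    exact ⟨fun q => mul_neg_of_pos_of_neg np ((hP _ m).1 q), fun q => mul_pos np ((hP _ m).2.1 q)⟩
  obtain ⟨P, hP⟩ := this.choice
  obtain ⟨P0, P1, TP⟩ := ul_sph (hP.mono fun _ a => a.1)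
  have ey : ∀ (w : V) i, dot c (Y i + ε i • (w + (1 - dot c w) • (1, 0))) =
      dot c (Y i + ε i • (1, 0)) := fun w i => by simp only [dot_add, dot_smul, c1]; ring
  have t0 : ∀ w, Tendsto (fun i => d (Y i + ε i • w) (Y i) / d (Y i) (Y i + ε i • (1, 0))) U
      (𝓝 (N w)) := fun w => by simpa using two (ct w) (ct 0)
  have t1 : ∀ w, Tendsto (fun i => d (Y i + ε i • w) (Y i + ε i • (w + (1 - dot c w) • (1, 0))) /
      d (Y i) (Y i + ε i • (1, 0))) U (𝓝 |1 - dot c w|) := fun w => by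
    have := two (ct w) (ct (w + (1 - dot c w) • (1, 0)))
    rwa [sub_add_cancel_left, ← neg_smul, sm, one, mul_one, abs_neg] at this
  obtain ⟨Q, hQ⟩ := alg P1 c1 sm tr one ps sb1 (fun w lt => ge_of_tendsto (ev_t TP (ct w)) (by
    filter_upwards [hP, (t1 w).eventually_lt (t0 w) lt, p1, mm w, mm (w + (1 - dot c w) • (1, 0))]
      with i a b p m1 m2
    exact ((a.2 w (h.sub m1)).2 ((fl_le h.toQM (h.BM (h.sub m1)) (h.BM (h.sub m2)) (ey w i)).trans_lt
      ((div_lt_div_iff_of_pos_right p).1 b))).le)) (fun w lt => le_of_tendsto (ev_t TP (ct w)) (by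
    suffices H : ∀ᶠ i in U, d (Y i + ε i • w) (Y i) <
        fl M d c (Y i + ε i • (1, 0)) (Y i + ε i • w) by
      filter_upwards [hP, H, mm w] with i a b m using ((a.2 w (h.sub m)).1 b).le
    by_contra hn
    set y0 := w + (1 - dot c w) • ((1, 0) : V) with hy0
    set v : V := (-c.2, c.1) with hv
    have cv : dot c v = 0 := by simp only [dot, hv]; ring
    have v0 : v ≠ 0 := by
      have c2 : c.1 = 1 := by simpa [dot] using c1
      simp [hv, c2]
    have : ∀ᶠ i in U, ∃ t : ℝ, Y i + ε i • (y0 + t • v) ∈ B ∧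
        d (Y i + ε i • w) (Y i + ε i • (y0 + t • v)) ≤ d (Y i + ε i • w) (Y i) := by
      filter_upwards [Ultrafilter.eventually_not.2 hn, q.ev hX tY, mm w, mm (1, 0), ep] with i a b m1 m2 e
      obtain ⟨Z, k1, k2, k3⟩ := h.ft c _ (h.sub m2) _ (h.sub m1)
      rw [not_lt, k3] at a
      obtain ⟨s, rfl⟩ := line_par (e := Y i + ε i • y0) v0 Z (by
        rw [← ey w i, ← hy0] at k2
        simp only [dot, hv] at k2 ⊢; linarith)
      refine ⟨s / ε i, ?_⟩
      rw [smul_add, smul_smul, mul_div_cancel₀ _ e.ne', ← add_assoc]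
      exact ⟨h.sm _ m1 _ b _ (h.KM k1) a, a⟩
    obtain ⟨t, ht⟩ := this.choice
    have vp := ps v v0
    set R := (2 * |1 - dot c w| + 1) / N v with hR
    have R0 : 0 < R := by positivity
    have big : ∀ σ : ℝ, |σ| = 1 → ¬ ∀ᶠ i in U, R < σ * t i := fun σ hσ H => by
      have σ2 : σ * σ = 1 := by rw [← abs_mul_abs_self, hσ, mul_one]
      have := le_of_tendsto_of_tendsto (two (ct w) (ct (y0 + (R * σ) • v))) ((t1 w).max (t0 w)) (by
        filter_upwards [H, ht, p1, mm w, mm y0, ep] with i a b p m1 m2 e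
        have s := seg_line (Y i + ε i • y0) (σ • v) (p := 0) (q := ε i * R) (r := ε i * (σ * t i))
          (by positivity) (by gcongr)
        rw [zero_smul, add_zero, show Y i + ε i • y0 + (ε i * (σ * t i)) • σ • v =
          Y i + ε i • (y0 + t i • v) by match_scalars <;> first | ring1 | linear_combination ε i * t i * σ2,
          show Y i + ε i • y0 + (ε i * R) • σ • v = Y i + ε i • (y0 + (R * σ) • v) by module] at s
        rw [max_div_div_right p.le]
        exact div_le_div_of_nonneg_right ((h.qc (h.sub m1) (h.sub m2) b.1 s).trans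
          (max_le_max le_rfl b.2)) p.le)
      rw [max_eq_left lt.le] at this
      have k := tr (w - (y0 + (R * σ) • v)) ((1 - dot c w) • (1, 0))
      rw [show w - (y0 + (R * σ) • v) + (1 - dot c w) • ((1, 0) : V) = (-(R * σ)) • v by
        rw [hy0]; module, sm, sm, one, abs_neg, abs_mul, hσ, abs_of_pos R0, mul_one, hR,
        div_mul_cancel₀ _ vp.ne'] at k
      linarith
    obtain ⟨t0', T⟩ := ul_lim (U := U) (f := t) (a := -R) (b := R) (by
      filter_upwards [Ultrafilter.eventually_not.2 (big 1 abs_one),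
        Ultrafilter.eventually_not.2 (big (-1) (by simp))] with i a b
      constructor <;> linarith)
    have := le_of_tendsto_of_tendsto (two (ct w) ((T.smul_const v).const_add y0)) (t0 w) (by
      filter_upwards [ht, p1] with i a p using div_le_div_of_nonneg_right a.2 p.le)
    have k := sb1 (w - (y0 + t0' • v))
    rw [show dot c (w - (y0 + t0' • v)) = -(1 - dot c w) by
      simp only [dot_sub, hy0, dot_add, dot_smul, c1, cv]; ring, abs_neg] at k
    linarith))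
  have N1 : ∀ w, 0 ≤ N w := fun w => (abs_nonneg _).trans (sb1 w)
  refine ⟨Q, by simpa [one, bf] using (hQ (1, 0)).symm, fun w hw => hQ w ▸ pow_pos (ps w hw) 2,
    fun u hu v => ?_, fun z1 z2 y1 y2 t1 t2 => by
      rw [← hQ, Real.sqrt_sq (N1 _)]; exact two t1 t2⟩
  have k : ∀ t : ℝ, 0 ≤ (bf Q v v - dot (g u) v ^ 2 * bf Q u u) * (t * t) +
      2 * (bf Q u v - bf Q u u * dot (g u) v) * t + 0 := fun t => by
    have := pow_le_pow_left₀ (mul_nonneg (abs_nonneg _) (N1 u)) (sb u hu (u + t • v)) 2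
    rw [mul_pow, sq_abs, hQ, hQ, dot_add, dot_smul, (hg u hu).1] at this
    simp only [bf, Prod.fst_add, Prod.snd_add, Prod.smul_fst, Prod.smul_snd, smul_eq_mul] at this ⊢
    linarith
  have := discrim_le_zero k
  rw [discrim] at this
  rw [(hg u hu).1]
  nlinarith [sq_nonneg (bf Q u v - bf Q u u * dot (g u) v)]

def Sh (d : V → V → ℝ) (X : V) (Q : ℝ × ℝ × ℝ) : Prop := Q.1 = 1 ∧ (∀ w, w ≠ 0 → 0 < bf Q w w) ∧
  ∀ ⦃ι : Type⦄ ⦃l : Filter ι⦄ ⦃Y z1 z2 : ι → V⦄ ⦃ε : ι → ℝ⦄ ⦃y1 y2 : V⦄, Tendsto Y l (𝓝 X) →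
    Tendsto ε l (𝓝[>] 0) → Tendsto z1 l (𝓝 y1) → Tendsto z2 l (𝓝 y2) → Tendsto (fun i =>
      d (Y i + ε i • z1 i) (Y i + ε i • z2 i) / d (Y i) (Y i + ε i • (1, 0))) l
        (𝓝 √(bf Q (y1 - y2) (y1 - y2)))

theorem W2.sh (h : W2 M d B K B') (hX : X ∈ B') : ∃ Q, Sh d X Q := by
  have : ∀ u : V, ∃ c, u ≠ 0 → dot c u = 1 ∧ LB d X u c := fun u => by
    by_cases hu : u = 0
    · exact ⟨0, fun a => absurd hu a⟩
    obtain ⟨c, -, a, -, b, -⟩ := h.lb hX hu
    exact ⟨c, fun _ => ⟨a, b⟩⟩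
  choose g hg using this
  obtain ⟨Q, a, b, c, -⟩ := h.shU (U := Ultrafilter.of (𝓝[>] (0:ℝ))) (ε := id) hX tendsto_const_nhds
    (tendsto_id.mono_left (Ultrafilter.of_le _)) hg
  refine ⟨Q, a, b, fun ι l Y z1 z2 ε y1 y2 tY tε t1 t2 => (tendsto_iff_ultrafilter _ _ _).2 fun U hU => ?_⟩
  obtain ⟨Q', a', -, c', k⟩ := h.shU hX (tY.mono_left hU) (tε.mono_left hU) hg
  rw [shape_uniq (g := g) one_pos a a' (fun u hu _ => by rw [(hg u hu).1]; exact one_pos)
    (fun u hu _ => c u hu) fun u hu _ => c' u hu]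
  exact k (t1.mono_left hU) (t2.mono_left hU)

end Pool.Agent.H.MP_ec5bc9_gt
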