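import Pool.Agent.H.MP_ec5bc9_gt.E

set_option autoImplicit false

namespace Pool.Agent.H.MP_ec5bc9_gt

open Set Filter Topology Pool.Agent.H.MP_594704_gt Pool.Agent.H.MP_deb346_gt

variable {M B K B' : Set V} {d : V → V → ℝ} {ι : Type} {l : Filter ι} {Y z1 z2 G' : ι → V} {ε : ι → ℝ}
  {X G y1 y2 : V} {Q : ℝ × ℝ × ℝ}

theorem Sh.fv0 (s : Sh d X Q) (q : QM M d) (hX : X ∈ M) (hG : G ∈ M) (n : G - X ≠ 0)
    (tY : Tendsto Y l (𝓝 X)) (tε : Tendsto ε l (𝓝[>] 0)) (tG : Tendsto G' l (𝓝 G))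
    (t1 : Tendsto z1 l (𝓝 y1)) (t2 : Tendsto z2 l (𝓝 y2)) {θ : ℝ} (lt : -cs Q (G - X) (y1 - y2) < θ) :
    ∀ᶠ i in l, (d (Y i + ε i • z1 i) (G' i) - d (Y i + ε i • z2 i) (G' i)) /
      d (Y i) (Y i + ε i • (1, 0)) < θ := by
  set v := G - X
  set u := y1 - y2 with hu
  unfold cs at lt
  have a2 := Real.sq_sqrt (s.2.1 v n).le
  have a0 := Real.sqrt_pos.2 (s.2.1 v n)
  set a := √(bf Q v v)
  set b := bf Q v u with hb
  set c := bf Q u u with hc
  have c0 : 0 ≤ c := by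
    by_cases z : u = 0
    · simp [hc, z, bf]
    · exact (s.2.1 u z).le
  set L := (c + 1) / ((θ + b / a) * a) with hL
  have η0 : 0 < θ + b / a := by linarith
  have L0 : 0 < L := by positivity
  have T3 := t2.add ((tG.sub (tz tY tε t2)).const_smul L)
  have T := (s.2.2 tY tε t1 T3).sub (s.2.2 tY tε t2 T3)
  have e1 : √(bf Q (y2 - (y2 + L • v)) (y2 - (y2 + L • v))) = L * a := by
    rw [sub_add_cancel_left, ← neg_smul, bf_smul, ← a2, ← mul_pow, Real.sqrt_sq_eq_abs, neg_mul, abs_neg,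
      abs_of_pos (by positivity)]
  have e2 : √(bf Q (y1 - (y2 + L • v)) (y1 - (y2 + L • v))) < θ + L * a := by
    have e : bf Q (y1 - (y2 + L • v)) (y1 - (y2 + L • v)) = L ^ 2 * a ^ 2 - 2 * L * b + c := by
      rw [a2, hb, hc, show y1 - (y2 + L • v) = u - L • v by rw [hu]; abel]
      simp only [bf, Prod.fst_sub, Prod.snd_sub, Prod.smul_fst, Prod.smul_snd, smul_eq_mul]; ring
    have e3 : L * a * (θ + b / a) = c + 1 := by
      rw [hL, mul_assoc, mul_comm a, div_mul_cancel₀ _ (mul_pos η0 a0).ne']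
    have e4 : a * (b / a) = b := by field_simp
    have nn := Real.sqrt_nonneg (bf Q (y1 - (y2 + L • v)) (y1 - (y2 + L • v)))
    have sq : √(bf Q (y1 - (y2 + L • v)) (y1 - (y2 + L • v))) ^ 2 = L ^ 2 * a ^ 2 - 2 * L * b + c := by
      rw [Real.sq_sqrt, e]
      by_cases z : y1 - (y2 + L • v) = 0
      · simp [z, bf]
      · exact (s.2.1 _ z).le
    generalize √(bf Q (y1 - (y2 + L • v)) (y1 - (y2 + L • v))) = r at *
    refine lt_of_mul_lt_mul_left ?_ (show 0 ≤ 2 * L * a by positivity)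
    nlinarith [sq_nonneg (r - L * a)]
  filter_upwards [T.eventually (gt_mem_nhds (a := θ) (by rw [e1]; linarith)), q.ev hX (tz tY tε t1),
    q.ev hX (tz tY tε t2), q.ev hX (tz tY tε T3), q.ev hG tG, dpos q hX tY tε tendsto_const_nhds e10,
    ((tε.mono_right nhdsWithin_le_nhds).mul_const L).eventually (gt_mem_nhds (a := 1) (by simp)),
    tε.eventually self_mem_nhdsWithin] with i k m1 m2 m3 m4 p e e0
  refine lt_of_le_of_lt ?_ k
  rw [← sub_div]
  refine div_le_div_of_nonneg_right ?_ p.le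
  have ad := q.add0 (v := G' i - (Y i + ε i • z2 i)) (r := 1) (q := ε i * L) m2 (by simpa using m4)
    (mul_pos e0 L0).le e.le
  rw [one_smul, add_sub_cancel, show Y i + ε i • z2 i + (ε i * L) • (G' i - (Y i + ε i • z2 i)) =
    Y i + ε i • (z2 i + L • (G' i - (Y i + ε i • z2 i))) by module] at ad
  linarith [q.tri _ m1 _ m3 _ m4]

theorem Sh.fv (s : Sh d X Q) (q : QM M d) (hX : X ∈ M) (hG : G ∈ M) (n : G - X ≠ 0)
    (tY : Tendsto Y l (𝓝 X)) (tε : Tendsto ε l (𝓝[>] 0)) (tG : Tendsto G' l (𝓝 G))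
    (t1 : Tendsto z1 l (𝓝 y1)) (t2 : Tendsto z2 l (𝓝 y2)) :
    Tendsto (fun i => (d (Y i + ε i • z1 i) (G' i) - d (Y i + ε i • z2 i) (G' i)) /
      d (Y i) (Y i + ε i • (1, 0))) l (𝓝 (-cs Q (G - X) (y1 - y2))) := by
  refine tendsto_order.2 ⟨fun θ lt => ?_, fun θ lt => s.fv0 q hX hG n tY tε tG t1 t2 lt⟩
  filter_upwards [s.fv0 q hX hG n tY tε tG t2 t1 (θ := -θ) (by
    have : cs Q (G - X) (y2 - y1) = -cs Q (G - X) (y1 - y2) := by
      simp only [cs, bf, Prod.fst_sub, Prod.snd_sub]; ring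
    linarith)] with i k
  rw [← neg_sub, neg_div] at k
  linarith

theorem sh_cont {Bf : V → ℝ × ℝ × ℝ} (o : IsOpen M) (hB : ∀ y ∈ M, Sh d y (Bf y)) (hX : X ∈ M) :
    ContinuousAt Bf X := by
  have k : ∀ w, Tendsto (fun y => bf (Bf y) w w) (𝓝 X) (𝓝 (bf (Bf X) w w)) := fun w => by
    have nn : ∀ y ∈ M, √(bf (Bf y) w w) ^ 2 = bf (Bf y) w w := fun y hy => Real.sq_sqrt (by
      by_cases z : w = 0
      · simp [z, bf]
      · exact ((hB y hy).2.1 w z).le)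
    have T := (hB X hX).2.2 (l := 𝓝 X ×ˢ 𝓝[>] (0:ℝ)) tendsto_fst tendsto_snd
      (tendsto_const_nhds (x := w)) (tendsto_const_nhds (x := (0:V)))
    have : Tendsto (fun y => √(bf (Bf y) w w)) (𝓝 X) (𝓝 √(bf (Bf X) w w)) := by
      rw [sub_zero, Metric.tendsto_nhds] at T
      refine Metric.tendsto_nhds.2 fun η η0 => ?_
      obtain ⟨pa, ha, pb, hb, k⟩ := eventually_prod_iff.1 (T (η / 2) (half_pos η0))
      filter_upwards [ha, o.mem_nhds hX] with y a m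
      have T' := (hB y m).2.2 (l := 𝓝[>] (0:ℝ)) tendsto_const_nhds tendsto_id
        (tendsto_const_nhds (x := w)) (tendsto_const_nhds (x := (0:V)))
      rw [sub_zero] at T'
      exact (le_of_tendsto (T'.dist tendsto_const_nhds) (hb.mono fun ε e => (k a e).le)).trans_lt
        (half_lt_self η0)
    rw [← nn X hX]
    exact (this.pow 2).congr' (Filter.mem_of_superset (o.mem_nhds hX) nn)
  have e : ∀ Q : ℝ × ℝ × ℝ, Q = (bf Q (1, 0) (1, 0), (bf Q (1, 1) (1, 1) - bf Q (1, 0) (1, 0) -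
      bf Q (0, 1) (0, 1)) / 2, bf Q (0, 1) (0, 1)) := fun Q => by ext <;> simp [bf]; ring
  rw [ContinuousAt, e (Bf X)]
  exact ((k _).prodMk_nhds (((((k _).sub (k _)).sub (k _)).div_const 2).prodMk_nhds (k _))).congr
    fun y => (e _).symm

theorem lim_of {ι : Type*} {l : Filter ι} [l.NeBot] {R : ι → ℝ}
    (H : ∀ θ > 1, ∃ a > 0, ∀ᶠ i in l, a ≤ R i ∧ R i ≤ θ * a) : ∃ a > 0, Tendsto R l (𝓝 a) := by
  obtain ⟨m, m0, hm⟩ := H 2 (by norm_num)
  obtain ⟨a, ha⟩ := cauchy_map_iff_exists_tendsto.1 (show Cauchy (map R l) from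
    Metric.cauchy_iff.2 ⟨inferInstance, fun η e0 => by
      obtain ⟨c, c0, hc⟩ := H (1 + η / (4 * m)) (by simp; positivity)
      obtain ⟨i, a, b⟩ := (hm.and hc).exists
      refine ⟨Icc c ((1 + η / (4 * m)) * c), hc, fun s hs t ht => ?_⟩
      have : η / (4 * m) * c ≤ η / 2 := by
        rw [div_mul_eq_mul_div, div_le_div_iff₀ (by positivity) two_pos]
        nlinarith [a.2, b.1]
      rw [Real.dist_eq, abs_lt]
      constructor <;> linarith [hs.1, hs.2, ht.1, ht.2]⟩)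
  exact ⟨a, m0.trans_le (ge_of_tendsto ha (hm.mono fun _ a => a.1)), ha⟩

theorem KK_t {ι : Type*} {l : Filter ι} {Q : ι → ℝ × ℝ × ℝ} {w : ι → V} {Q0 : ℝ × ℝ × ℝ} {w0 u : V}
    (a : Tendsto Q l (𝓝 Q0)) (b : Tendsto w l (𝓝 w0)) (p : 0 < bf Q0 w0 w0) :
    Tendsto (fun i => KK (Q i) (w i) u) l (𝓝 (KK Q0 w0 u)) :=
  (((bf_tendsto a tendsto_const_nhds tendsto_const_nhds).mul (bf_tendsto a b b)).sub
    ((bf_tendsto a b tendsto_const_nhds).pow 2)).div ((bf_tendsto a b b).sqrt.pow 3)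
    (pow_pos (Real.sqrt_pos.2 p) 3).ne'

theorem scale {Bf : V → ℝ × ℝ × ℝ} (q : QM M d) (hB : ∀ y ∈ M, Sh d y (Bf y)) (hX : X ∈ M) :
    ∃ a > 0, Tendsto (fun p : V × ℝ => d p.1 (p.1 + p.2 • (1, 0)) / p.2) (𝓝 X ×ˢ 𝓝[>] 0) (𝓝 a) := by
  obtain ⟨T, m0, T0⟩ := ((q.ev hX (t0 X (0, 1))).and self_mem_nhdsWithin).exists
  have T0 : 0 < T := T0
  set G0 := X + T • ((0, 1) : V) with hG0
  obtain ⟨ρ, r0, g⟩ := q.region m0
  have g : ∀ σ, 0 < σ → σ ≤ ρ → Gd M d G0 σ := fun σ a b => q.gd_mono g.self_of_nhds a b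
  set τ := fun σ => tt M d G0 σ (1, 0) with hτ
  set y := fun σ => G0 + τ σ • ((1, 0) : V) with hy
  have my : ∀ σ, 0 < σ → σ ≤ ρ → y σ ∈ M := fun σ a b => ((g σ a b).spec e10).2.1
  have cτ : ∀ σ, 0 < σ → σ < ρ → ContinuousAt τ σ := fun σ a b =>
    q.tt_tendsto (g σ a b.le) e10 tendsto_const_nhds tendsto_id tendsto_const_nhds (by
      filter_upwards [Ioo_mem_nhds a b] with s hs using g s hs.1 hs.2.le)
  have cy : ∀ σ, 0 < σ → σ < ρ → ContinuousAt y σ := fun σ a b =>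
    continuousAt_const.add ((cτ σ a b).smul continuousAt_const)
  have mo : ∀ s t, 0 < s → s < t → t ≤ ρ → τ s < τ t ∧ d (y s) (y s + (τ t - τ s) • (1, 0)) = t - s :=
    fun s t a b c => by
      obtain ⟨a1, a2, a3⟩ := (g s a (by linarith)).spec e10
      obtain ⟨b1, b2, b3⟩ := (g t (by linarith) c).spec e10
      have lt : τ s < τ t := by
        by_contra hn
        linarith [q.add0 m0 a2 b1.le (not_lt.1 hn), q.nonneg b2 a2]
      refine ⟨lt, ?_⟩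
      rw [hy, add_assoc, ← add_smul, add_sub_cancel]
      linarith [q.add0 m0 b2 a1.le lt.le]
  have der : ∀ σ, 0 < σ → σ < ρ → ∀ x ∈ M, x - y σ ≠ 0 → HasDerivWithinAt (fun s => d x (y s))
      (cs (Bf (y σ)) (y σ - x) (1, 0)) (Ici σ) σ := fun σ a b x hx n => by
    have ev : ∀ᶠ h in 𝓝[>] (0:ℝ), 0 < h ∧ σ + h ≤ ρ := by
      filter_upwards [Ioo_mem_nhdsGT (sub_pos.2 b)] with h hh using ⟨hh.1, by linarith [hh.2]⟩
    have tε : Tendsto (fun h : ℝ => τ (σ + h) - τ σ) (𝓝[>] 0) (𝓝[>] 0) := by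
      refine tendsto_nhdsWithin_iff.2 ⟨?_, ev.mono fun h hh => sub_pos.2 (mo _ _ a (by linarith) hh.2).1⟩
      simpa using ((cτ σ a b).tendsto.comp (by simpa using t_id.const_add σ)).sub_const (τ σ)
    have := (hB _ (my σ a b.le)).fv q (my σ a b.le) hx n tendsto_const_nhds tε tendsto_const_nhds
      (tendsto_const_nhds (x := ((1, 0) : V))) (tendsto_const_nhds (x := (0 : V)))
    rw [sub_zero, show -cs (Bf (y σ)) (x - y σ) (1, 0) = cs (Bf (y σ)) (y σ - x) (1, 0) by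
      rw [← neg_sub (y σ)]; simp [cs, bf]; ring_nf] at this
    refine right_deriv (this.congr' ?_)
    filter_upwards [ev] with h hh
    rw [(mo _ _ a (by linarith) hh.2).2, smul_zero, add_zero, add_sub_cancel_left,
      q.symm x hx _ (my _ (by linarith) hh.2), q.symm x hx _ (my _ a b.le)]
    simp only [hy]
    rw [add_assoc, ← add_smul, add_sub_cancel]
  have σ0 : 0 < ρ / 2 := by linarith
  have σ1 : ρ / 2 < ρ := by linarith
  set G1 := y (ρ / 2) with hG1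
  have m1 := my _ σ0 σ1.le
  have s2 : ∀ σ (x : V), (y σ - x).2 = X.2 + T - x.2 := fun σ x => by simp [hy, hG0]
  have kp : ∀ (Q : ℝ × ℝ × ℝ) (w : V), (∀ w, w ≠ 0 → 0 < bf Q w w) → w.2 ≠ 0 → 0 < KK Q w (1, 0) :=
    fun Q w p n => by
      have a := p w (by rintro rfl; simp at n)
      have b := p (1, 0) e10
      have c := p (-Q.2.1 * w.2, Q.1 * w.2) (by
        simp only [bf] at b
        simp [n, show Q.1 ≠ 0 by linarith])
      refine div_pos ?_ (pow_pos (Real.sqrt_pos.2 a) 3)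
      simp only [bf] at b c ⊢
      refine (pos_iff_pos_of_mul_pos (b := Q.1) (c.trans_eq (by ring))).2 (by linarith)
  set k0 := KK (Bf G1) (G1 - X) (1, 0) with hk0
  have k00 : 0 < k0 := kp _ _ (hB _ m1).2.1 (by rw [s2]; linarith)
  have cK : Tendsto (fun p : ℝ × V => KK (Bf (y p.1)) (y p.1 - p.2) (1, 0)) (𝓝 (ρ / 2, X)) (𝓝 k0) := by
    have c1 : Tendsto (fun p : ℝ × V => y p.1) (𝓝 (ρ / 2, X)) (𝓝 G1) :=
      (cy _ σ0 σ1).tendsto.comp (continuous_fst.tendsto (ρ / 2, X))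
    have c2 : Tendsto (fun p : ℝ × V => Bf (y p.1)) (𝓝 (ρ / 2, X)) (𝓝 (Bf G1)) :=
      (sh_cont q.op hB m1).tendsto.comp c1
    exact KK_t c2 (c1.sub (continuous_snd.tendsto (ρ / 2, X))) ((hB _ m1).2.1 _ fun z => by
      have : (G1 - X).2 = _ := s2 (ρ / 2) X
      rw [z] at this; simp at this; linarith)
  refine lim_of fun θ θ1 => ?_
  set η := k0 * (θ - 1) / (2 * (θ + 1)) with hη
  have η0 : 0 < η := by have := sub_pos.2 θ1; positivity
  have eη : η * (2 * (θ + 1)) = k0 * (θ - 1) := by rw [hη]; field_simp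
  clear_value η
  have η1 : 2 * η < k0 := by nlinarith
  obtain ⟨δ, d0, hδ⟩ := Metric.eventually_nhds_iff.1 ((Metric.tendsto_nhds.1 cK η η0).and
    (continuousAt_snd.eventually ((q.op.inter (isOpen_lt continuous_snd continuous_const
      (g := fun _ => X.2 + T))).mem_nhds ⟨hX, by simpa using T0⟩)))
  set S := min (δ / 2) (ρ / 4) with hS
  have S0 : 0 < S := by positivity
  have S1 : S < δ := (min_le_left _ _).trans_lt (by linarith)
  have S2 : ρ / 2 + S < ρ := by linarith [min_le_right (δ / 2) (ρ / 4)]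
  have H : ∀ σ ∈ Icc (ρ / 2) (ρ / 2 + S), ∀ x, dist x X < δ →
      |KK (Bf (y σ)) (y σ - x) (1, 0) - k0| < η ∧ x ∈ M ∧ (y σ - x).2 ≠ 0 := fun σ hσ x hx => by
    have := hδ (y := (σ, x)) (max_lt (by
      rw [Real.dist_eq, abs_lt]; constructor <;> linarith [hσ.1, hσ.2]) hx)
    exact ⟨this.1, this.2.1, by rw [s2]; exact (sub_pos.2 this.2.2).ne'⟩
  set G2 := y (ρ / 2 + S) with hG2
  have m2 := my _ (by linarith) S2.le
  have mv : ∀ (Q : ℝ × ℝ × ℝ) (w : V) (t : ℝ), (∀ w, w ≠ 0 → 0 < bf Q w w) → w.2 ≠ 0 → 0 < t →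
      ∃ s ∈ Ioo 0 t, cs Q (w + t • (1, 0)) (1, 0) - cs Q w (1, 0) = t * KK Q (w + s • (1, 0)) (1, 0) :=
    fun Q w t p n t0 => by
      have dd := fun s : ℝ => cs_deriv Q w (1, 0) s (p _ fun z => n (by simpa using congrArg Prod.snd z))
      obtain ⟨s, a, b⟩ := exists_hasDerivAt_eq_slope _ _ t0
        (fun s _ => (dd s).continuousAt.continuousWithinAt) fun s _ => dd s
      exact ⟨s, a, by rw [b, sub_zero, zero_smul, add_zero, mul_div_cancel₀ _ t0.ne']⟩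
  set Δ := cs (Bf X) (G2 - X) (1, 0) - cs (Bf X) (G1 - X) (1, 0) with hΔ
  have Δ0 : 0 < Δ := by
    have n : (G1 - X).2 ≠ 0 := by rw [s2]; linarith
    have lt := sub_pos.2 (mo (ρ / 2) (ρ / 2 + S) σ0 (by linarith) S2.le).1
    obtain ⟨s, -, e⟩ := mv (Bf X) (G1 - X) _ (hB X hX).2.1 n lt
    rw [show G1 - X + (τ (ρ / 2 + S) - τ (ρ / 2)) • ((1, 0) : V) = G2 - X by
      simp only [hG1, hG2, hy]; module] at e
    rw [hΔ, e]
    exact mul_pos lt (kp _ _ (hB X hX).2.1 (by simpa using n))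
  have f1 : Tendsto (fun p : V × ℝ => p.1) (𝓝 X ×ˢ 𝓝[>] 0) (𝓝 X) := tendsto_fst
  have f2 : Tendsto (fun p : V × ℝ => p.2) (𝓝 X ×ˢ 𝓝[>] 0) (𝓝[>] 0) := tendsto_snd
  have fv := fun G hG n => (hB X hX).fv q hX (G := G) hG n f1 f2 tendsto_const_nhds
    (tendsto_const_nhds (x := ((1, 0) : V))) (tendsto_const_nhds (x := (0 : V)))
  have ne : ∀ w : V, w.2 ≠ 0 → w ≠ 0 := by rintro w a rfl; simp at a
  have X0 : dist X X < δ := by simpa using d0
  have TE := (fv G1 m1 (ne _ (H _ ⟨le_rfl, by linarith⟩ X X0).2.2)).sub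
    (fv G2 m2 (ne _ (H _ ⟨by linarith, le_rfl⟩ X X0).2.2))
  simp only [sub_zero, smul_zero, add_zero, neg_sub_neg, ← hΔ] at TE
  have TI := TE.inv₀ Δ0.ne'
  refine ⟨S * (k0 - 2 * η) / Δ, div_pos (mul_pos S0 (by linarith)) Δ0, ?_⟩
  filter_upwards [(TI.const_mul (S * (k0 - η))).eventually (lt_mem_nhds (a := S * (k0 - 2 * η) / Δ) (by
      rw [← div_eq_mul_inv, div_lt_div_iff_of_pos_right Δ0]; nlinarith [mul_pos S0 η0])),
    (TI.const_mul (S * (k0 + η))).eventually (gt_mem_nhds (a := θ * (S * (k0 - 2 * η) / Δ)) (by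
      rw [← div_eq_mul_inv, ← mul_div_assoc, div_lt_div_iff_of_pos_right Δ0]
      nlinarith [mul_pos S0 η0])), TE.eventually (lt_mem_nhds Δ0),
    f1.eventually (Metric.ball_mem_nhds X (half_pos d0)), f2.eventually (Ioo_mem_nhdsGT (half_pos d0)),
    dpos q hX f1 f2 tendsto_const_nhds e10] with ⟨Y, ε⟩ k1 k2 k3 hY hε p
  simp only at k1 k2 k3 hY hε p ⊢
  have nr : ∀ s ∈ Icc 0 ε, dist (Y + s • ((1, 0) : V)) X < δ := fun s hs => by
    have : dist (Y + s • ((1, 0) : V)) Y = s := by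
      simp [dist_eq_norm, Prod.norm_def, abs_of_nonneg hs.1, hs.1]
    linarith [dist_triangle (Y + s • ((1, 0) : V)) Y X, Metric.mem_ball.1 hY, hs.2, hε.2]
  have n0 := nr 0 ⟨le_rfl, hε.1.le⟩
  rw [zero_smul, add_zero] at n0
  have n1 := nr ε ⟨hε.1.le, le_rfl⟩
  have I0 : ρ / 2 ∈ Icc (ρ / 2) (ρ / 2 + S) := ⟨le_rfl, by linarith⟩
  have cts : ∀ x ∈ M, ContinuousOn (fun s => d x (y s)) (Icc (ρ / 2) (ρ / 2 + S)) := fun x hx s hs =>
    (q.tendsto hx (my s (by linarith [hs.1]) (by linarith [hs.2])) tendsto_const_nhds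
      (cy s (by linarith [hs.1]) (by linarith [hs.2]))).mono_left nhdsWithin_le_nhds
  have ne' : ∀ σ x, (y σ - x).2 ≠ 0 → x - y σ ≠ 0 := fun σ x a z => a (by rw [← neg_sub, z]; simp)
  have out := norm_image_sub_le_of_norm_deriv_right_le_segment (C := η * ε)
    (f := fun s : ℝ => d (Y + ε • (1, 0)) (y s) - d Y (y s) + k0 * ε * s)
    (((cts _ (H _ I0 _ n1).2.1).sub (cts _ (H _ I0 _ n0).2.1)).add (by fun_prop))
    (fun σ hσ => by
      have I := Ico_subset_Icc_self hσ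
      exact ((der σ (by linarith [hσ.1]) (by linarith [hσ.2]) _ (H _ I _ n1).2.1
        (ne' _ _ (H _ I _ n1).2.2)).sub (der σ (by linarith [hσ.1]) (by linarith [hσ.2]) _
        (H _ I _ n0).2.1 (ne' _ _ (H _ I _ n0).2.2))).add
        (by simpa using ((hasDerivAt_id σ).const_mul (k0 * ε)).hasDerivWithinAt))
    (fun σ hσ => by
      have I := Ico_subset_Icc_self hσ
      obtain ⟨s, a, e⟩ := mv (Bf (y σ)) (y σ - (Y + ε • (1, 0))) ε
        (hB _ (my σ (by linarith [hσ.1]) (by linarith [hσ.2]))).2.1 (H _ I _ n1).2.2 hε.1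
      rw [show y σ - (Y + ε • (1, 0)) + ε • ((1, 0) : V) = y σ - Y by abel,
        show y σ - (Y + ε • (1, 0)) + s • ((1, 0) : V) = y σ - (Y + (ε - s) • (1, 0)) by module] at e
      have := (H _ I _ (nr (ε - s) ⟨by linarith [a.2], by linarith [a.1]⟩)).1
      rw [Real.norm_eq_abs, abs_le]
      rw [abs_lt] at this
      constructor <;> nlinarith [hε.1]) (ρ / 2 + S) ⟨by linarith, le_rfl⟩
  rw [Real.norm_eq_abs, abs_le, ← hG1, ← hG2] at out
  rw [← sub_div] at k1 k2 k3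
  set E := d (Y + ε • (1, 0)) G1 - d Y G1 - (d (Y + ε • (1, 0)) G2 - d Y G2) with hE
  set D := d Y (Y + ε • (1, 0))
  have E0 : 0 < E := (div_pos_iff_of_pos_right p).1 k3
  rw [inv_div, ← mul_div_assoc] at k1 k2
  have o1 : S * (k0 - η) * ε ≤ E := by linarith [out.2]
  have o2 : E ≤ S * (k0 + η) * ε := by linarith [out.1]
  refine ⟨k1.le.trans ?_, le_trans ?_ k2.le⟩ <;> rw [div_le_div_iff₀ (by linarith [hε.1]) (by linarith [hε.1])]
  · linarith [mul_le_mul_of_nonneg_left o1 p.le]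
  · linarith [mul_le_mul_of_nonneg_left o2 p.le]

theorem W2.st (h : W2 M d B K B') (hX : X ∈ B') : ∃ g : ℝ × ℝ × ℝ, (∀ w, w ≠ 0 → 0 < bf g w w) ∧ ∀ w0,
    Tendsto (fun p : V × V × ℝ => d p.1 (p.1 + p.2.2 • p.2.1) / p.2.2) (𝓝 X ×ˢ 𝓝 w0 ×ˢ 𝓝[>] 0)
      (𝓝 √(bf g w0 w0)) := by
  have : ∀ y : V, ∃ Q, y ∈ B' → Sh d y Q := fun y => by
    by_cases hy : y ∈ B'
    · exact (h.sh hy).imp fun _ a _ => a
    · exact ⟨0, fun a => absurd a hy⟩
  choose Bf hB using this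
  have q := h.q
  obtain ⟨a, a0, ha⟩ := scale q hB hX
  have eb : ∀ u, bf (a ^ 2 • Bf X) u u = a ^ 2 * bf (Bf X) u u := fun u => by
    simp only [bf, Prod.smul_fst, Prod.smul_snd, smul_eq_mul]; ring
  refine ⟨a ^ 2 • Bf X, fun w hw => by have := (hB X hX).2.1 w hw; rw [eb]; positivity, fun w0 => ?_⟩
  set F : Filter (V × V × ℝ) := 𝓝 X ×ˢ 𝓝 w0 ×ˢ 𝓝[>] 0
  have f1 : Tendsto (fun p : V × V × ℝ => p.1) F (𝓝 X) := tendsto_fst
  have f2 : Tendsto (fun p : V × V × ℝ => p.2.1) F (𝓝 w0) := tendsto_fst.comp tendsto_snd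
  have f3 : Tendsto (fun p : V × V × ℝ => p.2.2) F (𝓝[>] 0) := tendsto_snd.comp tendsto_snd
  have T := (ha.comp (f1.prodMk f3)).mul ((hB X hX).2.2 f1 f3 f2 (tendsto_const_nhds (x := (0:V))))
  rw [eb, Real.sqrt_mul (sq_nonneg _), Real.sqrt_sq a0.le]
  rw [sub_zero] at T
  refine T.congr' ?_
  filter_upwards [q.ev hX f1, q.ev hX (tz f1 f3 f2), dpos q hX f1 f3 tendsto_const_nhds e10] with p a b c
  simp only [Function.comp, smul_zero, add_zero]
  rw [q.symm _ b _ a]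
  field_simp

end Pool.Agent.H.MP_ec5bc9_gt
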