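import Pool.Agent.H.MP_ec5bc9_gt.F

set_option autoImplicit false

namespace Pool.Agent.H.MP_ec5bc9_gt

open Set Filter Topology Pool.Agent.H.MP_594704_gt Pool.Agent.H.MP_deb346_gt

variable {M : Set V} {d : V → V → ℝ}

theorem out (q : QM M d) {x : V} (hx : x ∈ M) {O : Set V} (hO : O ∈ 𝓝 x) :
    ∃ ρ > 0, Metric.ball x ρ ⊆ M ∧ ∀ X ∈ Metric.ball x ρ, ∀ p ∈ Metric.ball x ρ, ∀ z ∈ M,
      d X z ≤ d X p → z ∈ O := by
  obtain ⟨r, r0, hr⟩ : ∃ r > 0, ∀ z ∈ M, d x z < r → z ∈ O := by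
    by_contra hn
    push Not at hn
    choose u a b c using fun n : ℕ => hn (1 / (n + 1)) (by positivity)
    obtain ⟨n, e⟩ := ((q.near hx a (squeeze_zero (fun n => q.nonneg hx (a n)) (fun n => (b n).le)
      tendsto_one_div_add_atTop_nhds_zero_nat)).eventually hO).exists
    exact c n e
  have T := q.tendsto hx hx tendsto_const_nhds tendsto_id
  rw [q.refl x hx] at T
  obtain ⟨ρ, a, b⟩ := Metric.eventually_nhds_iff_ball.1
    ((T.eventually (gt_mem_nhds (show 0 < r / 3 by linarith))).and (q.op.mem_nhds hx))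
  refine ⟨ρ, a, fun y hy => (b y hy).2, fun X hX p hp z hz e => hr z hz ?_⟩
  have := (b X hX).1
  have := (b p hp).1
  simp only [id] at *
  linarith [q.tri x hx X (b X hX).2 z hz, q.tri X (b X hX).2 x hx p (b p hp).2, q.symm x hx X (b X hX).2]

theorem mkCF (q : QM M d)
    (str : ∀ x ∈ M, ∀ y ∈ M, ∀ z ∈ M, d x y + d y z = d x z → y ∈ segment ℝ x z)
    (con : ∀ x ∈ M, ∃ O ∈ 𝓝 x, ∀ l, ∀ p ∈ O, ∀ F ∈ O, dot l F ≠ dot l p → ∃ P : QP,
      (∃ Z, 0 < ev P Z) ∧ (∃ Z, ev P Z < 0) ∧ ∀ X ∈ O, d X F = fl M d l p X ↔ ev P X = 0) :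
    CF M d := ⟨q, fun x hx => by
  obtain ⟨O, hO, con⟩ := con x hx
  obtain ⟨R, R0, hR⟩ := Metric.nhds_basis_closedBall.mem_iff.1 (q.op.mem_nhds hx)
  obtain ⟨ρ, r0, a, b⟩ := out q hx (inter_mem hO (Metric.closedBall_mem_nhds x R0))
  obtain ⟨η, e0, -, c⟩ := out q hx (Metric.ball_mem_nhds x r0)
  have s1 := Metric.ball_subset_ball (x := x) (min_le_left ρ η)
  have s2 := Metric.ball_subset_ball (x := x) (min_le_right ρ η)
  have bO : ∀ p ∈ Metric.ball x ρ, p ∈ O ∩ Metric.closedBall x R := fun p hp =>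
    b p hp p hp p (a hp) le_rfl
  have h : W2 M d (Metric.ball x ρ) (Metric.closedBall x R) (Metric.ball x (min ρ η)) :=
    { toQM := q, str := str, oB := Metric.isOpen_ball, cB := convex_ball _ _, BM := a,
      cK := isCompact_closedBall _ _, KM := hR, oB' := Metric.isOpen_ball, cB' := convex_ball _ _,
      sub := s1, sm := fun Y hY p hp => c Y (s2 hY) p (s2 hp),
      con := fun l p hp F hF n => (con l p (bO p hp).1 F (bO F hF).1 n).imp fun P h =>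
        ⟨h.1, h.2.1, fun X hX => h.2.2 X (bO X hX).1⟩
      ft := fun l p hp X hX => by
        obtain ⟨Y, hY, m⟩ := ((isCompact_closedBall x R).inter_right (isClosed_eq
          (by fun_prop : Continuous (dot l)) continuous_const (g := fun _ => dot l p))).exists_isMinOn
          ⟨p, (bO p hp).2, rfl⟩ (q.cont.comp (f := fun z => (X, z)) (by fun_prop)
            fun z hz => ⟨a hX, hR hz.1⟩)
        refine ⟨Y, hY.1, hY.2, le_antisymm (fl_le q (a hX) (hR hY.1) hY.2)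
          (le_csInf ⟨_, p, ⟨a hp, rfl⟩, rfl⟩ ?_)⟩
        rintro _ ⟨Z, hZ, rfl⟩
        rcases le_total (d X Z) (d X p) with e | e
        · exact m ⟨(b X hX p hp Z hZ.1 e).2, hZ.2⟩
        · exact le_trans (m ⟨(bO p hp).2, rfl⟩) e }
  exact h.st (Metric.mem_ball_self (lt_min r0 e0))⟩

def NS (M : Set V) (d : V → V → ℝ) : Prop := ∀ l, ∀ p ∈ M, ∀ F ∈ M, dot l F ≠ dot l p → ∀ x w : V,
  w ≠ 0 → ¬ ∀ᶠ s in 𝓝[>] (0:ℝ), x + s • w ∈ M ∧ d (x + s • w) F = fl M d l p (x + s • w)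

def Cn (M : Set V) (T : (V × ℝ) ≃ₗ[ℝ] EE) : Set EE := {Z | ∃ x ∈ M, ∃ s : ℝ, 0 < s ∧ Z = s • T (x, 1)}

variable {T : (V × ℝ) ≃ₗ[ℝ] EE}

theorem Cn_open (o : IsOpen M) : IsOpen (Cn M T) := by
  have : Cn M T = {Z | 0 < (T.symm Z).2} ∩ (fun Z => (T.symm Z).2⁻¹ • (T.symm Z).1) ⁻¹' M := by
    ext Z
    refine ⟨fun ⟨x, hx, s, s0, e⟩ => by simp [e, s0, smul_smul, s0.ne', hx], fun ⟨a, b⟩ =>
      ⟨_, b, _, a, ?_⟩⟩
    have a : 0 < (T.symm Z).2 := a
    rw [← map_smul]; simp [smul_smul, a.ne']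
  have c : Continuous T.symm := T.symm.toLinearMap.continuous_of_finiteDimensional
  rw [this]
  exact ContinuousOn.isOpen_inter_preimage (ContinuousOn.smul (ContinuousOn.inv₀ c.snd.continuousOn
    fun Z a => ne_of_gt a) c.fst.continuousOn) (isOpen_lt continuous_const c.snd) o

theorem Cn_add (c : Convex ℝ M) {X Y : EE} (a : X ∈ Cn M T) (b : Y ∈ Cn M T) : X + Y ∈ Cn M T := by
  obtain ⟨x, hx, s, s0, rfl⟩ := a
  obtain ⟨y, hy, t, t0, rfl⟩ := b
  refine ⟨_, c hx hy (a := s / (s + t)) (b := t / (s + t)) (by positivity) (by positivity)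
    (by field_simp), s + t, by positivity, ?_⟩
  rw [← map_smul, ← map_smul, ← map_smul, ← map_add]
  congr 1
  ext <;> simp <;> field_simp

theorem Cn_smul {X : EE} (a : X ∈ Cn M T) {t : ℝ} (t0 : 0 < t) : t • X ∈ Cn M T := by
  obtain ⟨x, hx, s, s0, rfl⟩ := a
  exact ⟨x, hx, t * s, by positivity, smul_smul _ _ _⟩

theorem in3 (X Y : EE) : inner ℝ X Y = X 0 * Y 0 + X 1 * Y 1 + X 2 * Y 2 := by
  simp [PiLp.inner_apply, Fin.sum_univ_three]; ring

theorem aff (n : EE) : ∃ (l : V) (c : ℝ), ∀ x s, inner ℝ n (T (x, s)) = dot l x + s * c :=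
  ⟨(inner ℝ n (T ((1, 0), 0)), inner ℝ n (T ((0, 1), 0))), inner ℝ n (T (0, 1)), fun x s => by
    rw [show (x, s) = x.1 • (((1, 0), 0) : V × ℝ) + x.2 • ((0, 1), 0) + s • (0, 1) by ext <;> simp]
    simp only [map_add, map_smul, inner_add_right, inner_smul_right, dot]; ring⟩

theorem frame {E m : EE} (E0 : E ≠ 0) (m0 : m ≠ 0) (o : inner ℝ m E = 0) : ∃ t : EE,
    inner ℝ m t = 0 ∧ inner ℝ t E = 0 ∧ 0 < inner ℝ t t ∧ ∀ Z : EE, ∃ a b c : ℝ,
      Z = a • E + b • m + c • t := by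
  have p1 := real_inner_self_pos.2 E0
  have p2 := real_inner_self_pos.2 m0
  have p3 := mul_pos p1 p2
  simp only [in3] at *
  obtain ⟨P, hP⟩ : ∃ P, P = E 0 * E 0 + E 1 * E 1 + E 2 * E 2 := ⟨_, rfl⟩
  obtain ⟨Q, hQ⟩ : ∃ Q, Q = m 0 * m 0 + m 1 * m 1 + m 2 * m 2 := ⟨_, rfl⟩
  refine ⟨!₂[m 1 * E 2 - m 2 * E 1, m 2 * E 0 - m 0 * E 2, m 0 * E 1 - m 1 * E 0], by simp; ring,
    by simp; ring, by simp; nlinarith, fun Z => ⟨(Z 0 * E 0 + Z 1 * E 1 + Z 2 * E 2) / P,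
      (Z 0 * m 0 + Z 1 * m 1 + Z 2 * m 2) / Q, (Z 0 * (m 1 * E 2 - m 2 * E 1) +
      Z 1 * (m 2 * E 0 - m 0 * E 2) + Z 2 * (m 0 * E 1 - m 1 * E 0)) / (P * Q), ?_⟩⟩
  rw [← hP] at p1
  rw [← hQ] at p2
  ext i
  fin_cases i <;> simp <;> field_simp <;> subst hP hQ
  · linear_combination (Z 0 * (m 0 * E 0 + m 1 * E 1 + m 2 * E 2) - m 0 * (Z 0 * E 0 + Z 1 * E 1 + Z 2 * E 2)
      - E 0 * (Z 0 * m 0 + Z 1 * m 1 + Z 2 * m 2)) * o
  · linear_combination (Z 1 * (m 0 * E 0 + m 1 * E 1 + m 2 * E 2) - m 1 * (Z 0 * E 0 + Z 1 * E 1 + Z 2 * E 2)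
      - E 1 * (Z 0 * m 0 + Z 1 * m 1 + Z 2 * m 2)) * o
  · linear_combination (Z 2 * (m 0 * E 0 + m 1 * E 1 + m 2 * E 2) - m 2 * (Z 0 * E 0 + Z 1 * E 1 + Z 2 * E 2)
      - E 2 * (Z 0 * m 0 + Z 1 * m 1 + Z 2 * m 2)) * o

theorem closed (q : QM M d) (ns : NS M d) {O : Set EE} (oO : IsOpen O) (CO : Cn M T ⊆ O)
    (O0 : ∀ Z ∈ O, Z ≠ 0) {ν : EE → EE} (cν : ContinuousOn ν O)
    (hν : ∀ Z, ∀ s : ℝ, 0 < s → ν (s • Z) = ν Z)
    (cmp : ∀ x ∈ M, ∀ y ∈ M, ∀ z ∈ M, d x y ≤ d x z ↔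
      inner ℝ (T (x, 1)) (ν (T (y, 1))) ≤ inner ℝ (T (x, 1)) (ν (T (z, 1))))
    (ob : ∀ E ∈ O, ∃ (j : EE) (G : EE →ₗ[ℝ] EE →ₗ[ℝ] ℝ), 0 < inner ℝ j E ∧ (∀ X Y, G X Y = G Y X) ∧
      (∀ X, G E X = 0) ∧ (∀ Z, G Z Z ≤ 0 → ∃ s : ℝ, Z = s • E) ∧ ∀ X, ∀ Y ∈ O, 0 < inner ℝ j X →
        G Y X ≤ 0 → 0 < G Y Y → inner ℝ X (ν E) < inner ℝ X (ν Y)) :
    closure (Cn M T) ∩ O ⊆ Cn M T := by
  rintro E0 ⟨h1, h2⟩
  by_contra h3
  have oC : IsOpen (Cn M T) := Cn_open q.op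
  obtain ⟨r, r0, hr⟩ := Metric.isOpen_iff.1 oO E0 h2
  obtain ⟨x1, d1, m1⟩ := Metric.mem_closure_iff.1 h1 (r / 2) (by linarith) |>.imp fun _ a => a.symm
  obtain ⟨E, hE, eE⟩ := oC.isClosed_compl.exists_infDist_eq_dist ⟨E0, h3⟩ x1
  have EO : E ∈ O := hr (by
    have := Metric.infDist_le_dist_of_mem (x := x1) (show E0 ∈ (Cn M T)ᶜ from h3)
    rw [Metric.mem_ball]
    linarith [dist_triangle_left E E0 x1, dist_comm E0 x1])
  have bl : Metric.ball x1 (dist x1 E) ⊆ Cn M T := by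
    rw [← eE]; simpa using Metric.ball_infDist_subset_compl (x := x1) (s := (Cn M T)ᶜ)
  set m := x1 - E with hm
  have m0 : m ≠ 0 := fun z => hE (sub_eq_zero.1 z ▸ m1)
  have tE : ∀ w : EE, Tendsto (fun δ : ℝ => E + δ • w) (𝓝[>] 0) (𝓝 E) := fun w => t_sm E w
  have ent : ∀ w, 0 < inner ℝ m w → ∀ᶠ δ in 𝓝[>] (0:ℝ), E + δ • w ∈ Cn M T := fun w p => by
    filter_upwards [(t_id.mul_const (‖w‖ ^ 2)).eventually (gt_mem_nhds (a := inner ℝ m w)
      (by simpa using p)), self_mem_nhdsWithin] with δ a d0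
    have d0 : 0 < δ := d0
    refine bl ?_
    rw [Metric.mem_ball, dist_comm, dist_eq_norm, dist_eq_norm, ← hm,
      show x1 - (E + δ • w) = m - δ • w by rw [hm]; abel, ← sq_lt_sq₀ (norm_nonneg _) (norm_nonneg _),
      norm_sub_sq_real, inner_smul_right, norm_smul, mul_pow, Real.norm_eq_abs, sq_abs]
    nlinarith [mul_pos d0 p]
  have ng : ∀ Z ∈ Cn M T, ¬ inner ℝ m Z < 0 := fun Z hZ lt => by
    obtain ⟨δ, a, d0⟩ := ((ent (-Z) (by rw [inner_neg_right]; linarith)).and self_mem_nhdsWithin).exists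
    exact hE (by simpa using Cn_add q.cv a (Cn_smul hZ d0))
  clear_value m
  have mp := real_inner_self_pos.2 m0
  have sup : ∀ Z ∈ Cn M T, 0 < inner ℝ m Z := fun Z hZ => by
    obtain ⟨δ, a, d0⟩ := (((t_sm Z (-m)).eventually (oC.mem_nhds hZ)).and self_mem_nhdsWithin).exists
    have := ng _ a
    rw [inner_add_right, inner_smul_right, inner_neg_right] at this
    nlinarith [mul_pos d0 mp]
  have mE : inner ℝ m E = 0 := by
    refine le_antisymm (not_lt.1 fun p => ?_) (ge_of_tendsto (tendsto_const_nhds.inner (𝕜 := ℝ) (tE m))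
      ((ent m mp).mono fun δ a => (sup _ a).le))
    obtain ⟨δ, a, d0⟩ := ((ent E p).and self_mem_nhdsWithin).exists
    have d0 : 0 < δ := d0
    have := Cn_smul a (t := (1 + δ)⁻¹) (by positivity)
    rw [show (1 + δ)⁻¹ • (E + δ • E) = E by match_scalars; field_simp] at this
    exact hE this
  obtain ⟨j, G, j0, sy, GE, pd, ob⟩ := ob E EO
  obtain ⟨t, t1, t2, t3, fr⟩ := frame (O0 E EO) m0 mE
  have pC : ∀ Z ∈ Cn M T, 0 < G Z Z := fun Z hZ => not_le.1 fun a => by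
    obtain ⟨s, e⟩ := pd Z a
    have := sup Z hZ
    rw [e, inner_smul_right, mE] at this
    simp at this
  have pt : 0 < G t t := not_le.1 fun a => by
    obtain ⟨s, e⟩ := pd t a
    nth_rewrite 2 [e] at t3
    rw [inner_smul_right, t2] at t3
    simp at t3
  set μ := |G m m| / G t t + 1 with hμ
  have μ1 : 1 ≤ μ := by rw [hμ]; linarith [div_nonneg (abs_nonneg (G m m)) pt.le]
  have eμ : μ * G t t = |G m m| + G t t := by rw [hμ]; field_simp
  clear_value μ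
  set a := m + μ • t with ha
  set b := m - μ • t with hb
  set n := (μ * inner ℝ t t) • m - inner ℝ m m • t with hn
  have tm : inner ℝ t m = 0 := by rw [real_inner_comm, t1]
  have ma : inner ℝ m a = inner ℝ m m := by simp only [ha, inner_add_right, inner_smul_right, t1]; ring
  have mb : 0 < inner ℝ m b := by simp only [hb, inner_sub_right, inner_smul_right, t1]; linarith
  have ab : G a b < 0 := by
    simp only [ha, hb, map_add, map_sub, map_smul, LinearMap.add_apply, LinearMap.smul_apply,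
      smul_eq_mul, sy t m]
    nlinarith [le_abs_self (G m m), abs_nonneg (G m m)]
  have nn : ∀ Z, inner ℝ n Z = μ * inner ℝ t t * inner ℝ m Z - inner ℝ m m * inner ℝ t Z := fun Z => by
    simp only [hn, inner_sub_left, inner_smul_left, conj_trivial]
  have nE : inner ℝ n E = 0 := by rw [nn, mE, t2]; ring
  have na : inner ℝ n a = 0 := by
    rw [nn, ma, ha, inner_add_right, inner_smul_right, tm]; ring
  have nb : 0 < inner ℝ n b := by
    rw [nn, hb, inner_sub_right, inner_sub_right, inner_smul_right, inner_smul_right, tm, t1]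
    nlinarith [mul_pos (mul_pos (one_pos.trans_le μ1) t3) mp]
  have dec : ∀ Y ∈ Cn M T, inner ℝ n Y = 0 → ∀ X, G a X ≤ 0 → G Y X ≤ 0 := fun Y hY e X p => by
    obtain ⟨α, β, γ, rfl⟩ := fr Y
    have s := sup _ hY
    simp only [nn, inner_add_right, inner_smul_right, mE, t1, t2, tm] at e s
    have : γ = β * μ := mul_left_cancel₀ (mul_pos mp t3).ne' (by linarith)
    have β0 : 0 < β := by nlinarith
    simp only [ha, this, map_add, map_smul, LinearMap.add_apply, LinearMap.smul_apply, smul_eq_mul,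
      GE] at p ⊢
    nlinarith
  obtain ⟨l, c, hl⟩ := aff (T := T) n
  have cE := cν.continuousAt (oO.mem_nhds EO)
  have lim : ∀ X : EE, Tendsto (fun δ : ℝ => inner ℝ X (ν (E + δ • a))) (𝓝[>] 0) (𝓝 (inner ℝ X (ν E))) :=
    fun X => tendsto_const_nhds.inner (cE.tendsto.comp (tE a))
  have onL : ∀ᶠ δ in 𝓝[>] (0:ℝ), ∃ y ∈ M, dot l y = -c ∧ ν (E + δ • a) = ν (T (y, 1)) := by
    filter_upwards [ent a (ma ▸ mp)] with δ ⟨y, hy, s, s0, e⟩
    have := congrArg (inner ℝ n) e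
    rw [inner_add_right, inner_smul_right, nE, na, inner_smul_right, hl] at this
    exact ⟨y, hy, mul_left_cancel₀ s0.ne' (by linarith), by rw [e, hν _ _ s0]⟩
  obtain ⟨-, p, hp, p1, -⟩ := onL.exists
  obtain ⟨δ0, ⟨g, hg, s0, s1, eg⟩, d0⟩ := ((ent b mb).and self_mem_nhdsWithin).exists
  have tC : ∀ x ∈ M, T (x, 1) ∈ Cn M T := fun x hx => ⟨x, hx, 1, one_pos, (one_smul _ _).symm⟩
  have sd : ∀ {δ s : ℝ} {x : V}, 0 < δ → 0 < s → E + δ • b = s • T (x, 1) → -c < dot l x :=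
    fun {δ s x} d0 s0 e => by
      have := congrArg (inner ℝ n) e
      rw [inner_add_right, inner_smul_right, nE, inner_smul_right, hl] at this
      nlinarith [mul_pos d0 nb]
  obtain ⟨δ, ⟨⟨⟨x, hx, s, s2, ex⟩, k1⟩, k2⟩, d1⟩ := ((((ent b mb).and (((tE b).inner (𝕜 := ℝ)
    tendsto_const_nhds).eventually_lt ((tE b).inner (𝕜 := ℝ) tendsto_const_nhds)
    (ob E _ (CO (tC g hg)) j0 (by rw [sy, GE]) (pC _ (tC g hg))))).and
    ((tendsto_const_nhds.inner (𝕜 := ℝ) (tE b)).eventually (lt_mem_nhds j0))).and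
    self_mem_nhdsWithin).exists
  have d1 : 0 < δ := d1
  have k3 : G a (T (x, 1)) < 0 := by
    have := congrArg (G a) ex
    rw [map_add, map_smul, map_smul, sy, GE, smul_eq_mul, smul_eq_mul] at this
    nlinarith [mul_neg_of_pos_of_neg d1 ab]
  rw [ex, inner_smul_right] at k2
  rw [ex, inner_smul_left, inner_smul_left, conj_trivial] at k1
  have cT : Continuous T := T.toLinearMap.continuous_of_finiteDimensional
  have mg : ∀ τ ∈ Icc (0:ℝ) 1, x + τ • (g - x) ∈ M := fun τ hτ => q.cv.add_smul_sub_mem hx hg hτ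
  obtain ⟨τ, hτ, eF⟩ := intermediate_value_Icc zero_le_one
    (f := fun τ : ℝ => inner ℝ (T (x, 1)) (ν (T (x + τ • (g - x), 1))))
    (continuousOn_const.inner (𝕜 := ℝ) (cν.comp (cT.comp (f := fun τ : ℝ => (x + τ • (g - x), (1:ℝ)))
      (by fun_prop)).continuousOn fun τ hτ => CO (tC _ (mg τ hτ))))
    (show inner ℝ (T (x, 1)) (ν E) ∈ _ from ⟨by
      refine ge_of_tendsto (lim _) (onL.mono fun δ ⟨y, hy, _, e⟩ => ?_)
      rw [e, zero_smul, add_zero, ← cmp x hx x hx y hy, q.refl x hx]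
      exact q.nonneg hx hy, by simpa using (lt_of_mul_lt_mul_left k1 s2.le).le⟩)
  have hF := mg τ hτ
  have nF : dot l (x + τ • (g - x)) ≠ dot l p := by
    have a1 := sd d1 s2 ex
    have a2 := sd d0 s1 eg
    rw [p1, dot_add, dot_smul, dot_sub]
    rcases le_total (dot l x) (dot l g) with e | e
    · nlinarith [hτ.1]
    · nlinarith [hτ.2]
  simp only at eF
  generalize x + τ • (g - x) = F at *
  obtain ⟨l', c', hl'⟩ := aff (T := T) (ν (T (F, 1)) - ν E)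
  obtain ⟨w, w0, w1⟩ : ∃ w, w ≠ 0 ∧ dot l' w = 0 := by
    by_cases z : l' = 0
    · exact ⟨_, e10, by simp [z, dot]⟩
    · exact ⟨(-l'.2, l'.1), fun e => z (by simpa [Prod.ext_iff, and_comm] using e), by
        simp only [dot]; ring⟩
  have tx := (cT.tendsto _).comp ((t0 x w).prodMk_nhds (tendsto_const_nhds (x := (1:ℝ))))
  refine ns l p hp F hF nF x w w0 ?_
  filter_upwards [q.ev hx (t0 x w), (tendsto_const_nhds.inner (𝕜 := ℝ) tx).eventually
    (lt_mem_nhds ((pos_iff_pos_of_mul_pos k2).1 s2)),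
    (((G a).continuous_of_finiteDimensional.tendsto _).comp tx).eventually (gt_mem_nhds k3)]
    with σ mX i1 i2
  have eq : inner ℝ (T (x + σ • w, 1)) (ν (T (F, 1))) = inner ℝ (T (x + σ • w, 1)) (ν E) := by
    have a1 := hl' (x + σ • w) 1
    have a2 := hl' x 1
    rw [dot_add, dot_smul, w1] at a1
    rw [inner_sub_left, real_inner_comm, real_inner_comm _ (ν E)] at a1 a2
    linarith
  simp only [Function.comp] at i1 i2
  generalize x + σ • w = X at *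
  have lt : ∀ y ∈ M, dot l y = dot l p → d X F < d X y := fun y hy e => by
    rw [← not_le, cmp X mX y hy F hF, not_le, eq]
    exact ob _ _ (CO (tC y hy)) i1 (dec _ (tC y hy) (by rw [hl, e, p1]; ring) _ i2.le) (pC _ (tC y hy))
  refine ⟨mX, le_antisymm (le_csInf ⟨_, p, ⟨hp, rfl⟩, rfl⟩ ?_) ?_⟩
  · rintro _ ⟨y, hy, rfl⟩
    exact (lt y hy.1 hy.2).le
  have k : ∀ F' ∈ M, d X F < d X F' → fl M d l p X ≤ d X F' := fun F' h' lt' => by
    rw [← not_le, cmp X mX F' h' F hF, not_le, eq] at lt'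
    obtain ⟨δ, ⟨y, hy, e1, e2⟩, e3⟩ := (onL.and ((lim _).eventually (gt_mem_nhds lt'))).exists
    rw [e2] at e3
    exact (fl_le q mX hy (e1.trans p1.symm)).trans ((cmp X mX y hy F' h').2 e3.le)
  obtain ⟨u, u0, hu⟩ : ∃ u, u ≠ 0 ∧ ∃ r : ℝ, 0 ≤ r ∧ F = X + r • u := by
    by_cases z : F - X = 0
    · exact ⟨_, e10, 0, le_rfl, by simp [sub_eq_zero.1 z]⟩
    · exact ⟨_, z, 1, zero_le_one, by simp⟩
  obtain ⟨r, r1, e⟩ := hu
  refine ge_of_tendsto (q.tendsto mX hF tendsto_const_nhds (t0 F u)) ?_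
  filter_upwards [q.ev hF (t0 F u), self_mem_nhdsWithin] with η a b
  refine k _ a ?_
  rw [e, add_assoc, ← add_smul] at a ⊢
  exact q.lt0 mX u0 a r1 (lt_add_of_pos_right r b)

end Pool.Agent.H.MP_ec5bc9_gt
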