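import Pool.Agent.H.MP_ec5bc9_gt.G

set_option autoImplicit false

namespace Pool.Agent.H.MP_ec5bc9_gt

open Set Filter Topology Pool.Agent.H.MP_594704_gt Pool.Agent.H.MP_deb346_gt

variable {M : Set V} {d : V → V → ℝ} {T : (V × ℝ) ≃ₗ[ℝ] EE}

def Wk (κ : ℝ) (X Y : EE) : ℝ := κ * (X 0 * Y 0 + X 1 * Y 1) + X 2 * Y 2

theorem closedK (q : QM M d) (ns : NS M d) {κ : ℝ} (hκ : κ = 1 ∨ κ = -1)
    (hO : ∀ x ∈ M, 0 < Wk κ (T (x, 1)) (T (x, 1)) ∧ (κ = 1 ∨ 0 < T (x, 1) 2))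
    (cmp : ∀ x ∈ M, ∀ y ∈ M, ∀ z ∈ M, d x y ≤ d x z ↔
      -κ * Wk κ (T (x, 1)) (T (y, 1)) / √(Wk κ (T (y, 1)) (T (y, 1))) ≤
      -κ * Wk κ (T (x, 1)) (T (z, 1)) / √(Wk κ (T (z, 1)) (T (z, 1)))) :
    closure (Cn M T) ∩ {Z | 0 < Wk κ Z Z ∧ (κ = 1 ∨ 0 < Z 2)} ⊆ Cn M T := by
  have cW : Continuous fun Z => Wk κ Z Z := by unfold Wk; fun_prop
  have sW : ∀ (s : ℝ) Z, Wk κ (s • Z) (s • Z) = s ^ 2 * Wk κ Z Z := fun s Z => by simp [Wk]; ring
  have e : ∀ X Y : EE, inner ℝ X ((-κ / √(Wk κ Y Y)) • (!₂[κ * Y 0, κ * Y 1, Y 2] : EE)) =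
      -κ * Wk κ X Y / √(Wk κ Y Y) := fun X Y => by
    rw [inner_smul_right, in3]; simp [Wk]; ring
  refine closed q ns (ν := fun Y => (-κ / √(Wk κ Y Y)) • !₂[κ * Y 0, κ * Y 1, Y 2])
    ((isOpen_lt continuous_const cW).inter (isOpen_const.union
      (isOpen_lt continuous_const (by fun_prop : Continuous fun Z : EE => Z 2)))) ?_ ?_ ?_ ?_
    (by simpa only [e] using cmp) fun E ⟨E1, E2⟩ => ?_
  · rintro _ ⟨x, hx, s, s0, rfl⟩
    exact ⟨sW s _ ▸ mul_pos (pow_pos s0 2) (hO x hx).1, (hO x hx).2.imp id fun a => by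
      simpa using mul_pos s0 a⟩
  · rintro _ ⟨a, -⟩ rfl
    simp [Wk] at a
  · exact (continuousOn_const.div cW.sqrt.continuousOn fun Z a => (Real.sqrt_pos.2 a.1).ne').smul
      (Continuous.continuousOn (by fun_prop))
  · intro Z s s0
    rw [sW, Real.sqrt_mul (sq_nonneg s), Real.sqrt_sq s0.le]
    ext i
    fin_cases i <;> simp <;> field_simp
  refine ⟨!₂[κ * E 0, κ * E 1, E 2], LinearMap.mk₂ ℝ
    (fun a X => κ * (Wk κ a X * Wk κ E E - Wk κ a E * Wk κ X E)) (fun _ _ _ => by simp [Wk]; ring)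
    (fun _ _ _ => by simp [Wk]; ring) (fun _ _ _ => by simp [Wk]; ring)
    (fun _ _ _ => by simp [Wk]; ring), by rw [in3]; simp [Wk] at E1 ⊢; linarith,
    fun X Y => by simp only [LinearMap.mk₂_apply, Wk]; ring,
    fun X => by simp only [LinearMap.mk₂_apply, Wk]; ring, fun Z h => ?_,
    fun X Y ⟨Y1, Y2⟩ h1 h2 h3 => ?_⟩
  · rw [LinearMap.mk₂_apply] at h
    have k : ∀ a b c : ℝ, κ * (a * E 0 + b * E 1) + c * E 2 = 0 →
        κ * (κ * (a * a + b * b) + c * c) ≤ 0 → a = 0 ∧ b = 0 ∧ c = 0 := fun a b c h1 h2 => by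
      simp only [Wk] at E1
      rcases hκ with rfl | rfl
      · refine ⟨?_, ?_, ?_⟩ <;> nlinarith [sq_nonneg a, sq_nonneg b, sq_nonneg c]
      have c0 : c = 0 := by
        by_contra n
        have e : (c * E 2) ^ 2 = (a * E 0 + b * E 1) ^ 2 := by
          rw [show c * E 2 = a * E 0 + b * E 1 by linarith]
        nlinarith [mul_pos (sq_pos_of_ne_zero n) E1, sq_nonneg (a * E 1 - b * E 0),
          mul_nonneg (add_nonneg (sq_nonneg (E 0)) (sq_nonneg (E 1))) (neg_nonneg.2 h2)]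
      rw [c0] at h2
      refine ⟨?_, ?_, c0⟩ <;> nlinarith [sq_nonneg a, sq_nonneg b]
    obtain ⟨a, b, c⟩ := k (Wk κ E E * Z 0 - Wk κ Z E * E 0) (Wk κ E E * Z 1 - Wk κ Z E * E 1)
      (Wk κ E E * Z 2 - Wk κ Z E * E 2) (by simp only [Wk]; ring) (by
        refine le_trans (le_of_eq ?_) (mul_nonpos_of_nonneg_of_nonpos E1.le h)
        simp only [Wk]; ring)
    refine ⟨Wk κ Z E / Wk κ E E, ?_⟩
    ext i
    fin_cases i <;> simp <;> field_simp <;> linarith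
  rw [e, e]
  rw [LinearMap.mk₂_apply] at h2 h3
  have h4 : 0 < Wk κ X E := by rw [in3] at h1; simp [Wk] at h1 ⊢; linarith
  have h5 : κ = -1 → 0 < Wk κ Y E := by
    rintro rfl
    have a : 0 < Y 2 := Y2.resolve_left (by norm_num)
    have b : 0 < E 2 := E2.resolve_left (by norm_num)
    simp only [Wk] at Y1 E1 ⊢
    by_contra n
    have := pow_le_pow_left₀ (mul_pos a b).le (show Y 2 * E 2 ≤ Y 0 * E 0 + Y 1 * E 1 by linarith) 2
    nlinarith [mul_pos Y1 E1, sq_nonneg (Y 0 * E 1 - Y 1 * E 0),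
      mul_nonneg (add_nonneg (sq_nonneg (E 0)) (sq_nonneg (E 1))) Y1.le,
      mul_nonneg (add_nonneg (sq_nonneg (Y 0)) (sq_nonneg (Y 1))) E1.le]
  have r0 := Real.sqrt_pos.2 Y1
  have o0 := Real.sqrt_pos.2 E1
  rw [← Real.sq_sqrt Y1.le] at h3
  rw [← Real.sq_sqrt E1.le] at h2 h3
  rw [div_lt_div_iff₀ o0 r0, show Wk κ X Y = Wk κ Y X by simp only [Wk]; ring]
  generalize √(Wk κ Y Y) = r at *
  generalize √(Wk κ E E) = o at *
  refine lt_of_mul_lt_mul_left ?_ o0.le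
  rcases hκ with rfl | rfl
  · have := abs_lt_of_sq_lt_sq' (show Wk 1 Y E ^ 2 < (r * o) ^ 2 by nlinarith) (by positivity)
    nlinarith [mul_lt_mul_of_pos_right this.2 h4]
  · have := abs_lt_of_sq_lt_sq' (show (r * o) ^ 2 < Wk (-1) Y E ^ 2 by nlinarith) (h5 rfl).le
    nlinarith [mul_lt_mul_of_pos_right this.2 h4]

theorem closedE (q : QM M d) (ns : NS M d) (hO : ∀ x ∈ M, 0 < T (x, 1) 2) {k : ℝ} (k0 : 0 < k)
    (iso : ∀ x ∈ M, ∀ y ∈ M, k * d x y =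
      √(((pr T x).1 - (pr T y).1) ^ 2 + ((pr T x).2 - (pr T y).2) ^ 2)) :
    closure (Cn M T) ∩ {Z | 0 < Z 2} ⊆ Cn M T := by
  refine closed q ns (ν := fun Y => !₂[-2 * (Y 0 / Y 2), -2 * (Y 1 / Y 2), (Y 0 / Y 2) ^ 2 + (Y 1 / Y 2) ^ 2])
    (isOpen_lt continuous_const (by fun_prop)) ?_ ?_ ?_ ?_ (fun x hx y hy z hz => ?_) fun E E1 => ?_
  · rintro _ ⟨x, hx, s, s0, rfl⟩
    simpa using mul_pos s0 (hO x hx)
  · rintro _ a rfl
    simp at a
  · have a : ∀ i, ContinuousOn (fun Y : EE => Y i / Y 2) {Z | 0 < Z 2} := fun i =>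
      ContinuousOn.div (by fun_prop) (by fun_prop) fun Z a => ne_of_gt a
    exact Continuous.comp_continuousOn (f := fun Y : EE => (Y 0 / Y 2, Y 1 / Y 2))
      (g := fun p : V => (!₂[-2 * p.1, -2 * p.2, p.1 ^ 2 + p.2 ^ 2] : EE)) (by fun_prop)
      ((a 0).prodMk (a 1))
  · intro Z s s0
    simp [mul_div_mul_left _ _ s0.ne']
  · have e : ∀ y, inner ℝ (T (x, 1)) (!₂[-2 * (T (y, 1) 0 / T (y, 1) 2), -2 * (T (y, 1) 1 / T (y, 1) 2),
        (T (y, 1) 0 / T (y, 1) 2) ^ 2 + (T (y, 1) 1 / T (y, 1) 2) ^ 2] : EE) = T (x, 1) 2 *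
        (((pr T x).1 - (pr T y).1) ^ 2 + ((pr T x).2 - (pr T y).2) ^ 2 -
          ((pr T x).1 ^ 2 + (pr T x).2 ^ 2)) := fun y => by
      have := (hO x hx).ne'
      rw [in3]; simp only [pr]
      generalize T (y, 1) 0 / T (y, 1) 2 = a
      generalize T (y, 1) 1 / T (y, 1) 2 = b
      simp; field_simp; ring
    rw [e, e, mul_le_mul_iff_right₀ (hO x hx), sub_le_sub_iff_right, ← mul_le_mul_iff_right₀ k0,
      iso x hx y hy, iso x hx z hz, Real.sqrt_le_sqrt_iff (by positivity)]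
  have E1 : 0 < E 2 := E1
  have e0 : E 0 = E 0 / E 2 * E 2 := by field_simp
  have e1 : E 1 = E 1 / E 2 * E 2 := by field_simp
  simp only [in3]
  generalize E 0 / E 2 = a at *
  generalize E 1 / E 2 = b at *
  refine ⟨!₂[0, 0, 1], LinearMap.mk₂ ℝ
    (fun Y X => (Y 0 - Y 2 * a) * (X 0 - X 2 * a) + (Y 1 - Y 2 * b) * (X 1 - X 2 * b))
    (fun _ _ _ => by simp; ring) (fun _ _ _ => by simp; ring) (fun _ _ _ => by simp; ring)
    (fun _ _ _ => by simp; ring), by simpa using E1, fun X Y => by simp; ring,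
    fun X => by
      rw [LinearMap.mk₂_apply]; linear_combination (X 0 - X 2 * a) * e0 + (X 1 - X 2 * b) * e1,
    fun Z h => ?_,
    fun X Y Y1 h1 h2 h3 => ?_⟩
  · rw [LinearMap.mk₂_apply] at h
    have a1 : Z 0 - Z 2 * a = 0 := by nlinarith [sq_nonneg (Z 0 - Z 2 * a), sq_nonneg (Z 1 - Z 2 * b)]
    have a2 : Z 1 - Z 2 * b = 0 := by nlinarith [sq_nonneg (Z 0 - Z 2 * a), sq_nonneg (Z 1 - Z 2 * b)]
    refine ⟨Z 2 / E 2, ?_⟩
    ext i
    fin_cases i <;> simp <;> field_simp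
    · linear_combination E 2 * a1 - Z 2 * e0
    · linear_combination E 2 * a2 - Z 2 * e1
  have Y1 : 0 < Y 2 := Y1
  rw [LinearMap.mk₂_apply] at h2 h3
  have y0 : Y 0 = Y 0 / Y 2 * Y 2 := by field_simp
  have y1 : Y 1 = Y 1 / Y 2 * Y 2 := by field_simp
  simp at h1 ⊢
  generalize Y 0 / Y 2 = u at *
  generalize Y 1 / Y 2 = v at *
  rw [y0, y1] at h2 h3
  have g2 : (u - a) * (X 0 - X 2 * a) + (v - b) * (X 1 - X 2 * b) ≤ 0 :=
    le_of_mul_le_mul_left (by linarith) Y1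
  have g3 : 0 < (u - a) ^ 2 + (v - b) ^ 2 := lt_of_mul_lt_mul_left (a := Y 2 ^ 2) (by linarith)
    (sq_nonneg _)
  nlinarith [mul_pos h1 g3]

theorem flip (c : Convex ℝ M) (h : ∀ x ∈ M, T (x, 1) 2 ≠ 0) :
    ∃ T' : (V × ℝ) ≃ₗ[ℝ] EE, pr T' = pr T ∧ ∀ x ∈ M, 0 < T' (x, 1) 2 := by
  have cT : Continuous T := T.toLinearMap.continuous_of_finiteDimensional
  by_cases p : ∀ x ∈ M, 0 < T (x, 1) 2
  · exact ⟨T, rfl, p⟩
  push Not at p
  obtain ⟨y, hy, a⟩ := p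
  refine ⟨T.trans (LinearEquiv.neg ℝ), by ext x <;> simp [pr, neg_div_neg_eq], fun x hx => ?_⟩
  by_contra n
  obtain ⟨z, hz, e⟩ := c.isPreconnected.intermediate_value hy hx (f := fun x => T (x, 1) 2)
    (by fun_prop) (show 0 ∈ _ from ⟨a, by simpa using n⟩)
  exact h z hz e

theorem onto (hO : ∀ x ∈ M, 0 < T (x, 1) 2) {S : Set V} (cS : Convex ℝ S) (ne : M.Nonempty)
    (o : IsOpen M) (im : MapsTo (pr T) M S) {O : Set EE} (sO : ∀ z ∈ S, !₂[z.1, z.2, 1] ∈ O)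
    (cl : closure (Cn M T) ∩ O ⊆ Cn M T) : SurjOn (pr T) M S := by
  have := (cS.isPreconnected.image (fun z : V => (!₂[z.1, z.2, 1] : EE))
    (by fun_prop)).subset_of_closure_inter_subset (Cn_open (T := T) o) (by
      obtain ⟨x, hx⟩ := ne
      have := hO x hx
      refine ⟨_, ⟨_, im hx, rfl⟩, x, hx, (T (x, 1) 2)⁻¹, by positivity, ?_⟩
      ext i
      fin_cases i <;> simp [pr] <;> field_simp) (by
      rintro _ ⟨a, z, hz, rfl⟩
      exact cl ⟨a, sO z hz⟩)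
  intro z hz
  obtain ⟨x, hx, s, s0, e⟩ := this ⟨z, hz, rfl⟩
  have e0 := congrArg (fun Z : EE => Z 0) e
  have e1 := congrArg (fun Z : EE => Z 1) e
  have e2 := congrArg (fun Z : EE => Z 2) e
  have := hO x hx
  simp at e0 e1 e2
  refine ⟨x, hx, ?_⟩
  ext <;> simp only [pr] <;> field_simp
  · linear_combination -T (x, 1) 2 * e0 + T (x, 1) 0 * e2
  · linear_combination -T (x, 1) 2 * e1 + T (x, 1) 1 * e2

theorem fin (h : Cls M d) (q : QM M d) (ns : NS M d) (ne : M.Nonempty) : ∃ (f : V → V) (k : ℝ), 0 < k ∧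
    ((BijOn f M univ ∧ ∀ x ∈ M, ∀ y ∈ M, k * d x y = √(((f x).1 - (f y).1) ^ 2 + ((f x).2 - (f y).2) ^ 2)) ∨
    (BijOn f M {z | z.1 ^ 2 + z.2 ^ 2 < 1} ∧ ∀ x ∈ M, ∀ y ∈ M, Real.cosh (k * d x y) =
      (1 - ((f x).1 * (f y).1 + (f x).2 * (f y).2)) /
        √((1 - ((f x).1 ^ 2 + (f x).2 ^ 2)) * (1 - ((f y).1 ^ 2 + (f y).2 ^ 2))))) := by
  obtain ⟨T, k, k0, ⟨a, b, -⟩ | ⟨a, b, -⟩ | ⟨a, -⟩⟩ := h
  · obtain ⟨T, e, p⟩ := flip q.cv a
    rw [← e] at b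
    refine ⟨pr T, k, k0, Or.inl ⟨⟨mapsTo_univ _ _, fun x hx y hy e => q.sep x hx y hy ?_,
      onto p convex_univ ne q.op (mapsTo_univ _ _) (fun z _ => by simp) (closedE q ns p k0 b)⟩, b⟩⟩
    simpa [e, k0.ne'] using b x hx y hy
  · obtain ⟨T', e, p⟩ := flip q.cv fun x hx => (a x hx).1
    rw [← e] at a b
    have W : ∀ x ∈ M, ∀ y ∈ M, Wk (-1) (T' (x, 1)) (T' (y, 1)) = T' (x, 1) 2 * T' (y, 1) 2 *
        (1 - ((pr T' x).1 * (pr T' y).1 + (pr T' x).2 * (pr T' y).2)) := fun x hx y hy => by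
      have := p x hx
      have := p y hy
      simp only [Wk, pr]; field_simp; ring
    have n1 : ∀ x ∈ M, 0 < 1 - ((pr T' x).1 ^ 2 + (pr T' x).2 ^ 2) := fun x hx => sub_pos.2 (a x hx).2
    refine ⟨pr T', k, k0, Or.inr ⟨⟨fun x hx => (a x hx).2, fun x hx y hy e => q.sep x hx y hy ?_,
      onto p ?_ ne q.op (fun x hx => (a x hx).2) (fun z hz => ?_) (closedK q ns (Or.inr rfl)
        (fun x hx => ⟨?_, Or.inr (p x hx)⟩) fun x hx y hy z hz => ?_)⟩, b⟩⟩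
    · have := b x hx y hy
      rw [e, Real.sqrt_mul_self (n1 y hy).le, ← sq, ← sq, div_self (n1 y hy).ne'] at this
      by_contra n
      exact (Real.one_lt_cosh.2 (mul_ne_zero k0.ne' n)).ne' this
    · intro x hx y hy s t s0 t0 st
      rw [mem_setOf_eq] at hx hy
      obtain rfl : t = 1 - s := by linarith
      simp only [mem_setOf_eq, Prod.fst_add, Prod.snd_add, Prod.smul_fst, Prod.smul_snd, smul_eq_mul]
      rcases s0.eq_or_lt with rfl | s1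
      · simpa using hy
      nlinarith [mul_nonneg (mul_nonneg s0 t0) (add_nonneg (sq_nonneg (x.1 - y.1)) (sq_nonneg (x.2 - y.2))),
        mul_pos s1 (sub_pos.2 hx), mul_nonneg t0 (sub_pos.2 hy).le]
    · rw [mem_setOf_eq] at hz
      exact ⟨by simp [Wk]; linarith, Or.inr (by simp)⟩
    · rw [W x hx x hx, ← sq, ← sq, ← sq]
      exact mul_pos (pow_pos (p x hx) 2) (n1 x hx)
    have e : ∀ y ∈ M, - -1 * Wk (-1) (T' (x, 1)) (T' (y, 1)) / √(Wk (-1) (T' (y, 1)) (T' (y, 1))) =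
        T' (x, 1) 2 * √(1 - ((pr T' x).1 ^ 2 + (pr T' x).2 ^ 2)) * Real.cosh (k * d x y) := fun y hy => by
      have := Real.sqrt_pos.2 (n1 x hx)
      have := Real.sqrt_pos.2 (n1 y hy)
      have := p y hy
      rw [b x hx y hy, W x hx y hy, W y hy y hy, ← sq, ← sq, ← sq, Real.sqrt_mul (sq_nonneg _),
        Real.sqrt_sq this.le, Real.sqrt_mul (n1 x hx).le]
      field_simp
    rw [e y hy, e z hz, mul_le_mul_iff_right₀ (mul_pos (p x hx) (Real.sqrt_pos.2 (n1 x hx))),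
      Real.cosh_le_cosh, abs_of_nonneg (mul_nonneg k0.le (q.nonneg hx hy)),
      abs_of_nonneg (mul_nonneg k0.le (q.nonneg hx hz)), mul_le_mul_iff_right₀ k0]
  exfalso
  have W : ∀ X Y, Wk 1 X Y = inner ℝ X Y := fun X Y => by rw [in3, Wk]; ring
  have nz : ∀ X : V × ℝ, X ≠ 0 → 0 < Wk 1 (T X) (T X) := fun X n => by
    rw [W]; exact real_inner_self_pos.2 (by simpa using n)
  have cl := closedK (T := T) q ns (Or.inl rfl) (fun x _ => ⟨nz _ (by simp), Or.inl rfl⟩)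
    fun x hx y hy z hz => by
      have p : 0 < ‖T (x, 1)‖ := by simp
      rw [← mul_le_mul_iff_right₀ k0, a x hx y hy, a x hx z hz, InnerProductGeometry.angle,
        InnerProductGeometry.angle, Real.strictAntiOn_arccos.le_iff_ge
          (abs_le.1 (abs_real_inner_div_norm_mul_norm_le_one _ _))
          (abs_le.1 (abs_real_inner_div_norm_mul_norm_le_one _ _))]
      simp only [W, real_inner_self_eq_norm_sq, Real.sqrt_sq (norm_nonneg _), neg_mul, one_mul, neg_div,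
        neg_le_neg_iff, mul_comm ‖T (x, 1)‖, ← div_div, div_le_div_iff_of_pos_right p]
  obtain ⟨x, hx⟩ := ne
  have cT : Continuous T := T.toLinearMap.continuous_of_finiteDimensional
  have := (isPreconnected_univ.image (fun t : ℝ => T ((1 - t) • x + t • (1, 0), 1 - t))
    (by fun_prop)).subset_of_closure_inter_subset (Cn_open (T := T) q.op)
    ⟨_, ⟨0, trivial, rfl⟩, x, hx, 1, one_pos, by simp⟩ (by
      rintro _ ⟨a, t, -, rfl⟩
      refine cl ⟨a, nz _ fun z => ?_, Or.inl rfl⟩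
      rw [Prod.mk_eq_zero] at z
      have e := z.1
      rw [z.2, ← sub_eq_zero.1 z.2] at e
      simp at e)
  obtain ⟨y, -, s, s0, e⟩ := this ⟨1, trivial, rfl⟩
  rw [← map_smul] at e
  have := congrArg Prod.snd (T.injective e)
  simp at this
  linarith

end Pool.Agent.H.MP_ec5bc9_gt
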