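import Pool.Agent.H.MP_ec5bc9_gt.I

set_option autoImplicit false

namespace Pool.Agent.H.MP_ec5bc9_gt

open Set Filter Topology Pool.Agent.H.MP_594704_gt Pool.Agent.H.MP_deb346_gt

structure E0 (d : PP → PP → ℝ) (L : ℝ) : Prop where
  sy : ∀ p q, d p q = d q p
  z0 : ∀ p q, d p q = 0 ↔ p = q
  tr : ∀ p q r, d p r ≤ d p q + d q r
  ct : Continuous fun p : {X : E3 // X ≠ 0} × {X : E3 // X ≠ 0} =>
    d (Projectivization.mk ℝ p.1.1 p.1.2) (Projectivization.mk ℝ p.2.1 p.2.2)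
  L0 : 0 < L
  ln : ∀ W : Submodule ℝ E3, Module.finrank ℝ W = 2 → ∃ f : AddCircle L → PP,
    (∀ a b, d (f a) (f b) = dist a b) ∧ range f = {p | p.submodule ≤ W}

structure E1 (d : PP → PP → ℝ) (L : ℝ) : Prop extends E0 d L where
  loc : ∀ (A : (V × ℝ) ≃L[ℝ] E3) (x0 : V), ∃ ρ > 0, CF (Metric.ball x0 ρ) (dc A d)

variable {d : PP → PP → ℝ} {L : ℝ} (A : (V × ℝ) ≃L[ℝ] E3)

theorem E0.cdc (h : E0 d L) : Continuous fun p : V × V => dc A d p.1 p.2 :=
  h.ct.comp (f := fun p : V × V => ((⟨A (p.1, 1), cv_ne A _⟩, ⟨A (p.2, 1), cv_ne A _⟩) :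
    {X : E3 // X ≠ 0} × {X : E3 // X ≠ 0})) (by fun_prop)

theorem E0.line (h : E0 d L) (x : V) {v : V} (hv : v ≠ 0) : ∃ φ : ℝ → AddCircle L,
    (∀ s t, dist (φ s) (φ t) = dc A d (x + s • v) (x + t • v)) ∧ Continuous φ ∧
    Function.Injective φ ∧ ∀ a b, a ∉ range φ → b ∉ range φ → a = b := by
  have rk := finrank_span_eq_card (li A x hv)
  rw [show range ![A (x, 1), A (v, 0)] = {A (x, 1), A (v, 0)} by simp [pair_comm],
    Fintype.card_fin] at rk
  obtain ⟨f, h1, h2⟩ := h.ln _ rk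
  have : ∀ s : ℝ, ∃ a, f a = cc A (x + s • v) := fun s => show _ ∈ range f by
    rw [h2]
    exact (Submodule.span_singleton_le_iff_mem _ _).2
      (Submodule.mem_span_pair.2 ⟨1, s, by simp [cv_add]⟩)
  choose φ hφ using this
  have e : ∀ s t, dist (φ s) (φ t) = dc A d (x + s • v) (x + t • v) := fun s t => by
    rw [← h1, hφ, hφ, dc]
  have fi : Function.Injective f := fun a b e => dist_eq_zero.1 (by rw [← h1, h.z0, e])
  have vn : A (v, 0) ≠ 0 := by simp [hv]
  have k : ∀ a, a ∉ range φ → f a = Projectivization.mk ℝ _ vn := fun a ha => by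
    have m := mem_range_self (f := f) a
    rw [h2] at m
    have r : (f a).rep ∈ (f a).submodule := by
      rw [(f a).submodule_eq]; exact Submodule.mem_span_singleton_self _
    obtain ⟨α, β, e⟩ := Submodule.mem_span_pair.1 (m r)
    by_cases a0 : α = 0
    · rw [a0, zero_smul, zero_add] at e
      have b0 : β ≠ 0 := fun z => (f a).rep_nonzero (by rw [← e, z, zero_smul])
      refine eq_mk vn ?_
      simpa [← e, smul_smul, b0] using Submodule.smul_mem _ β⁻¹ r
    refine absurd ⟨β / α, fi ?_⟩ ha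
    rw [hφ]
    refine (eq_mk _ ?_).symm
    have := Submodule.smul_mem _ α⁻¹ r
    rwa [← e, smul_add, smul_smul, smul_smul, inv_mul_cancel₀ a0, one_smul, ← div_eq_inv_mul,
      ← cv_add] at this
  refine ⟨φ, e, continuous_iff_continuousAt.2 fun t => tendsto_iff_dist_tendsto_zero.2 ?_,
    fun s t a => smul_left_injective ℝ hv (add_left_cancel (cc_inj A (by rw [← hφ, ← hφ, a]))),
    fun a b ha hb => fi (by rw [k a ha, k b hb])⟩
  simp only [e]
  exact Continuous.tendsto' ((h.cdc A).comp (f := fun s : ℝ => (x + s • v, x + t • v))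
    (by fun_prop)) _ _ ((h.z0 _ _).2 rfl)

theorem E0.qm (h : E0 d L) (x0 : V) : ∃ ρ > 0, QM (Metric.ball x0 ρ) (dc A d) := by
  have : ∀ᶠ p in 𝓝 (x0, x0), dc A d p.1 p.2 < L / 4 :=
    (h.cdc A).continuousAt.eventually (gt_mem_nhds (by
      show d _ _ < _
      rw [(h.z0 _ _).2 rfl]; linarith [h.L0]))
  obtain ⟨ρ, r0, hρ⟩ := Metric.eventually_nhds_iff.1 this
  refine ⟨ρ, r0, Metric.isOpen_ball, convex_ball _ _, fun _ _ => (h.z0 _ _).2 rfl,
    fun _ _ _ _ => h.sy _ _, fun _ _ _ _ e => cc_inj A ((h.z0 _ _).1 e),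
    fun _ _ _ _ _ _ => h.tr _ _ _, (h.cdc A).continuousOn, fun x hx z hz y hy => ?_⟩
  rw [segment_eq_image'] at hy
  obtain ⟨t, ht, rfl⟩ := hy
  by_cases hv : z - x = 0
  · simp [sub_eq_zero.1 hv, dc, (h.z0 _ _).2 rfl]
  obtain ⟨φ, e, c, i, -⟩ := h.line A x hv
  have := add_ac h.L0 c i (fun s hs => by
    rw [e]
    exact hρ (y := (_, _)) (max_lt ((convex_ball _ _).add_smul_sub_mem hx hz hs)
      (by simpa using hx))) ht
  simpa [e] using this

theorem E1.gl (h : E1 d L) :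
    ∃ α β γ : ℝ, ∀ x, hm (dc A d) x = qf (hm (dc A d) 0) α β γ x := by
  obtain ⟨ρ, r0, c⟩ := h.loc A 0
  obtain ⟨α, β, γ, hq⟩ := c.quad (Metric.mem_ball_self r0)
  generalize hm (dc A d) 0 = H at hq ⊢
  have an : ∀ H α β γ, AnalyticOnNhd ℝ (qf H α β γ) univ := fun H α β γ x _ => by
    have a1 : ∀ x : V, AnalyticAt ℝ Prod.fst x := fun _ => analyticAt_fst
    have a2 : ∀ x : V, AnalyticAt ℝ Prod.snd x := fun _ => analyticAt_snd
    unfold qf; fun_prop
  have cl : IsClopen {x | ∀ᶠ y in 𝓝 x, hm (dc A d) y = qf H α β γ y} := by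
    refine ⟨closure_subset_iff_isClosed.1 fun x hx => ?_, isOpen_setOf_eventually_nhds⟩
    obtain ⟨ρ, r0, c⟩ := h.loc A x
    obtain ⟨H', α', β', γ', hq'⟩ := c.quad' (Metric.mem_ball_self r0)
    obtain ⟨y, a, b⟩ := mem_closure_iff.1 hx _ Metric.isOpen_ball (Metric.mem_ball_self r0)
    have := (an H α β γ).eq_of_eventuallyEq (an H' α' β' γ') (z₀ := y) (by
      filter_upwards [b, Metric.isOpen_ball.mem_nhds a] with z e m
      rw [← e, hq' z m])
    rw [this]
    filter_upwards [Metric.ball_mem_nhds x r0] with z m using hq' z m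
  have := cl.eq_univ ⟨0, by filter_upwards [Metric.ball_mem_nhds 0 r0] with z m using hq z m⟩
  exact ⟨α, β, γ, fun x => Eventually.self_of_nhds (p := fun y => hm (dc A d) y = qf H α β γ y)
    (show x ∈ {x | ∀ᶠ y in 𝓝 x, hm (dc A d) y = qf H α β γ y} from this ▸ mem_univ x)⟩

theorem E1.LL (h : E1 d L) {H : ℝ × ℝ × ℝ} {α β γ : ℝ}
    (hq : ∀ x, hm (dc A d) x = qf H α β γ x) (x : V) {v : V} (hv : v ≠ 0) :
    0 < kp H α β γ ∧ √(kp H α β γ) * dc A d x (x + v) = Real.arccos (|om H α β γ x (x + v)| /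
      √(om H α β γ x x * om H α β γ (x + v) (x + v))) := by
  set D := dc A d
  set κ := kp H α β γ with hκ
  have pt : ∀ y, 0 < dl D y ∧ dt (hm D y) = dl D y ∧ N D y v ^ 2 = bf (gm D y) v v ∧ 0 < N D y v :=
    fun y => by
      obtain ⟨ρ, r0, c⟩ := h.loc A y
      have m := Metric.mem_ball_self (x := y) r0
      exact ⟨c.dl_pos m, c.dt_hm m, c.N_sq m v, c.N_pos m hv⟩
  set c0 := om H α β γ x x with h0
  set c1 := om H α β γ x (x + v) - c0 with h1
  set c2 := om H α β γ (x + v) (x + v) - 2 * om H α β γ x (x + v) + c0 with h2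
  set A0 := dl D x * N D x v with hA0
  have hA : 0 < A0 := mul_pos (pt x).1 (pt x).2.2.2
  have A2 : A0 ^ 2 = bf (qf H α β γ x) v v := by rw [← hq x, bf_hm, mul_pow, (pt x).2.2.1]
  have dq : ∀ t : ℝ, dl D (x + t • v) = c0 + 2 * c1 * t + c2 * t ^ 2 := fun t => by
    rw [← (pt _).2.1, hq, h2, h1, h0]
    simp only [dt, qf, om, Prod.fst_add, Prod.snd_add, Prod.smul_fst, Prod.smul_snd, smul_eq_mul]
    ring
  have qp : ∀ t : ℝ, 0 < c0 + 2 * c1 * t + c2 * t ^ 2 := fun t => dq t ▸ (pt _).1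
  have hk : c0 * c2 - c1 ^ 2 = κ * A0 ^ 2 := by
    rw [A2, h2, h1, h0, hκ]
    simp only [bf, qf, om, kp, dt, Prod.fst_add, Prod.snd_add]
    ring
  have sp : ∀ t : ℝ, N D (x + t • v) v = A0 / (c0 + 2 * c1 * t + c2 * t ^ 2) := fun t => by
    rw [eq_div_iff (qp t).ne', ← dq]
    refine (pow_left_inj₀ (mul_pos (pt _).2.2.2 (pt _).1).le hA.le two_ne_zero).1 ?_
    rw [A2, mul_pow, (pt _).2.2.1, mul_comm, ← bf_hm, hq]
    simp only [bf, qf, Prod.fst_add, Prod.snd_add, Prod.smul_fst, Prod.smul_snd, smul_eq_mul]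
    ring
  have cg : Continuous fun t : ℝ => A0 / (c0 + 2 * c1 * t + c2 * t ^ 2) :=
    continuous_const.div (by fun_prop) fun t => (qp t).ne'
  set θ := fun s => ∫ t in (0:ℝ)..s, A0 / (c0 + 2 * c1 * t + c2 * t ^ 2)
  have dθ : ∀ s, HasDerivAt θ (A0 / (c0 + 2 * c1 * s + c2 * s ^ 2)) s := fun s =>
    (cg.integral_hasStrictDerivAt 0 s).hasDerivAt
  have cθ : Continuous θ := continuous_iff_continuousAt.2 fun s => (dθ s).continuousAt
  have mo : StrictMono θ := strictMono_of_hasDerivAt_pos dθ fun s => div_pos hA (qp s)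
  have θ0 : θ 0 = 0 := by simp [θ]
  obtain ⟨φ, e, -, i, ms⟩ := h.line A x hv
  obtain ⟨σ, s1, s2⟩ := lift2 h.L0 (φ := φ) cθ mo fun s0 => by
    obtain ⟨ρ, r0, c⟩ := h.loc A (x + s0 • v)
    have ev := c.ev (Metric.mem_ball_self r0)
      (Continuous.tendsto (f := fun s : ℝ => x + s • v) (by fun_prop) s0)
    have k : ∀ s t : ℝ, x + s • v ∈ Metric.ball (x + s0 • v) ρ →
        x + t • v ∈ Metric.ball (x + s0 • v) ρ → s ≤ t → D (x + s • v) (x + t • v) = θ t - θ s := by
      intro s t a b st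
      have e1 : ∀ τ : ℝ, x + s • v + τ • v = x + (s + τ) • v := fun τ => by module
      have b' : x + s • v + (t - s) • v ∈ Metric.ball (x + s0 • v) ρ := by
        rwa [e1, add_sub_cancel]
      have := eq_of_has_deriv_right_eq (g := fun τ => θ (s + τ) - θ s)
        (fun τ hτ => c.arc_deriv a hτ.1 (c.mem0 a b' hτ.1 hτ.2.le))
        (fun τ _ => by
          rw [e1, sp]
          exact (((dθ (s + τ)).comp_const_add s τ).sub_const _).hasDerivWithinAt)
        (c.arc_cont a a b') (by fun_prop) (by simpa using c.refl _ a) (t - s)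
        ⟨by linarith, le_rfl⟩
      rwa [e1, add_sub_cancel] at this
    filter_upwards [tendsto_fst.eventually ev, tendsto_snd.eventually ev] with p a b
    rw [e]
    show D _ _ = _
    rcases le_total p.1 p.2 with st | st
    · rw [k _ _ a b st, abs_sub_comm, abs_of_nonneg (sub_nonneg.2 (mo.monotone st))]
    · rw [show D _ _ = D _ _ from c.symm _ a _ b, k _ _ b a st, abs_of_nonneg (sub_nonneg.2 (mo.monotone st))]
  have L0 := h.L0
  have b1 : ∀ s t, θ t - θ s < L := fun s t => by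
    by_contra hn
    push Not at hn
    have st : s ≤ t := mo.le_iff_le.1 (by linarith)
    obtain ⟨u, -, hu⟩ := intermediate_value_Icc st cθ.continuousOn
      (show θ s + L ∈ _ from ⟨by linarith, by linarith⟩)
    have := s2 u s
    rw [hu, add_sub_cancel_left] at this
    have z : ((σ * L : ℝ) : AddCircle L) = 0 := by
      rcases abs_eq_abs.1 (s1.trans abs_one.symm) with q | q <;> simp [q]
    rw [i (sub_eq_zero.1 (this.trans z))] at hu
    linarith
  have q0 : 0 < c0 := by simpa using qp 0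
  have k0 : 0 < κ := by
    by_contra hn
    push Not at hn
    have n : c0 * c2 - c1 ^ 2 ≤ 0 := hk ▸ mul_nonpos_of_nonpos_of_nonneg hn (sq_nonneg _)
    have n2 := discrim_le_zero (a := c2) (b := 2 * c1) (c := c0) fun t => by nlinarith [qp t]
    have z : c2 = 0 := by
      by_contra z
      have := qp (-c1 / c2)
      rw [show c0 + 2 * c1 * (-c1 / c2) + c2 * (-c1 / c2) ^ 2 = (c0 * c2 - c1 ^ 2) / c2 by
        field_simp; ring, show c0 * c2 - c1 ^ 2 = 0 by rw [discrim] at n2; linarith] at this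
      simp at this
    have z1 : c1 = 0 := by
      rw [discrim, z] at n2
      exact pow_eq_zero_iff two_ne_zero |>.1 (le_antisymm (by nlinarith) (sq_nonneg _))
    have := b1 0 (L * c0 / A0)
    simp only [θ, z, z1, mul_zero, zero_mul, add_zero, intervalIntegral.integral_const,
      smul_eq_mul, sub_zero] at this
    rw [show L * c0 / A0 * (A0 / c0) = L by field_simp] at this
    exact lt_irrefl _ this
  have sk : 0 < √κ := Real.sqrt_pos.2 k0
  have c20 : 0 < c2 := by nlinarith [mul_pos k0 (pow_pos hA 2), sq_nonneg c1]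
  set P := fun t => Real.arctan ((c1 + c2 * t) / (√κ * A0))
  have eθ : ∀ s, √κ * θ s = P s - P 0 := fun s => by
    have dd := fun t => (dθ t).sub (at_deriv k0 hA q0 hk (qp t))
    have := is_const_of_deriv_eq_zero (fun t => (dd t).differentiableAt)
      (fun t => by rw [(dd t).deriv, sub_self]) s 0
    simp only [Pi.sub_apply, θ0, mul_zero, add_zero, sub_self, zero_div, sub_eq_zero] at this
    simp only [this, P, mul_zero, add_zero]
    field_simp
  have P1 : ∀ s, P s < Real.pi / 2 := fun s => Real.arctan_lt_pi_div_two _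
  have P2 : ∀ s, -(Real.pi / 2) < P s := fun s => Real.neg_pi_div_two_lt_arctan _
  have le1 : Real.pi ≤ √κ * L := by
    have t1 : Tendsto P atTop (𝓝 (Real.pi / 2)) :=
      (Real.tendsto_arctan_atTop.mono_right nhdsWithin_le_nhds).comp
        ((tendsto_atTop_add_const_left _ _ (tendsto_id.const_mul_atTop c20)).atTop_div_const
          (mul_pos sk hA))
    have t2 : Tendsto P atBot (𝓝 (-(Real.pi / 2))) :=
      (Real.tendsto_arctan_atBot.mono_right nhdsWithin_le_nhds).comp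
        ((tendsto_atBot_add_const_left _ _ (tendsto_id.const_mul_atBot c20)).atBot_div_const
          (mul_pos sk hA))
    have := le_of_tendsto' (t1.sub (t2.comp tendsto_neg_atTop_atBot)) (b := √κ * L) fun t => by
      have := mul_lt_mul_of_pos_left (b1 (-t) t) sk
      simp only [Function.comp]
      linarith [eθ t, eθ (-t)]
    linarith
  have le2 : √κ * L ≤ Real.pi := by
    by_contra hn
    push Not at hn
    have nr : ∀ t : ℝ, Real.pi / 2 - P 0 ≤ √κ * t → √κ * t ≤ √κ * L - Real.pi / 2 - P 0 →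
        φ 0 + (σ * t : ℝ) ∉ range φ := by
      rintro t a b ⟨s, hs⟩
      have := s2 s 0
      rw [hs, add_sub_cancel_left, θ0, sub_zero, ← sub_eq_zero, ← AddCircle.coe_sub,
        ← mul_sub] at this
      have p1 : 0 < t - θ s := (mul_pos_iff_of_pos_left sk).1 (by
        linarith [eθ s, P1 s] : 0 < √κ * (t - θ s))
      have p2 : t - θ s < L := lt_of_mul_lt_mul_left (by linarith [eθ s, P2 s]) sk.le
      have := ac_ne L0 this (by rwa [abs_mul, s1, one_mul, abs_of_pos p1])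
      rw [← abs_eq_zero, abs_mul, s1, one_mul, abs_of_pos p1] at this
      linarith
    have e1 : ∀ u, √κ * (u / √κ) = u := fun u => mul_div_cancel₀ _ sk.ne'
    have := ms _ _ (nr ((Real.pi / 2 - P 0) / √κ) (e1 _).ge (by rw [e1]; linarith))
      (nr ((√κ * L - Real.pi / 2 - P 0) / √κ) (by rw [e1]; linarith) (e1 _).le)
    rw [add_right_inj, eq_comm, ← sub_eq_zero, ← AddCircle.coe_sub, ← mul_sub, ← sub_div] at this
    have p1 : 0 < (√κ * L - Real.pi / 2 - P 0 - (Real.pi / 2 - P 0)) / √κ :=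
      div_pos (by linarith) sk
    have := ac_ne L0 this (by
      rw [abs_mul, s1, one_mul, abs_of_pos p1, div_lt_iff₀ sk]; linarith [Real.pi_pos])
    rw [← abs_eq_zero, abs_mul, s1, one_mul, abs_of_pos p1] at this
    linarith
  refine ⟨k0, ?_⟩
  have c := cos_at (mul_pos sk hA) q0 (c1 := c1) (c2 := c2) (by
    rw [mul_pow, Real.sq_sqrt k0.le]; exact hk)
  have e1 := eθ 1
  simp only [P, mul_one, mul_zero, add_zero] at e1
  rw [← e1, show c0 + c1 = om H α β γ x (x + v) by rw [h1]; ring,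
    show c0 + 2 * c1 + c2 = om H α β γ (x + v) (x + v) by rw [h1, h2]; ring] at c
  rw [← abs_of_nonneg (Real.sqrt_nonneg (c0 * _)), ← abs_div, ← c]
  have t0 : 0 < θ 1 := θ0 ▸ mo one_pos
  have t1 : θ 1 < L := by simpa [θ0] using b1 0 1
  have nd : D x (x + v) = ‖(θ 1 : AddCircle L)‖ := by
    have := e 1 0
    rw [dist_eq_norm, s2, θ0, sub_zero, one_smul, zero_smul, add_zero] at this
    rw [show D x (x + v) = dc A d (x + v) x from h.sy _ _, ← this]
    rcases abs_eq_abs.1 (s1.trans abs_one.symm) with q | q <;> simp [q]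
  have pp := Real.pi_pos
  rcases le_total (θ 1) (L / 2) with q | q
  · have q2 := mul_le_mul_of_nonneg_left q sk.le
    have q3 := mul_pos sk t0
    rw [nd, (AddCircle.norm_coe_eq_abs_iff L L0.ne').2 (by rwa [abs_of_pos t0, abs_of_pos L0]),
      abs_of_pos t0, abs_of_nonneg (Real.cos_nonneg_of_mem_Icc ⟨by linarith, by linarith⟩),
      Real.arccos_cos q3.le (by linarith)]
  · have q2 := mul_le_mul_of_nonneg_left q sk.le
    have q3 := mul_lt_mul_of_pos_left t1 sk
    rw [nd, show (θ 1 : AddCircle L) = (θ 1 - L : ℝ) by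
      rw [AddCircle.coe_sub, AddCircle.coe_period, sub_zero],
      (AddCircle.norm_coe_eq_abs_iff L L0.ne').2 (by
        rw [abs_of_neg (by linarith), abs_of_pos L0]; linarith), abs_of_neg (by linarith),
      abs_of_nonpos (Real.cos_nonpos_of_pi_div_two_le_of_le (by linarith) (by linarith)),
      ← Real.cos_pi_sub, Real.arccos_cos (by linarith) (by linarith)]
    linarith

theorem E1.main (h : E1 d L) : ∃ (T : E3 ≃ₗ[ℝ] EE) (k : ℝ), 0 < k ∧
    ∀ (X Y : E3) (hX : X ≠ 0) (hY : Y ≠ 0),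
      k * d (Projectivization.mk ℝ X hX) (Projectivization.mk ℝ Y hY) =
        Real.arccos (|inner ℝ (T X) (T Y)| / (‖T X‖ * ‖T Y‖)) := by
  let A : (V × ℝ) ≃L[ℝ] E3 := ContinuousLinearEquiv.ofFinrankEq (by simp)
  obtain ⟨α, β, γ, hq⟩ := h.gl A
  obtain ⟨ρ, r0, c⟩ := h.loc A 0
  have h0 := Metric.mem_ball_self (x := (0:V)) r0
  obtain ⟨l, -, oW⟩ := c.nf h0 α β γ
  have δ0 := c.dl_pos h0
  have k0 := (h.LL A hq 0 e10).1
  have sk := Real.sqrt_pos.2 k0
  obtain ⟨T0, S, hS, hT⟩ := mkT (g := gm (dc A d) 0) (fun w hw => by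
    rw [← c.N_sq h0]; exact pow_pos (c.N_pos h0 hw) 2) l sk
  rw [Real.sq_sqrt k0.le] at hS
  have ip : ∀ x y, om (hm (dc A d) 0) α β γ x y =
      dl (dc A d) 0 * inner ℝ (T0 (x, 1)) (T0 (y, 1)) := fun x y => by
    rw [oW, hT, hT, inner3, ← hS]; simp only [dot]; ring
  have f1 : ∀ x y, √(kp (hm (dc A d) 0) α β γ) * dc A d x y =
      Real.arccos (|inner ℝ (T0 (x, 1)) (T0 (y, 1))| / (‖T0 (x, 1)‖ * ‖T0 (y, 1)‖)) := fun x y => by
    have nx : 0 < ‖T0 (x, 1)‖ := by simp
    by_cases e : y - x = 0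
    · rw [sub_eq_zero.1 e, real_inner_self_eq_norm_sq, abs_of_nonneg (sq_nonneg _), sq,
        div_self (by positivity), Real.arccos_one, dc, (h.z0 _ _).2 rfl, mul_zero]
    have := (h.LL A hq x e).2
    rw [add_sub_cancel, ip, ip, ip, real_inner_self_eq_norm_sq, real_inner_self_eq_norm_sq,
      show ∀ δ a b : ℝ, δ * a ^ 2 * (δ * b ^ 2) = (δ * (a * b)) ^ 2 from fun _ _ _ => by ring,
      Real.sqrt_sq (by positivity), abs_mul, abs_of_pos δ0, mul_div_mul_left _ _ δ0.ne'] at this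
    exact this
  set T := A.symm.toLinearEquiv.trans T0
  have f2 : ∀ (X : E3) (hX : X ≠ 0), (A.symm X).2 ≠ 0 → ∃ (x : V) (s : ℝ), s ≠ 0 ∧
      Projectivization.mk ℝ X hX = cc A x ∧ T X = s • T0 (x, 1) := fun X hX n => by
    have e : A.symm X = (A.symm X).2 • (((A.symm X).2⁻¹ • (A.symm X).1, 1) : V × ℝ) := by
      simp [smul_smul, n]
    refine ⟨(A.symm X).2⁻¹ • (A.symm X).1, _, n, (Projectivization.mk_eq_mk_iff' ℝ _ _ _ _).2
      ⟨(A.symm X).2, ?_⟩, ?_⟩
    · rw [← map_smul, ← e]; simp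
    · rw [← map_smul, ← e]; rfl
  refine ⟨T, _, sk, fun X Y hX hY => ?_⟩
  set e := A (0, 1)
  have ev : ∀ X : E3, ∀ᶠ ε in 𝓝[>] (0:ℝ), (A.symm (X + ε • e)).2 ≠ 0 := fun X => by
    simpa [e] using ev_ne (A.symm X).2 1 one_ne_zero
  have tt : ∀ X : E3, Tendsto (fun ε : ℝ => X + ε • e) (𝓝[>] 0) (𝓝 X) := fun X => t_sm X e
  classical
  let u : (X : E3) → X ≠ 0 → ℝ → {X : E3 // X ≠ 0} := fun X hX ε =>
    if n : X + ε • e ≠ 0 then ⟨_, n⟩ else ⟨X, hX⟩
  have eu : ∀ X hX, ∀ᶠ ε in 𝓝[>] (0:ℝ), (u X hX ε).1 = X + ε • e := fun X hX =>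
    ((tt X).eventually_ne hX).mono fun ε n => by simp [u, n]
  have tu : ∀ X hX, Tendsto (u X hX) (𝓝[>] 0) (𝓝 ⟨X, hX⟩) := fun X hX =>
    tendsto_subtype_rng.2 ((tt X).congr' ((eu X hX).mono fun _ a => a.symm))
  have cT : Continuous T := T.toLinearMap.continuous_of_finiteDimensional
  have tT := fun X => (cT.tendsto X).comp (tt X)
  have nX : 0 < ‖T X‖ := by simpa using hX
  have nY : 0 < ‖T Y‖ := by simpa using hY
  refine tendsto_nhds_unique_of_eventuallyEq
    (((h.ct.tendsto (⟨X, hX⟩, ⟨Y, hY⟩)).comp ((tu X hX).prodMk_nhds (tu Y hY))).const_mul _)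
    ((Real.continuous_arccos.tendsto _).comp (((tT X).inner (𝕜 := ℝ) (tT Y)).abs.div
      ((tT X).norm.mul (tT Y).norm) (by positivity))) ?_
  filter_upwards [eu X hX, eu Y hY, ev X, ev Y] with ε a b p q
  simp only [Function.comp, Pi.div_apply]
  rw [← a] at p ⊢
  rw [← b] at q ⊢
  obtain ⟨x, s, s0, e1, e2⟩ := f2 _ (u X hX ε).2 p
  obtain ⟨y, t, t0, e3, e4⟩ := f2 _ (u Y hY ε).2 q
  rw [e1, e2, e3, e4, show d (cc A x) (cc A y) = dc A d x y from rfl, f1, real_inner_smul_left, real_inner_smul_right, norm_smul, norm_smul,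
    abs_mul, abs_mul, Real.norm_eq_abs, Real.norm_eq_abs]
  have := abs_pos.2 s0
  have := abs_pos.2 t0
  congr 1
  field_simp

end Pool.Agent.H.MP_ec5bc9_gt
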