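import Pool.Agent.H.MP_ec5bc9_gt.J

set_option autoImplicit false

namespace Pool.Agent.H.MP_ec5bc9_gt

open Set Filter Topology Pool.Agent.H.MP_594704_gt Pool.Agent.H.MP_deb346_gt

theorem cont_of {X : Type*} [TopologicalSpace X] {M : Set X} {d : X → X → ℝ}
    (rf : ∀ x ∈ M, d x x = 0) (sy : ∀ x ∈ M, ∀ y ∈ M, d x y = d y x)
    (tr : ∀ x ∈ M, ∀ y ∈ M, ∀ z ∈ M, d x z ≤ d x y + d y z)
    (b : ∀ x ∈ M, ∀ r > 0, {y | y ∈ M ∧ d x y < r} ∈ 𝓝[M] x) :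
    ContinuousOn (fun p : X × X => d p.1 p.2) (M ×ˢ M) := by
  rintro ⟨x, y⟩ ⟨hx, hy⟩
  rw [ContinuousWithinAt, nhdsWithin_prod_eq]
  refine Metric.tendsto_nhds.2 fun r r0 => ?_
  filter_upwards [prod_mem_prod (b x hx _ (half_pos r0)) (b y hy _ (half_pos r0))] with ⟨u, v⟩ ⟨a, c⟩
  rw [Real.dist_eq, abs_lt]
  have := rf x hx
  constructor <;> linarith [a.2, c.2, tr x hx u a.1 y hy, tr u a.1 v c.1 y hy, sy y hy v c.1,
    tr u a.1 x hx v c.1, tr x hx y hy v c.1, sy x hx u a.1]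

theorem str_of {X : Type*} [AddCommGroup X] [Module ℝ X] {M : Set X} {d : X → X → ℝ}
    (sp : ∀ x ∈ M, ∀ y ∈ M, d x y = 0 → x = y) (sy : ∀ x ∈ M, ∀ y ∈ M, d x y = d y x)
    (sg : ∀ x ∈ M, ∀ z ∈ M, ∀ y ∈ segment ℝ x z, d x y + d y z = d x z) {x y z : X} (hx : x ∈ M)
    (hy : y ∈ M) (hz : z ∈ M) (c : Collinear ℝ {x, y, z}) (e : d x y + d y z = d x z) :
    y ∈ segment ℝ x z := by
  rcases c.wbtw_or_wbtw_or_wbtw with w | w | w
  · exact w.mem_segment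
  · rw [sp y hy z hz (by linarith [sg y hy x hx z w.mem_segment, sy x hx y hy, sy x hx z hz])]
    exact right_mem_segment _ _ _
  · rw [← sp x hx y hy (by linarith [sg z hz y hy x w.mem_segment, sy z hz y hy, sy x hx z hz])]
    exact left_mem_segment _ _ _

theorem mkP (a b c : V) (a0 b0 c0 : ℝ) : ∃ P : QP, ∀ X, ev P X =
    (dot a X + a0) * (dot c X + c0) - (dot b X + b0) ^ 2 :=
  ⟨(a0 * c0 - b0 ^ 2, a0 • c + c0 • a - (2 * b0) • b, a.1 * c.1 - b.1 ^ 2,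
    (a.1 * c.2 + a.2 * c.1) / 2 - b.1 * b.2, a.2 * c.2 - b.2 ^ 2), fun X => by
      simp [ev, dot, bf]; ring⟩

theorem par (a b c : V) (D : b.1 * c.2 - b.2 * c.1 ≠ 0) : ∃ P : QP, (∃ Z, 0 < ev P Z) ∧
    (∃ Z, ev P Z < 0) ∧ (∀ X, ev P X = 0 ↔ ∃ t : ℝ, a + t • b + t ^ 2 • c = X) ∧
    ∀ X w, w ≠ 0 → ¬ ∀ᶠ s in 𝓝[>] (0:ℝ), ev P (X + s • w) = 0 := by
  set β : V := (b.1 * c.2 - b.2 * c.1)⁻¹ • (c.2, -c.1) with hβ
  set γ : V := (b.1 * c.2 - b.2 * c.1)⁻¹ • (-b.2, b.1) with hγ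
  have e : ∀ w, w = dot β w • b + dot γ w • c := fun w => by
    ext <;> simp [hβ, hγ, dot] <;> field_simp <;> ring
  have b1 : dot β b = 1 := by simp [hβ, dot]; field_simp; ring
  have b2 : dot β c = 0 := by simp [hβ, dot]; ring
  have c1 : dot γ b = 0 := by simp [hγ, dot]; ring
  have c2 : dot γ c = 1 := by simp [hγ, dot]; field_simp; ring
  clear_value β γ
  obtain ⟨P, hP⟩ := mkP γ β 0 (-dot γ a) (-dot β a) 1
  have z : ∀ X, dot 0 X = 0 := fun X => by simp [dot]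
  simp only [z] at hP
  refine ⟨P, ⟨a + c, by simp [hP, dot_add, b2, c2]⟩, ⟨a + b, by simp [hP, dot_add, b1, c1]⟩,
    fun X => ⟨fun h => ⟨dot β (X - a), ?_⟩, ?_⟩, fun X w w0 h => ?_⟩
  · rw [show dot β (X - a) ^ 2 = dot γ (X - a) by rw [hP] at h; simp only [dot_sub]; linarith,
      add_assoc, ← e, add_sub_cancel]
  · rintro ⟨t, rfl⟩
    simp only [hP, dot_add, dot_smul, b1, b2, c1, c2]; ring
  obtain ⟨u, u0, hu⟩ := mem_nhdsGT_iff_exists_Ioo_subset.1 h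
  have u0 : 0 < u := u0
  have h1 := hu (show u / 4 ∈ _ from ⟨by linarith, by linarith⟩)
  have h2 := hu (show u / 2 ∈ _ from ⟨by linarith, by linarith⟩)
  have h3 := hu (show 3 * u / 4 ∈ _ from ⟨by linarith, by linarith⟩)
  simp only [mem_setOf_eq, hP, dot_add, dot_smul] at h1 h2 h3
  have k1 : dot β w = 0 := by
    have : (u * dot β w) ^ 2 = 0 := by linear_combination -8 * (h1 - 2 * h2 + h3)
    simpa [u0.ne'] using this
  have k2 : dot γ w = 0 := mul_left_cancel₀ u0.ne' (by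
    rw [k1] at h1 h2; linear_combination 4 * (h2 - h1))
  exact w0 (by rw [e w, k1, k2]; simp)

abbrev E2 := EuclideanSpace ℝ (Fin 2)

theorem affine (M : Set E2) (d : E2 → E2 → ℝ) (o : IsOpen M) (cv : Convex ℝ M) (ne : M.Nonempty)
    (z0 : ∀ x ∈ M, ∀ y ∈ M, (d x y = 0 ↔ x = y)) (sy : ∀ x ∈ M, ∀ y ∈ M, d x y = d y x)
    (tr : ∀ x ∈ M, ∀ y ∈ M, ∀ z ∈ M, d x z ≤ d x y + d y z)
    (bs : ∀ x ∈ M, Filter.HasBasis (nhdsWithin x M) (fun r : ℝ => 0 < r)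
      (fun r => {y | y ∈ M ∧ d x y < r}))
    (sg : ∀ x ∈ M, ∀ y ∈ M, ∀ z ∈ M, y ∈ segment ℝ x z → d x z = d x y + d y z)
    (st : ∀ x ∈ M, ∀ y ∈ M, ∀ z ∈ M, ¬ Collinear ℝ ({x, y, z} : Set E2) → d x z < d x y + d y z)
    (cn : ∀ p ∈ M, ∀ q ∈ M, p ≠ q → ∀ F ∈ M, F ∉ affineSpan ℝ {p, q} →
      ∃ a b c : E2, LinearIndependent ℝ ![b, c] ∧
        {X | X ∈ M ∧ d X F = sInf ((fun Y => d X Y) '' ((affineSpan ℝ {p, q} : Set E2) ∩ M))}
          = M ∩ Set.range (fun t : ℝ => a + t • b + (t ^ 2) • c)) :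
    ∃ c : ℝ, 0 < c ∧ ∃ f : E2 → E2,
      (Set.BijOn f M Set.univ ∧ ∀ x ∈ M, ∀ y ∈ M, c * d x y = dist (f x) (f y)) ∨
      (Set.BijOn f M (Metric.ball 0 1) ∧ ∀ x ∈ M, ∀ y ∈ M,
        Real.cosh (c * d x y) = (1 - inner ℝ (f x) (f y)) /
          Real.sqrt ((1 - ‖f x‖ ^ 2) * (1 - ‖f y‖ ^ 2))) := by
  let φ : E2 ≃L[ℝ] V := (EuclideanSpace.equiv (Fin 2) ℝ).trans (ContinuousLinearEquiv.finTwoArrow ℝ ℝ)
  have e0 : ∀ x, φ.symm x 0 = x.1 := fun _ => rfl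
  have e1 : ∀ x, φ.symm x 1 = x.2 := fun _ => rfl
  have f0 : ∀ x, (φ x).1 = x 0 := fun _ => rfl
  have f1 : ∀ x, (φ x).2 = x 1 := fun _ => rfl
  clear_value φ
  have sg' : ∀ x ∈ M, ∀ z ∈ M, ∀ y ∈ segment ℝ x z, d x y + d y z = d x z := fun x a z b y c =>
    (sg x a y (cv.segment_subset a b c) z b c).symm
  set M' := φ.symm ⁻¹' M with hM
  set d' := fun x y => d (φ.symm x) (φ.symm y) with hd
  have q : QM M' d' :=
    { op := o.preimage φ.symm.continuous, cv := cv.linear_preimage φ.symm.toLinearMap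
      refl := fun x a => (z0 _ a _ a).2 rfl, symm := fun x a y b => sy _ a _ b
      sep := fun x a y b e => φ.symm.injective ((z0 _ a _ b).1 e)
      tri := fun x a y b z c => tr _ a _ b _ c
      cont := (cont_of (fun x a => (z0 _ a _ a).2 rfl) sy tr fun x a r r0 =>
        (bs x a).mem_of_mem r0).comp (f := fun p : V × V => (φ.symm p.1, φ.symm p.2)) (by fun_prop)
          fun p hp => hp
      seg := fun x a z b y ⟨s, t, s0, t0, e, h⟩ => sg' _ a _ b _ ⟨s, t, s0, t0, e, by simp [← h]⟩ }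
  have cn' : ∀ l, ∀ p ∈ M', ∀ F ∈ M', dot l F ≠ dot l p → ∃ P : QP, (∃ Z, 0 < ev P Z) ∧
      (∃ Z, ev P Z < 0) ∧ (∀ X ∈ M', d' X F = fl M' d' l p X ↔ ev P X = 0) ∧
      ∀ X w, w ≠ 0 → ¬ ∀ᶠ s in 𝓝[>] (0:ℝ), ev P (X + s • w) = 0 := fun l p hp F hF n => by
    have v0 : ((l.2, -l.1) : V) ≠ 0 := fun z => n (by
      rw [Prod.mk_eq_zero, neg_eq_zero] at z; simp [dot, z.1, z.2])
    obtain ⟨t, m, t1⟩ := ((q.ev hp (t0 p (l.2, -l.1))).and self_mem_nhdsWithin).exists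
    have t1 : 0 < t := t1
    have L : ∀ Y, φ.symm Y ∈ affineSpan ℝ {φ.symm p, φ.symm (p + t • (l.2, -l.1))} ↔
        dot l Y = dot l p := fun Y => by
      rw [mem_affineSpan_pair_iff_exists_lineMap_eq]
      simp only [AffineMap.lineMap_apply, vsub_eq_sub, vadd_eq_add, ← map_sub, ← map_smul, ← map_add,
        φ.symm.injective.eq_iff, add_sub_cancel_left]
      constructor
      · rintro ⟨r, rfl⟩
        simp [dot]; ring
      · intro e
        obtain ⟨s, rfl⟩ := line_par (e := p) v0 Y (by simpa using e)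
        exact ⟨s / t, by rw [smul_smul, div_mul_cancel₀ _ t1.ne', add_comm]⟩
    obtain ⟨a, b, c, li, h⟩ := cn _ hp _ m (fun z => smul_ne_zero t1.ne' v0
      (left_eq_add.1 (φ.symm.injective z))) _ hF (by rwa [L])
    rw [LinearIndependent.pair_iff] at li
    obtain ⟨P, p1, p2, p3, p4⟩ := par (φ a) (φ b) (φ c) (fun D => by
      simp only [f0, f1] at D
      have k1 := li (c 1) (-b 1) (by ext i; fin_cases i <;> simp <;> linarith)
      have k2 := li (c 0) (-b 0) (by ext i; fin_cases i <;> simp <;> linarith)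
      have k3 := li 1 0 (by ext i; fin_cases i <;> simp <;> linarith [k1.2, k2.2])
      simpa using k3.1)
    refine ⟨P, p1, p2, fun X hX => ?_, p4⟩
    have := Set.ext_iff.1 h (φ.symm X)
    simp only [mem_setOf_eq, mem_inter_iff, show φ.symm X ∈ M from hX, true_and, mem_range] at this
    rw [p3, fl, show d' X '' {Y | Y ∈ M' ∧ dot l Y = dot l p} = (fun Y => d (φ.symm X) Y) ''
      ((affineSpan ℝ {φ.symm p, φ.symm (p + t • (l.2, -l.1))} : Set E2) ∩ M) from ?_]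
    · refine this.trans (exists_congr fun t => ?_)
      rw [← φ.injective.eq_iff]; simp
    ext r
    constructor
    · rintro ⟨Y, ⟨a, b⟩, rfl⟩
      exact ⟨_, ⟨(L Y).2 b, a⟩, rfl⟩
    · rintro ⟨Y, ⟨a, b⟩, rfl⟩
      refine ⟨φ Y, ⟨by simpa [hM] using b, (L _).1 (by simpa using a)⟩, by simp [hd]⟩
  have cf := mkCF q (fun x a y b z c e => by
    obtain ⟨s, t, s0, t0, e, h⟩ := str_of (fun x a y b => (z0 x a y b).1) sy sg' a b c (by
      by_contra n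
      exact (st _ a _ b _ c n).ne' e) e
    exact ⟨s, t, s0, t0, e, φ.symm.injective (by simpa using h)⟩)
    fun x hx => ⟨M', q.op.mem_nhds hx, fun l p hp F hF n => (cn' l p hp F hF n).imp fun P h =>
      ⟨h.1, h.2.1, h.2.2.1⟩⟩
  have ne' : M'.Nonempty := ne.elim fun x a => ⟨φ x, by simpa [hM] using a⟩
  obtain ⟨f, k, k0, H⟩ := fin (cf.main1 ne') q (fun l p hp F hF n x w w0 H => by
    obtain ⟨P, -, -, a, b⟩ := cn' l p hp F hF n
    exact b x w w0 (H.mono fun s h => (a _ h.1).1 h.2)) ne'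
  have m : ∀ x ∈ M, φ x ∈ M' := fun x a => by simpa [hM] using a
  have bj : BijOn φ M M' := ⟨m, φ.injective.injOn, fun x a => ⟨_, a, by simp⟩⟩
  have n2 : ∀ x, ‖φ.symm x‖ ^ 2 = x.1 ^ 2 + x.2 ^ 2 := fun x => by
    simp [EuclideanSpace.real_norm_sq_eq, e0, e1]
  refine ⟨k, k0, φ.symm ∘ f ∘ φ, H.imp (fun ⟨a, b⟩ => ⟨?_, fun x hx y hy => ?_⟩)
    fun ⟨a, b⟩ => ⟨?_, fun x hx y hy => ?_⟩⟩
  · exact φ.symm.bijective.bijOn_univ.comp (a.comp bj)
  · simpa [hd, EuclideanSpace.dist_eq, Real.dist_eq, e0, e1] using b _ (m x hx) _ (m y hy)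
  · refine BijOn.comp ⟨fun x hx => ?_, φ.symm.injective.injOn, fun x hx => ⟨φ x, ?_, by simp⟩⟩
      (a.comp bj)
    · rwa [mem_ball_zero_iff, ← sq_lt_one_iff₀ (norm_nonneg _), n2]
    · rwa [mem_setOf_eq, ← n2, sq_lt_one_iff₀ (norm_nonneg _), φ.symm_apply_apply, ← mem_ball_zero_iff]
  · have := b _ (m x hx) _ (m y hy)
    simp only [hd, φ.symm_apply_apply] at this
    simp only [Function.comp, n2, this]
    simp [PiLp.inner_apply, e0, e1, mul_comm]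

end Pool.Agent.H.MP_ec5bc9_gt
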