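import Pool.Agent.H.MP_ec5bc9_gt.K

set_option autoImplicit false

namespace Pool.Agent.H.MP_ec5bc9_gt

open Set Filter Topology Pool.Agent.H.MP_594704_gt Pool.Agent.H.MP_deb346_gt

noncomputable def nv (X : EE) : EE := ‖X‖⁻¹ • X

theorem nv_mem {X : EE} (h : X ≠ 0) : nv X ∈ Metric.sphere (0:EE) 1 :=
  mem_sphere_zero_iff_norm.2 (norm_smul_inv_norm h)

theorem nv_smul (X : EE) {a : ℝ} (h : a ≠ 0) : nv (a • X) = nv X ∨ nv (a • X) = -nv X := by
  rw [nv, nv, norm_smul, smul_smul, ← neg_smul, Real.norm_eq_abs]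
  rcases lt_or_gt_of_ne h with p | p
  · right; rw [abs_of_neg p]; congr 1; field_simp
  · left; rw [abs_of_pos p]; congr 1; field_simp

theorem nv_pos (X : EE) {a : ℝ} (h : 0 < a) : nv (a • X) = nv X := by
  rw [nv, nv, norm_smul, smul_smul, Real.norm_eq_abs, abs_of_pos h]; congr 1; field_simp

theorem nv_id {X : EE} (h : X ∈ Metric.sphere (0:EE) 1) : nv X = X := by
  rw [nv, mem_sphere_zero_iff_norm.1 h]; simp

theorem inf_ac {L : ℝ} (x : ℝ) : ⨅ k : ℤ, |x - k * L| = ‖(x : AddCircle L)‖ := by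
  refine le_antisymm (ciInf_le_of_le ⟨0, by rintro _ ⟨k, rfl⟩; exact abs_nonneg _⟩ _
    (AddCircle.norm_eq L).ge) (le_ciInf fun k => ?_)
  have : ((x - k * L : ℝ) : AddCircle L) = x := by
    rw [AddCircle.coe_sub, ← zsmul_eq_mul, AddCircle.coe_zsmul, AddCircle.coe_period, smul_zero, sub_zero]
  rw [← this]
  exact QuotientAddGroup.norm_mk_le_norm

theorem dual {u v w : EE} (h : LinearIndependent ℝ ![u, v, w]) (a b c : ℝ) :
    ∃ Z : EE, inner ℝ u Z = a ∧ inner ℝ v Z = b ∧ inner ℝ w Z = c := by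
  let B := basisOfLinearIndependentOfCardEqFinrank h (by simp)
  have e : ∀ i, B i = ![u, v, w] i := fun i => by simp [B]
  let f := LinearMap.toContinuousLinearMap (B.constr ℝ ![a, b, c])
  have k : ∀ i, inner ℝ (B i) ((InnerProductSpace.toDual ℝ EE).symm f) = ![a, b, c] i := fun i => by
    rw [real_inner_comm, InnerProductSpace.toDual_symm_apply]; simp [f]
  exact ⟨_, by simpa [e] using k 0, by simpa [e] using k 1, by simpa [e] using k 2⟩

theorem proj (d : EE → EE → ℝ)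
    (z0 : ∀ x ∈ Metric.sphere (0 : EE) 1, ∀ y ∈ Metric.sphere (0 : EE) 1, (d x y = 0 ↔ (x = y ∨ x = -y)))
    (sy : ∀ x ∈ Metric.sphere (0 : EE) 1, ∀ y ∈ Metric.sphere (0 : EE) 1, d x y = d y x)
    (ng : ∀ x ∈ Metric.sphere (0 : EE) 1, ∀ y ∈ Metric.sphere (0 : EE) 1, d (-x) y = d x y)
    (tr : ∀ x ∈ Metric.sphere (0 : EE) 1, ∀ y ∈ Metric.sphere (0 : EE) 1,
      ∀ z ∈ Metric.sphere (0 : EE) 1, d x z ≤ d x y + d y z)
    (bs : ∀ x ∈ Metric.sphere (0 : EE) 1, Filter.HasBasis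
      (nhdsWithin x (Metric.sphere (0 : EE) 1) ⊔ nhdsWithin (-x) (Metric.sphere (0 : EE) 1))
      (fun r : ℝ => 0 < r) (fun r => {y | y ∈ Metric.sphere (0 : EE) 1 ∧ d x y < r}))
    (ln : ∃ L : ℝ, 0 < L ∧ ∀ n : EE, n ≠ 0 → ∃ γ : ℝ → EE,
      (∀ t, γ t ∈ Metric.sphere (0 : EE) 1 ∧ inner ℝ n (γ t) = 0) ∧
      (∀ x ∈ Metric.sphere (0 : EE) 1, inner ℝ n x = 0 → ∃ t, γ t = x ∨ γ t = -x) ∧
      ∀ s t : ℝ, d (γ s) (γ t) = ⨅ k : ℤ, |s - t - (k : ℝ) * L|)
    (st : ∀ x ∈ Metric.sphere (0 : EE) 1, ∀ y ∈ Metric.sphere (0 : EE) 1,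
      ∀ z ∈ Metric.sphere (0 : EE) 1, LinearIndependent ℝ ![x, y, z] → d x z < d x y + d y z)
    (cn : ∀ n : EE, n ≠ 0 → ∀ F ∈ Metric.sphere (0 : EE) 1, inner ℝ n F ≠ 0 →
      ∃ u v w : EE, LinearIndependent ℝ ![u, v, w] ∧
        {X | X ∈ Metric.sphere (0 : EE) 1 ∧ d X F = sInf ((fun Y => d X Y) ''
          {Y | Y ∈ Metric.sphere (0 : EE) 1 ∧ inner ℝ n Y = 0})}
          = {x | x ∈ Metric.sphere (0 : EE) 1 ∧ inner ℝ u x * inner ℝ w x = (inner ℝ v x) ^ 2}) :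
    ∃ c : ℝ, 0 < c ∧ ∃ f : EE → EE,
      (∀ x ∈ Metric.sphere (0 : EE) 1, f x ∈ Metric.sphere (0 : EE) 1) ∧
      (∀ z ∈ Metric.sphere (0 : EE) 1, ∃ x ∈ Metric.sphere (0 : EE) 1, f x = z ∨ f x = -z) ∧
      ∀ x ∈ Metric.sphere (0 : EE) 1, ∀ y ∈ Metric.sphere (0 : EE) 1,
        c * d x y = Real.arccos |inner ℝ (f x) (f y)| := by
  obtain ⟨L, L0, ln⟩ := ln
  set S := Metric.sphere (0 : EE) 1 with hS
  have nS : ∀ x ∈ S, -x ∈ S := fun x a => by simpa [hS] using a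
  have S0 : ∀ x ∈ S, x ≠ 0 := by rintro _ a rfl; simp [hS] at a
  have pm : ∀ x ∈ S, ∀ y ∈ S, ∀ x' y', x' = x ∨ x' = -x → y' = y ∨ y' = -y → d x' y' = d x y := by
    rintro x a y b _ _ (rfl | rfl) (rfl | rfl)
    · rfl
    · rw [sy _ a _ (nS y b), ng _ b _ a, sy _ b _ a]
    · exact ng _ a _ b
    · rw [ng _ a _ (nS y b), sy _ a _ (nS y b), ng _ b _ a, sy _ b _ a]
  obtain ⟨ψ⟩ : Nonempty (E3 ≃L[ℝ] EE) := ⟨(EuclideanSpace.equiv (Fin 3) ℝ).symm⟩
  have ψ0 : ∀ {X : E3}, X ≠ 0 → nv (ψ X) ∈ S := fun a => nv_mem (by simpa using a)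
  set D : PP → PP → ℝ := fun p q => d (nv (ψ p.rep)) (nv (ψ q.rep)) with hD
  have rp : ∀ (X : E3) (hX : X ≠ 0), nv (ψ (Projectivization.mk ℝ X hX).rep) = nv (ψ X) ∨
      nv (ψ (Projectivization.mk ℝ X hX).rep) = -nv (ψ X) := fun X hX => by
    obtain ⟨a, e⟩ := Projectivization.exists_smul_eq_mk_rep ℝ X hX
    rw [← e, Units.smul_def, map_smul]
    exact nv_smul _ a.ne_zero
  have eD : ∀ (X : E3) (hX : X ≠ 0) (Y : E3) (hY : Y ≠ 0), D (Projectivization.mk ℝ X hX)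
      (Projectivization.mk ℝ Y hY) = d (nv (ψ X)) (nv (ψ Y)) := fun X hX Y hY =>
    pm _ (ψ0 hX) _ (ψ0 hY) _ _ (rp X hX) (rp Y hY)
  have rf : ∀ x ∈ S, d x x = 0 := fun x a => (z0 x a x a).2 (Or.inl rfl)
  have ct := cont_of rf sy tr fun x a r r0 => (mem_sup.1 ((bs x a).mem_of_mem r0)).1
  have Z0 : ∀ p q, D p q = 0 ↔ p = q := fun p q => by
    refine ⟨fun e => ?_, fun e => e ▸ rf _ (ψ0 p.rep_nonzero)⟩
    have np : ‖ψ p.rep‖ ≠ 0 := by simpa using p.rep_nonzero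
    rw [← p.mk_rep, ← q.mk_rep, Projectivization.mk_eq_mk_iff']
    rcases (z0 _ (ψ0 p.rep_nonzero) _ (ψ0 q.rep_nonzero)).1 e with e | e
    · exact ⟨‖ψ p.rep‖ * ‖ψ q.rep‖⁻¹, ψ.injective (by
        rw [map_smul, mul_smul, ← nv, ← e, nv, smul_smul, mul_inv_cancel₀ np, one_smul])⟩
    · exact ⟨-‖ψ p.rep‖ * ‖ψ q.rep‖⁻¹, ψ.injective (by
        rw [map_smul, mul_smul, ← nv, neg_smul, ← smul_neg, ← e, nv, smul_smul, mul_inv_cancel₀ np,
          one_smul])⟩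
  have h0 : E0 D L :=
    { sy := fun p q => sy _ (ψ0 p.rep_nonzero) _ (ψ0 q.rep_nonzero), z0 := Z0, L0 := L0
      tr := fun p q r => tr _ (ψ0 p.rep_nonzero) _ (ψ0 q.rep_nonzero) _ (ψ0 r.rep_nonzero)
      ct := by
        simp only [eD]
        have c : Continuous fun X : {X : E3 // X ≠ 0} => nv (ψ X.1) :=
          (Continuous.inv₀ (f := fun X : {X : E3 // X ≠ 0} => ‖ψ X.1‖) (by fun_prop)
            fun X => by simpa using X.2).smul (g := fun X : {X : E3 // X ≠ 0} => ψ X.1) (by fun_prop)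
        exact ct.comp_continuous ((c.comp continuous_fst).prodMk (c.comp continuous_snd))
          fun p => ⟨ψ0 p.1.2, ψ0 p.2.2⟩
      ln := fun W hW => by
        set W' := W.map ψ.toLinearEquiv.toLinearMap with hW'
        have r2 : Module.finrank ℝ W' = 2 := by rw [hW', LinearEquiv.finrank_map_eq, hW]
        have r1 : Module.finrank ℝ W'ᗮ = 1 := Submodule.finrank_add_finrank_orthogonal' (by simp [r2])
        obtain ⟨n, hn, n0⟩ := Submodule.exists_mem_ne_zero_of_ne_bot (p := W'ᗮ) (fun z => by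
          rw [z] at r1; simp at r1)
        have eW : W' = (ℝ ∙ n)ᗮ := Submodule.eq_of_le_of_finrank_eq (fun x hx =>
          Submodule.mem_orthogonal_singleton_iff_inner_right.2
            (Submodule.inner_left_of_mem_orthogonal hx hn)) (by
          rw [r2, Submodule.finrank_add_finrank_orthogonal' (n := 2)]
          simp [finrank_span_singleton n0])
        have mW : ∀ X, X ∈ W ↔ inner ℝ n (ψ X) = 0 := fun X => by
          rw [← Submodule.mem_orthogonal_singleton_iff_inner_right, ← eW, hW']; simp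
        obtain ⟨γ, g1, g2, g3⟩ := ln n n0
        have γ0 : ∀ t, ψ.symm (γ t) ≠ 0 := fun t => by simpa using S0 _ (g1 t).1
        choose r hr _ using fun a : AddCircle L => rep a
        have g4 : ∀ s t : ℝ, d (γ s) (γ t) = dist (s : AddCircle L) t := fun s t => by
          rw [g3, inf_ac, dist_eq_norm, AddCircle.coe_sub]
        refine ⟨fun a => Projectivization.mk ℝ _ (γ0 (r a)), fun a b => ?_, Subset.antisymm ?_ fun p hp => ?_⟩
        · rw [eD, ψ.apply_symm_apply, ψ.apply_symm_apply, nv_id (g1 _).1, nv_id (g1 _).1, g4, hr, hr]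
        · rintro _ ⟨a, rfl⟩
          exact (Submodule.span_singleton_le_iff_mem _ _).2 ((mW _).2 (by simpa using (g1 _).2))
        have m : p.rep ∈ W := hp (by rw [p.submodule_eq]; exact Submodule.mem_span_singleton_self _)
        obtain ⟨t, e⟩ := g2 _ (ψ0 p.rep_nonzero) (by rw [nv, inner_smul_right, (mW _).1 m, mul_zero])
        refine ⟨t, (Z0 _ _).1 ?_⟩
        rw [← p.mk_rep, eD, ψ.apply_symm_apply, nv_id (g1 _).1,
          ← pm _ (g1 _).1 _ (ψ0 p.rep_nonzero) _ _ (Or.inl rfl) e, g4, hr, dist_self] }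
  have h1 : E1 D L := ⟨h0, fun A x0 => by
    obtain ⟨ρ, r0, q⟩ := h0.qm A x0
    set T : (V × ℝ) ≃ₗ[ℝ] EE := (A.trans ψ).toLinearEquiv with hT
    have cT : Continuous T := T.toLinearMap.continuous_of_finiteDimensional
    have eT : ∀ x y, dc A D x y = d (nv (T (x, 1))) (nv (T (y, 1))) := fun x y => eD _ _ _ _
    have T0 : ∀ x, nv (T (x, 1)) ∈ S := fun x => nv_mem (by simp)
    have Tp : ∀ x, 0 < ‖T (x, 1)‖⁻¹ := fun x => by simp
    refine ⟨ρ, r0, mkCF q (fun x a y b z c e => str_of q.sep q.symm q.seg a b c ?_ e) fun x hx => ?_⟩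
    · by_contra n
      rw [← affineIndependent_iff_not_collinear_set, affineIndependent_iff] at n
      rw [eT, eT, eT] at e
      refine (st _ (T0 x) _ (T0 y) _ (T0 z) (Fintype.linearIndependent_iff.2 fun g hg i => ?_)).ne' e
      simp only [Fin.sum_univ_three, nv, Matrix.cons_val, smul_smul, ← map_smul, ← map_add,
        map_eq_zero_iff T T.injective, Prod.smul_mk, Prod.mk_add_mk, Prod.mk_eq_zero, smul_eq_mul,
        mul_one] at hg
      have := n Finset.univ ![g 0 * ‖T (x, 1)‖⁻¹, g 1 * ‖T (y, 1)‖⁻¹, g 2 * ‖T (z, 1)‖⁻¹]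
        (by simpa [Fin.sum_univ_three] using hg.2) (by simpa [Fin.sum_univ_three] using hg.1) i
        (Finset.mem_univ _)
      fin_cases i <;> simpa using this
    have oC := Cn_open (T := T) q.op
    have xC : nv (T (x, 1)) ∈ Cn (Metric.ball x0 ρ) T := ⟨x, hx, _, Tp x, rfl⟩
    obtain ⟨r, r1, hr⟩ := (bs _ (T0 x)).mem_iff.1 (show Cn (Metric.ball x0 ρ) T ∪
        Neg.neg ⁻¹' Cn (Metric.ball x0 ρ) T ∈ _ from mem_sup.2 ⟨mem_nhdsWithin_of_mem_nhds
      ((oC.union (oC.preimage continuous_neg)).mem_nhds (Or.inl xC)), mem_nhdsWithin_of_mem_nhds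
      ((oC.union (oC.preimage continuous_neg)).mem_nhds (Or.inr (by simpa using xC)))⟩)
    have Tx := q.tendsto hx hx tendsto_const_nhds tendsto_id
    rw [q.refl x hx] at Tx
    refine ⟨_, (Tx.eventually (gt_mem_nhds (show 0 < r / 3 by linarith))).and (q.op.mem_nhds hx),
      fun l p hp F hF n => ?_⟩
    obtain ⟨m, hm⟩ : ∃ m : EE, ∀ y s, inner ℝ m (T (y, s)) = dot l y - s * dot l p := by
      obtain ⟨B, hB⟩ : ∃ B : (V × ℝ) →ₗ[ℝ] ℝ, ∀ y s, B (y, s) = dot l y - s * dot l p :=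
        ⟨⟨⟨fun q => dot l q.1 - q.2 * dot l p, fun _ _ => by simp [dot]; ring⟩,
          fun _ _ => by simp [dot]; ring⟩, fun _ _ => rfl⟩
      exact ⟨(InnerProductSpace.toDual ℝ EE).symm (LinearMap.toContinuousLinearMap
        (B.comp T.symm.toLinearMap)), fun y s => by
          rw [InnerProductSpace.toDual_symm_apply, ← hB]; simp⟩
    have hm' : ∀ y, inner ℝ m (nv (T (y, 1))) = 0 ↔ dot l y = dot l p := fun y => by
      rw [nv, inner_smul_right, hm, mul_eq_zero, one_mul, sub_eq_zero, or_iff_right (Tp y).ne']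
    obtain ⟨u, v, w, li, h⟩ := cn m (by rintro rfl; exact n ((hm' F).1 (by simp))) _ (T0 F)
      fun z => n ((hm' F).1 z)
    obtain ⟨lu, cu, hu⟩ := aff (T := T) u
    obtain ⟨lv, cv, hv⟩ := aff (T := T) v
    obtain ⟨lw, cw, hw⟩ := aff (T := T) w
    obtain ⟨P, hP⟩ := mkP lu lv lw cu cv cw
    have sc : ∀ (s : ℝ) X, inner ℝ u (s • T (X, 1)) * inner ℝ w (s • T (X, 1)) -
        inner ℝ v (s • T (X, 1)) ^ 2 = s ^ 2 * ev P X := fun s X => by
      simp only [inner_smul_right, hu, hv, hw, hP]; ring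
    have ex : ∀ (σ : ℝ) (Z : EE), 0 < σ * (inner ℝ u Z * inner ℝ w Z - inner ℝ v Z ^ 2) →
        ∃ X, 0 < σ * ev P X := fun σ Z p => by
      obtain ⟨ε, a, b⟩ := ((((by fun_prop : Continuous fun Z : EE => σ * (inner ℝ u Z * inner ℝ w Z -
        inner ℝ v Z ^ 2)).tendsto Z).comp (t_sm Z (T (0, 1)))).eventually (lt_mem_nhds p) |>.and
        (ev_ne (T.symm Z).2 1 one_ne_zero)).exists
      refine ⟨((T.symm Z).2 + ε * 1)⁻¹ • (T.symm Z).1, ?_⟩
      simp only [Function.comp] at a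
      rw [show Z + ε • T (0, 1) = ((T.symm Z).2 + ε * 1) • T (((T.symm Z).2 + ε * 1)⁻¹ • (T.symm Z).1, 1) by
        rw [← map_smul, ← map_smul, Prod.smul_mk _ (_ • _), smul_smul, mul_inv_cancel₀ b]
        nth_rewrite 1 [← T.apply_symm_apply Z]
        rw [← map_add]; congr 1; ext <;> simp, sc, mul_left_comm] at a
      exact (pos_iff_pos_of_mul_pos a).1 (sq_pos_of_ne_zero b)
    refine ⟨P, ?_, ?_, fun X hX => ?_⟩
    · obtain ⟨Z, a, b, c⟩ := dual li 1 0 1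
      simpa using ex 1 Z (by simp [a, b, c])
    · obtain ⟨Z, a, b, c⟩ := dual li 0 1 0
      simpa using ex (-1) Z (by simp [a, b, c])
    have := Set.ext_iff.1 h (nv (T (X, 1)))
    simp only [mem_setOf_eq, T0 X, true_and] at this
    have e2 := sc ‖T (X, 1)‖⁻¹ X
    rw [eT, show fl (Metric.ball x0 ρ) (dc A D) l p X = sInf ((fun Y => d (nv (T (X, 1))) Y) ''
      {Y | Y ∈ S ∧ inner ℝ m Y = 0}) from ?_, this, ← sub_eq_zero, nv, e2, mul_eq_zero,
      or_iff_right (pow_pos (Tp X) 2).ne']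
    have nn : ∀ x ∈ S, ∀ y ∈ S, 0 ≤ d x y := fun x a y b => by
      linarith [tr x a y b x a, rf x a, sy x a y b]
    refine le_antisymm (le_csInf ⟨_, _, ⟨T0 p, (hm' p).2 rfl⟩, rfl⟩ ?_) (le_csInf ⟨_, p, ⟨hp.2, rfl⟩, rfl⟩ ?_)
    · rintro _ ⟨Y, ⟨a, b⟩, rfl⟩
      rcases le_total (d (nv (T (X, 1))) Y) (dc A D X p) with e | e
      swap
      · exact (fl_le q hX.2 hp.2 rfl).trans e
      have := hr ⟨a, by
        have k1 := hX.1
        have k2 := hp.1
        have k3 := q.tri X hX.2 x hx p hp.2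
        rw [q.symm X hX.2 x hx] at k3
        simp only [id] at k1 k2
        linarith [tr _ (T0 x) _ (T0 X) _ a, eT x X]⟩
      obtain ⟨y, hy, e⟩ : ∃ y ∈ Metric.ball x0 ρ, Y = nv (T (y, 1)) ∨ Y = -nv (T (y, 1)) := by
        rcases this with ⟨y, hy, s, s0, e⟩ | ⟨y, hy, s, s0, e⟩
        · exact ⟨y, hy, Or.inl (by rw [← nv_pos _ s0, ← e, nv_id a])⟩
        · exact ⟨y, hy, Or.inr (by rw [← nv_pos _ s0, ← e, nv_id (nS _ a), neg_neg])⟩
      refine (fl_le q hX.2 hy ((hm' y).1 ?_)).trans_eq ?_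
      · rcases e with rfl | rfl
        · exact b
        · simpa using b
      · rw [eT]; exact (pm _ (T0 X) _ (T0 y) _ _ (Or.inl rfl) e).symm
    · rintro _ ⟨y, ⟨a, b⟩, rfl⟩
      exact csInf_le ⟨0, by rintro _ ⟨Y, hY, rfl⟩; exact nn _ (T0 X) _ hY.1⟩
        ⟨_, ⟨T0 y, (hm' y).2 b⟩, (eT X y).symm⟩⟩
  obtain ⟨T, k, k0, H⟩ := h1.main
  have n0 : ∀ x ∈ S, ψ.symm x ≠ 0 := fun x a => by simpa using S0 x a
  refine ⟨k, k0, fun x => nv (T (ψ.symm x)), fun x a => nv_mem (by simpa using S0 x a), fun z a =>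
    ⟨_, ψ0 (X := T.symm z) (by simpa using S0 z a), Or.inl ?_⟩, fun x a y b => ?_⟩
  · beta_reduce
    rw [nv.eq_1 (ψ _), map_smul, map_smul, nv_pos _ (by simpa using S0 z a)]
    simpa using nv_id a
  · have := H _ _ (n0 x a) (n0 y b)
    rw [eD, ψ.apply_symm_apply, ψ.apply_symm_apply, nv_id a, nv_id b] at this
    simp only [this, nv, inner_smul_left, inner_smul_right, abs_mul, conj_trivial, abs_inv, abs_norm]
    congr 1
    field_simp

end Pool.Agent.H.MP_ec5bc9_gt
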